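import Pool.Agent.P.MP_c9188c_gt.Defs

namespace Pool.Agent.P.MP_b49e67_gt

open Pool.Agent.P.MP_6e1b89_gt

variable (M : Set ZFSet.{0})

/-- the free ultrafilters on the natural numbers in the sense of `M` -/
def StarIn : Set (Set (Set ℕ)) :=
  {u | cSet (cSet cNat) u ∈ M ∧ (∀ A ∈ u, A.Infinite) ∧ (∀ A ∈ u, ∀ B ∈ u, A ∩ B ∈ u) ∧
    (∀ A ∈ u, ∀ B, cSet cNat B ∈ M → A ⊆ B → B ∈ u) ∧ ∀ A, cSet cNat A ∈ M → A ∈ u ∨ Aᶜ ∈ u}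

variable {X : Type} (c : X → ZFSet.{0}) (𝒯 : Set (Set X))

/-- `M` contains a continuous map from its space of free ultrafilters onto `(X, 𝒯)` -/
def ImageIn : Prop :=
  ∃ f : Set (Set ℕ) → X, cFun (cSet (cSet cNat)) c (StarIn M) f ∈ M ∧
    (∀ x, ∃ u ∈ StarIn M, f u = x) ∧
    ∀ U ∈ 𝒯, ∀ u ∈ StarIn M, f u ∈ U → ∃ A ∈ u, ∀ v ∈ StarIn M, A ∈ v → f v ∈ U

/-- `M` contains a continuous map from `(X, 𝒯)` to the Cantor set, given by a sequence of clopen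
sets, whose fibres have at most `n` points -/
def DegIn (n : ℕ) : Prop :=
  ∃ s : ℕ → Set X, cFun cNat (cSet c) Set.univ s ∈ M ∧ (∀ k, s k ∈ 𝒯 ∧ (s k)ᶜ ∈ 𝒯) ∧
    ∀ x, {y | ∀ k, y ∈ s k ↔ x ∈ s k}.encard ≤ n

/-- every point has a countable neighbourhood base lying in `M` -/
def FirstIn : Prop :=
  ∀ x, ∃ s : ℕ → Set X, cFun cNat (cSet c) Set.univ s ∈ M ∧ (∀ k, s k ∈ 𝒯 ∧ x ∈ s k) ∧
    ∀ U ∈ 𝒯, x ∈ U → ∃ k, s k ⊆ U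

end Pool.Agent.P.MP_b49e67_gt
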