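import Pool.Agent.Lib.Helper87.Codes
import Pool.Agent.P.MP_b49e67_gt.ConDefs

/-!
Codes of sets, sequences and functions, and named subsets of the natural numbers.
-/

open Set Filter Pool.Agent.Lib.Helper87 Pool.Agent.P.MP_6e1b89_gt

namespace Pool.Agent.P.MP_b49e67_gt

theorem mem_cSet {α : Type} {c : α → ZFSet.{0}} {S : Set α} {z : ZFSet} :
    z ∈ cSet c S ↔ ∃ x ∈ S, c x = z := by
  simp [cSet]

theorem mem_cSet_iff {α : Type} {c : α → ZFSet.{0}} {K S : Set α} (hc : InjOn c K) (hS : S ⊆ K)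
    {x : α} (hx : x ∈ K) : c x ∈ cSet c S ↔ x ∈ S := by
  rw [mem_cSet]
  exact ⟨fun ⟨y, hy, e⟩ => hc (hS hy) hx e ▸ hy, fun h => ⟨x, h, rfl⟩⟩

theorem mem_cSet_inj {α : Type} {c : α → ZFSet.{0}} {S : Set α} (hc : Function.Injective c)
    {x : α} : c x ∈ cSet c S ↔ x ∈ S :=
  mem_cSet_iff (K := univ) hc.injOn (subset_univ _) trivial

theorem cSet_inj {α : Type} {c : α → ZFSet.{0}} (hc : Function.Injective c) :
    Function.Injective (cSet c) := fun S S' h => by
  ext x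
  rw [← mem_cSet_inj hc, h, mem_cSet_inj hc]

theorem mem_cFun {α β : Type} {c : α → ZFSet.{0}} {e : β → ZFSet.{0}} {S : Set α} {f : α → β}
    {z : ZFSet} : z ∈ cFun c e S f ↔ ∃ x ∈ S, (c x).pair (e (f x)) = z := mem_cSet

theorem cNat_inj : Function.Injective cNat := CodedInj.inj (T := ℕ)

/-- function application -/
noncomputable def app (f a : ZFSet.{0}) : ZFSet.{0} :=
  ZFSet.sep (fun z => ∃ y ∈ f.sUnion.sUnion, a.pair y ∈ f ∧ z ∈ y) f.sUnion.sUnion.sUnion

theorem app_cFun {α β : Type} {c : α → ZFSet.{0}} {S : Set α} (hc : InjOn c S)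
    {e : β → ZFSet.{0}} {f : α → β} {x : α} (hx : x ∈ S) :
    app (cFun c e S f) (c x) = e (f x) := by
  have h1 : (c x).pair (e (f x)) ∈ cFun c e S f := mem_cFun.2 ⟨x, hx, rfl⟩
  have h2 : e (f x) ∈ (cFun c e S f).sUnion.sUnion :=
    ZFSet.mem_sUnion.2 ⟨{c x, e (f x)}, ZFSet.mem_sUnion.2 ⟨_, h1, by simp [ZFSet.pair]⟩, by simp⟩
  ext z
  rw [app, ZFSet.mem_sep]
  constructor
  · rintro ⟨-, y, -, h3, h4⟩
    obtain ⟨x', h5, e⟩ := mem_cFun.1 h3
    rw [ZFSet.pair_inj] at e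
    rwa [← hc h5 hx e.1, e.2]
  · exact fun hz => ⟨ZFSet.mem_sUnion.2 ⟨_, h2, hz⟩, _, h2, h1, hz⟩

variable {P : Type} [Preorder P] {Y f a : World P → ZFSet.{0}}

theorem named_bex (hY : Named Y) {Φ : ZFSet.{0} → World P → Prop}
    (hΦ : ∀ y, Named y → Measurable fun w => Φ (y w) w) :
    Measurable fun w => ∃ x ∈ Y w, Φ x w := by
  obtain ⟨J, x, Ψ, h1, h2, h3⟩ := hY.exists_index
  refine (measurable_ex_in fun j => (h2 j).and (hΦ _ (h1 j))).congr_ev (h3.mono fun w hw => ?_)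
  constructor
  · rintro ⟨z, a1, a2⟩
    obtain ⟨j, b1, b2, rfl⟩ := (hw z).1 a1
    exact ⟨j, b1, b2, a2⟩
  · rintro ⟨j, b1, b2, a2⟩
    exact ⟨_, (hw _).2 ⟨j, b1, b2, rfl⟩, a2⟩

theorem named_sep (hY : Named Y) {Φ : ZFSet.{0} → World P → Prop}
    (hΦ : ∀ y, Named y → Measurable fun w => Φ (y w) w) :
    Named fun w => ZFSet.sep (fun x => Φ x w) (Y w) := by
  obtain ⟨J, x, Ψ, h1, h2, h3⟩ := hY.exists_index
  refine named_of_mem_iff h1 (fun j => (h2 j).and (hΦ _ (h1 j))) (h3.mono fun w hw z => ?_)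
  rw [ZFSet.mem_sep, hw]
  constructor
  · rintro ⟨⟨j, b1, b2, rfl⟩, a2⟩
    exact ⟨j, b1, ⟨b2, a2⟩, rfl⟩
  · rintro ⟨j, b1, ⟨b2, a2⟩, rfl⟩
    exact ⟨⟨j, b1, b2, rfl⟩, a2⟩

theorem named_sUnion (hY : Named Y) : Named fun w => (Y w).sUnion := by
  obtain ⟨J, x, Ψ, h1, h2, h3⟩ := hY.exists_index
  choose J' u Θ a1 a2 a3 using fun j => (h1 j).exists_index
  refine named_of_mem_iff (I := Σ j, J' j) (x := fun k => u k.1 k.2) (fun k => a1 _ _)
    (Φ := fun k w => Ψ k.1 w ∧ Θ k.1 k.2 w) (fun k => (h2 _).and (a2 _ _)) ?_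
  filter_upwards [h3, ev_all a3, ev_in_sigma J'] with w b1 b2 b3 z
  rw [ZFSet.mem_sUnion]
  constructor
  · rintro ⟨y, c1, c2⟩
    obtain ⟨j, d1, d2, rfl⟩ := (b1 y).1 c1
    obtain ⟨k, d3, d4, rfl⟩ := (b2 j d1 z).1 c2
    exact ⟨⟨j, k⟩, (b3 _).2 ⟨d1, d3⟩, ⟨d2, d4⟩, rfl⟩
  · rintro ⟨⟨j, k⟩, c1, ⟨c2, c3⟩, rfl⟩
    have := (b3 _).1 c1
    exact ⟨_, (b1 _).2 ⟨j, this.1, c2, rfl⟩, (b2 j this.1 _).2 ⟨k, this.2, c3, rfl⟩⟩

theorem named_app (hf : Named f) (ha : Named a) : Named fun w => app (f w) (a w) :=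
  named_sep (named_sUnion (named_sUnion (named_sUnion hf)))
    (Φ := fun z w => ∃ y ∈ (f w).sUnion.sUnion, (a w).pair y ∈ f w ∧ z ∈ y) fun _ hz =>
    named_bex (named_sUnion (named_sUnion hf))
      (Φ := fun y w => (a w).pair y ∈ f w ∧ _ ∈ y) fun _ hy =>
      ((ha.pair hy).measurable_mem hf).and (hz.measurable_mem hy)

theorem named_cNat (n : ℕ) : Named fun _ : World P => cNat n := named_nat n

theorem named_cSet {J α : Type} {c : World P → α → ZFSet.{0}} {g : J → World P → α}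
    (hg : ∀ j, Named fun w => c w (g j w)) {Φ : J → World P → Prop} (hΦ : ∀ j, Measurable (Φ j))
    {S : World P → Set α}
    (hS : ∀ᶠ w in gen P, ∀ x, x ∈ S w ↔ ∃ j, w.In j ∧ Φ j w ∧ g j w = x) :
    Named fun w => cSet (c w) (S w) := by
  refine named_of_mem_iff hg hΦ (hS.mono fun w hw z => ?_)
  simp only [mem_cSet, hw]
  constructor
  · rintro ⟨_, ⟨j, a1, a2, rfl⟩, rfl⟩
    exact ⟨j, a1, a2, rfl⟩
  · rintro ⟨j, a1, a2, rfl⟩
    exact ⟨_, ⟨j, a1, a2, rfl⟩, rfl⟩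

theorem named_cSeq {β : Type} {e : World P → β → ZFSet.{0}} {s : World P → ℕ → β}
    (hs : ∀ n, Named fun w => e w (s w n)) : Named fun w => cFun cNat (e w) univ (s w) :=
  named_cSet (c := fun w n => (cNat n).pair (e w (s w n))) (g := fun n _ => n)
    (fun n => (named_cNat n).pair (hs n)) (Φ := fun _ _ => True) (fun _ => measurable_const)
    ((ev_ctype ℕ).mono fun w h x => by simp [h])

theorem meas_decide {W : Type*} [MeasurableSpace W] {Φ : W → Prop} [DecidablePred Φ]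
    (h : Measurable Φ) : Measurable fun w => decide (Φ w) := by
  refine measurable_to_bool ?_
  have : (fun w => decide (Φ w)) ⁻¹' {true} = {w | Φ w} := by ext; simp
  exact this ▸ measurableSet_setOfPred.2 h

/-- choice of the least witness -/
theorem exists_choice {J : Type} {Φ : J → World P → Prop} (h : ∀ j, Measurable (Φ j)) :
    ∃ Ψ : J → World P → Prop, (∀ j, Measurable (Ψ j)) ∧ (∀ j w, Ψ j w → Φ j w) ∧
      (∀ w, (∃ j, w.In j ∧ Φ j w) → ∃ j, w.In j ∧ Ψ j w) ∧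
      ∀ w j j', w.In j → w.In j' → Ψ j w → Ψ j' w → j = j' := by
  refine ⟨fun j w => Φ j w ∧ ∀ j', w.In j' → WellOrderingRel j' j → ¬ Φ j' w,
    fun j => (h j).and (measurable_all_in fun j' => measurable_const.imp (h j').not),
    fun _ _ h => h.1, fun w hw => ?_, fun w j j' a1 a2 a3 a4 => ?_⟩
  · obtain ⟨j, a1, a2⟩ := (IsWellFounded.wf (r := WellOrderingRel)).has_min
      {j | w.In j ∧ Φ j w} hw
    exact ⟨j, a1.1, a1.2, fun j' b1 b2 b3 => a2 j' ⟨b1, b3⟩ b2⟩
  · rcases trichotomous_of WellOrderingRel j j' with h | h | h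
    exacts [absurd a3.1 (a4.2 j a1 h), h, absurd a4.1 (a3.2 j' a2 h)]

/-- named subsets of the natural numbers -/
def MS (A : World P → Set ℕ) : Prop := ∀ n, Measurable fun w => n ∈ A w

theorem MS.named {A : World P → Set ℕ} (h : MS A) : Named fun w => cSet cNat (A w) :=
  named_cSet (c := fun _ => cNat) (g := fun n _ => n) named_cNat h
    ((ev_ctype ℕ).mono fun w hw x => by simp [hw])

theorem MS.ev_mem {A : World P → Set ℕ} (h : MS A) : ∀ᶠ w in gen P, cSet cNat (A w) ∈ w.M :=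
  h.named.ev_mem

theorem MS.inter {A B : World P → Set ℕ} (h : MS A) (h' : MS B) : MS fun w => A w ∩ B w :=
  fun n => (h n).and (h' n)

theorem MS.union {A B : World P → Set ℕ} (h : MS A) (h' : MS B) : MS fun w => A w ∪ B w :=
  fun n => (h n).or (h' n)

theorem MS.compl {A : World P → Set ℕ} (h : MS A) : MS fun w => (A w)ᶜ := fun n => (h n).not

theorem MS.meas_infinite {A : World P → Set ℕ} (h : MS A) : Measurable fun w => (A w).Infinite := by
  simp only [infinite_iff_exists_gt]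
  exact Measurable.forall fun m => Measurable.exists fun n => (h n).and measurable_const

theorem MS.meas_eq {A B : World P → Set ℕ} (h : MS A) (h' : MS B) :
    Measurable fun w => A w = B w := by
  simp only [Set.ext_iff]
  exact Measurable.forall fun n => (h n).iff (h' n)

/-- values of nice names of subsets of the natural numbers -/
def rval (w : World P) (c : ℕ → Set P) : Set ℕ := {n | w.Hit (c n)}

theorem ms_rval (c : ℕ → Set P) : MS fun w => rval w c := fun _ => measurable_hit _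

theorem ev_exists_rval : ∀ᶠ w in gen P, ∀ A, cSet cNat A ∈ w.M → ∃ c, w.In c ∧ rval w c = A := by
  have : ∀ᶠ w in gen P, ∀ z ∈ w.M, ∃ c : ℕ → Set P, w.In c ∧
      ∀ n, w.Hit (c n) ↔ cNat n ∈ z := ev_all_named fun z hz => by
    filter_upwards [ev_const fun n => {p | Sem p fun w => cNat n ∈ z w},
      ev_call fun n => ev_hit_sem ((named_cNat n).measurable_mem hz)] with w h1 h2 using ⟨_, h1, h2⟩
  filter_upwards [this] with w h1 A hA
  obtain ⟨c, a1, a2⟩ := h1 _ hA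
  exact ⟨c, a1, Set.ext fun n => (a2 n).trans (mem_cSet_inj cNat_inj)⟩

theorem ev_rval_mem : ∀ᶠ w in gen P, ∀ c, w.In c → cSet cNat (rval w c) ∈ w.M :=
  ev_all fun c => (ms_rval c).ev_mem

/-- quantification over the subsets of the natural numbers in the extension -/
theorem ev_all_ms {Φ : Set ℕ → World P → Prop} (h : ∀ A, MS A → ∀ᶠ w in gen P, Φ (A w) w) :
    ∀ᶠ w in gen P, ∀ A, cSet cNat A ∈ w.M → Φ A w := by
  filter_upwards [ev_exists_rval, ev_all fun c => h _ (ms_rval c)] with w h1 h2 A hA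
  obtain ⟨c, a1, rfl⟩ := h1 A hA
  exact h2 c a1

theorem meas_all_ms {Φ : Set ℕ → World P → Prop} (h : ∀ A, MS A → Measurable fun w => Φ (A w) w) :
    Measurable fun w => ∀ A, cSet cNat A ∈ w.M → Φ A w := by
  refine (measurable_all_in fun c => h _ (ms_rval c)).congr_ev ?_
  filter_upwards [ev_exists_rval, ev_rval_mem] with w h1 h2
  refine ⟨fun a c hc => a _ (h2 c hc), fun a A hA => ?_⟩
  obtain ⟨c, a1, rfl⟩ := h1 A hA
  exact a c a1

theorem meas_ex_ms {Φ : Set ℕ → World P → Prop} (h : ∀ A, MS A → Measurable fun w => Φ (A w) w) :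
    Measurable fun w => ∃ A, cSet cNat A ∈ w.M ∧ Φ A w := by
  have := (meas_all_ms (Φ := fun A w => ¬ Φ A w) fun A hA => (h A hA).not).not
  simpa using this

end Pool.Agent.P.MP_b49e67_gt
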