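import Pool.Agent.P.MP_b49e67_gt.Ult
import Pool.Agent.P.MP_c9188c_gt.Transfer

/-!
Closed subspaces of a Cantor cube in the extension: points and sets of points.
-/

open Set Filter Pool.Agent.Lib.Helper87 Pool.Agent.P.MP_6e1b89_gt

namespace Pool.Agent.P.MP_b49e67_gt.CC

theorem cSet_injOn {α : Type} {c : α → ZFSet.{0}} {K : Set α} (hc : InjOn c K) :
    InjOn (cSet c) (𝒫 K) := fun S hS S' hS' h => by
  ext x
  exact ⟨fun hx => (mem_cSet_iff hc hS' (hS hx)).1 (h ▸ mem_cSet.2 ⟨x, hx, rfl⟩),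
    fun hx => (mem_cSet_iff hc hS (hS' hx)).1 (h ▸ mem_cSet.2 ⟨x, hx, rfl⟩)⟩

theorem cSet_sUnion {α : Type} (c : α → ZFSet.{0}) (𝒰 : Set (Set α)) :
    cSet c (⋃₀ 𝒰) = (cSet (cSet c) 𝒰).sUnion := by
  ext z
  simp only [mem_cSet, ZFSet.mem_sUnion, mem_sUnion]
  constructor
  · rintro ⟨x, ⟨U, a1, a2⟩, rfl⟩
    exact ⟨_, ⟨U, a1, rfl⟩, mem_cSet.2 ⟨x, a2, rfl⟩⟩
  · rintro ⟨_, ⟨U, a1, rfl⟩, a2⟩
    obtain ⟨x, a3, rfl⟩ := mem_cSet.1 a2
    exact ⟨x, ⟨U, a1, a3⟩, rfl⟩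

variable {P L : Type} [Preorder P]

theorem meas_in {T : Type} (a : T) : Measurable fun w : World P => w.In a :=
  (measurable_const (a := True)).congr_ev ((ev_const a).mono fun _ h => iff_true_intro h)

theorem meas_fex {α : Type} (E : Finset α) {Φ : α → World P → Prop}
    (h : ∀ a, Measurable (Φ a)) : Measurable fun w => ∃ a ∈ E, Φ a w := by
  have := Measurable.exists fun a : E => h a
  simpa only [Subtype.exists, exists_prop] using this

/-- codes of labels -/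
noncomputable def lc (w : World P) (l : L) : ZFSet.{0} :=
  @World.ord P L (IsWellOrder.linearOrder WellOrderingRel) ⟨IsWellFounded.wf (r := WellOrderingRel)⟩ w l

theorem named_lc (l : L) : Named fun w : World P => lc w l :=
  @named_ord P _ L (IsWellOrder.linearOrder WellOrderingRel) ⟨IsWellFounded.wf (r := WellOrderingRel)⟩ l

omit [Preorder P] in
theorem lc_inj (w : World P) : InjOn (lc w) {l : L | w.In l} := fun _ a _ b h =>
  (@World.ord_inj P L (IsWellOrder.linearOrder WellOrderingRel)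
    ⟨IsWellFounded.wf (r := WellOrderingRel)⟩ w _ _ a b).1 h

/-- codes of points -/
noncomputable def pc (w : World P) : Set L → ZFSet.{0} := cSet (lc w)

/-- named points -/
def NP (x : World P → Set L) : Prop :=
  (∀ l, Measurable fun w => l ∈ x w) ∧ ∀ᶠ w in gen P, ∀ l ∈ x w, w.In l

theorem NP.named {x : World P → Set L} (h : NP x) : Named fun w => pc w (x w) :=
  named_cSet (c := lc) (g := fun l _ => l) named_lc h.1
    (h.2.mono fun _ hw l => ⟨fun a => ⟨l, hw l a, a, rfl⟩, fun ⟨_, _, a, e⟩ => e ▸ a⟩)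

theorem NP.meas_eq {x y : World P → Set L} (hx : NP x) (hy : NP y) :
    Measurable fun w => x w = y w :=
  (measurable_all_in fun l => (hx.1 l).iff (hy.1 l)).congr_ev ((hx.2.and hy.2).mono
    fun _ hw => ⟨fun h _ _ => h ▸ Iff.rfl, fun h => Set.ext fun l =>
      ⟨fun a => (h l (hw.1 l a)).1 a, fun a => (h l (hw.2 l a)).2 a⟩⟩)

/-- values of names of points -/
def val (w : World P) (c : L → Set P) : Set L := {l | w.In l ∧ w.Hit (c l)}

theorem np_val (c : L → Set P) : NP fun w => val w c :=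
  ⟨fun l => (meas_in l).and (measurable_hit _), Eventually.of_forall fun _ _ h => h.1⟩

/-- closed constraints -/
structure Sp (P L : Type) [Preorder P] where
  con : Set L → World P → Prop
  meas : ∀ x, NP x → Measurable fun w => con (x w) w
  closed : ∀ w x, (∀ E : Finset L, ∃ y, con y w ∧ ∀ l ∈ E, (l ∈ y ↔ l ∈ x)) → con x w

variable (S : Sp P L)

/-- the space -/
def Sp.K (w : World P) : Set (Set L) := {x | (∀ l ∈ x, w.In l) ∧ S.con x w ∧ pc w x ∈ w.M}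

theorem Sp.pc_inj (w : World P) : InjOn (pc w) (S.K w) := fun _ a _ b h =>
  cSet_injOn (lc_inj w) a.1 b.1 h

theorem Sp.ev_exists_val : ∀ᶠ w in gen P, ∀ x ∈ S.K w, ∃ c, w.In c ∧ val w c = x := by
  have : ∀ᶠ w in gen P, ∀ z ∈ w.M, ∃ c : L → Set P, w.In c ∧
      ∀ l, w.In l → (w.Hit (c l) ↔ lc w l ∈ z) := ev_all_named fun z hz => by
    filter_upwards [ev_const fun l : L => {p | Sem p fun w => lc w l ∈ z w},
      ev_all fun l : L => ev_hit_sem ((named_lc l).measurable_mem hz)] with w h1 h2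
      using ⟨_, h1, h2⟩
  filter_upwards [this] with w h1 x hx
  obtain ⟨c, a1, a2⟩ := h1 _ hx.2.2
  exact ⟨c, a1, Set.ext fun l => ⟨fun h => (mem_cSet_iff (lc_inj w) hx.1 h.1).1 ((a2 l h.1).1 h.2),
    fun h => ⟨hx.1 l h, (a2 l (hx.1 l h)).2 (mem_cSet.2 ⟨l, h, rfl⟩)⟩⟩⟩

theorem Sp.ev_allK {Φ : Set L → World P → Prop} (h : ∀ x, NP x → ∀ᶠ w in gen P, Φ (x w) w) :
    ∀ᶠ w in gen P, ∀ x ∈ S.K w, Φ x w := by
  filter_upwards [S.ev_exists_val, ev_all fun c => h _ (np_val c)] with w h1 h2 x hx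
  obtain ⟨c, a1, rfl⟩ := h1 x hx
  exact h2 c a1

/-- named sets of points -/
def Sp.NS (A : World P → Set (Set L)) : Prop :=
  (∀ w, A w ⊆ S.K w) ∧ ∀ x, NP x → Measurable fun w => x w ∈ A w

theorem Sp.ns_K : S.NS S.K :=
  ⟨fun _ => Subset.rfl, fun x hx => (S.meas x hx).congr_ev
    ((hx.named.ev_mem.and hx.2).mono fun _ h => ⟨fun a => a.2.1, fun a => ⟨h.2, a, h.1⟩⟩)⟩

theorem Sp.ns_sep {Φ : Set L → World P → Prop} (h : ∀ x, NP x → Measurable fun w => Φ (x w) w) :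
    S.NS fun w => {x ∈ S.K w | Φ x w} :=
  ⟨fun _ => sep_subset _ _, fun x hx => (S.ns_K.2 x hx).and (h x hx)⟩

theorem Sp.meas_exK {Φ : Set L → World P → Prop} (h : ∀ x, NP x → Measurable fun w => Φ (x w) w) :
    Measurable fun w => ∃ x ∈ S.K w, Φ x w := by
  refine (measurable_ex_in fun c => (S.ns_K.2 _ (np_val c)).and (h _ (np_val c))).congr_ev
    (S.ev_exists_val.mono fun w hw => ⟨fun ⟨x, a1, a2⟩ => ?_, fun ⟨_, _, a⟩ => ⟨_, a⟩⟩)
  obtain ⟨c, b1, rfl⟩ := hw x a1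
  exact ⟨c, b1, a1, a2⟩

theorem Sp.meas_allK {Φ : Set L → World P → Prop}
    (h : ∀ x, NP x → Measurable fun w => Φ (x w) w) :
    Measurable fun w => ∀ x ∈ S.K w, Φ x w := by
  have := (S.meas_exK (Φ := fun x w => ¬ Φ x w) fun x hx => (h x hx).not).not
  simpa using this

variable {S} {A B : World P → Set (Set L)}

theorem Sp.NS.named (h : S.NS A) : Named fun w => cSet (pc w) (A w) :=
  named_cSet (g := fun c w => val w c) (fun c => (np_val c).named)
    (Φ := fun c w => val w c ∈ A w) (fun c => h.2 _ (np_val c))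
    (S.ev_exists_val.mono fun w hw x => ⟨fun hx => by
      obtain ⟨c, a1, rfl⟩ := hw x (h.1 w hx)
      exact ⟨c, a1, hx, rfl⟩, fun ⟨_, _, a, e⟩ => e ▸ a⟩)

theorem Sp.NS.ev_mem (h : S.NS A) : ∀ᶠ w in gen P, cSet (pc w) (A w) ∈ w.M := h.named.ev_mem

theorem Sp.NS.inter (h : S.NS A) (h' : S.NS B) : S.NS fun w => A w ∩ B w :=
  ⟨fun w => inter_subset_left.trans (h.1 w), fun x hx => (h.2 x hx).and (h'.2 x hx)⟩

theorem Sp.NS.meas_subset (h : S.NS A) (h' : S.NS B) : Measurable fun w => A w ⊆ B w :=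
  (S.meas_allK (Φ := fun x w => x ∈ A w → x ∈ B w)
    fun x hx => (h.2 x hx).imp (h'.2 x hx)).congr_ev (Eventually.of_forall fun w =>
      ⟨fun a _ _ b => a b, fun a _ b => a _ (h.1 w b) b⟩)

theorem Sp.NS.meas_ne (h : S.NS A) : Measurable fun w => (A w).Nonempty :=
  (S.meas_exK (Φ := fun x w => x ∈ A w) h.2).congr_ev (Eventually.of_forall fun w =>
    ⟨fun ⟨x, a⟩ => ⟨x, h.1 w a, a⟩, fun ⟨x, _, a⟩ => ⟨x, a⟩⟩)

variable (S)

theorem Sp.ev_all_set {Φ : Set (Set L) → World P → Prop}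
    (h : ∀ A, S.NS A → ∀ᶠ w in gen P, Φ (A w) w) :
    ∀ᶠ w in gen P, ∀ A ⊆ S.K w, cSet (pc w) A ∈ w.M → Φ A w := by
  filter_upwards [ev_all_named (Φ := fun z w => Φ {x ∈ S.K w | pc w x ∈ z} w) fun z hz => h _
    (S.ns_sep (Φ := fun x w => pc w x ∈ z w) fun _ hx => hx.named.measurable_mem hz)]
    with w h2 A a1 a2
  have : {x ∈ S.K w | pc w x ∈ cSet (pc w) A} = A := Set.ext fun x =>
    ⟨fun a => (mem_cSet_iff (S.pc_inj w) a1 a.1).1 a.2, fun a => ⟨a1 a, mem_cSet.2 ⟨x, a, rfl⟩⟩⟩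
  exact this ▸ h2 _ a2

/-- values of names of sets of points -/
def Sp.val2 (w : World P) (δ : (L → Set P) → Set P) : Set (Set L) :=
  {x ∈ S.K w | ∃ c, w.In c ∧ w.Hit (δ c) ∧ val w c = x}

theorem Sp.ns_val2 (δ : (L → Set P) → Set P) : S.NS fun w => S.val2 w δ :=
  S.ns_sep (Φ := fun x w => ∃ c, w.In c ∧ w.Hit (δ c) ∧ val w c = x) fun _ hx =>
    measurable_ex_in fun c => (measurable_hit _).and ((np_val c).meas_eq hx)

theorem Sp.ev_exists_val2 : ∀ᶠ w in gen P, ∀ A ⊆ S.K w, cSet (pc w) A ∈ w.M →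
    ∃ δ, w.In δ ∧ S.val2 w δ = A := S.ev_all_set fun A hA => by
  filter_upwards [S.ev_exists_val,
    ev_const (T := (L → Set P) → Set P) fun c => {p | Sem p fun w => val w c ∈ A w},
    ev_all fun c => ev_hit_sem (hA.2 _ (np_val c))] with w h1 h2 h3
  refine ⟨_, h2, Subset.antisymm ?_ fun x hx => ?_⟩
  · rintro x ⟨-, c, a1, a2, rfl⟩
    exact (h3 c a1).1 a2
  · obtain ⟨c, a1, rfl⟩ := h1 x (hA.1 w hx)
    exact ⟨hA.1 w hx, c, a1, (h3 c a1).2 hx, rfl⟩

end Pool.Agent.P.MP_b49e67_gt.CC
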