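import Pool.Agent.P.MP_b49e67_gt.ConDefs

namespace Pool.Agent.P.MP_b49e67_gt

open Pool.Agent.P.MP_6e1b89_gt

/-- every family in `M` of pairwise disjoint nonempty open sets is listed by a sequence in `M` -/
def CccIn (M : Set ZFSet.{0}) {X : Type} (c : X → ZFSet.{0}) (𝒯 : Set (Set X)) : Prop :=
  ∀ 𝒰 ⊆ 𝒯, cSet (cSet c) 𝒰 ∈ M → (∀ U ∈ 𝒰, U.Nonempty) → 𝒰.Pairwise Disjoint →
    ∃ s : ℕ → Set X, cFun cNat (cSet c) Set.univ s ∈ M ∧ 𝒰 ⊆ Set.range s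

end Pool.Agent.P.MP_b49e67_gt
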