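import Pool.Agent.P.MP_b49e67_gt.Ult

/-!
Adding many Cohen reals: supports, reflection, and the generic graph.
-/

open Set Filter Function Cardinal Pool.Agent.Lib.Helper87

namespace Pool.Agent.P.MP_b49e67_gt.CC

/-- finite conditions -/
def Fn (D : Type) : Type := {s : Finset (D × Bool) // ∀ a b, (a, b) ∈ s → (a, !b) ∉ s}

section
variable {D : Type}

instance : Preorder (Fn D) where
  le q p := p.1 ⊆ q.1
  le_refl _ := Subset.rfl
  le_trans _ _ _ h1 h2 := h2.trans h1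

instance : Nonempty (Fn D) := ⟨⟨∅, by simp⟩⟩

/-- the generic bits -/
def gb (d : D) (w : World (Fn D)) : Prop := w.Frc fun p => (d, true) ∈ p.1

theorem meas_gb (d : D) : Measurable (gb d) := measurable_frc fun _ _ h h' => h h'

theorem ev_gb : ∀ᶠ w in gen (Fn D), ∀ q, w.Has q → ∀ d b, (d, b) ∈ q.1 → (gb d w ↔ b = true) := by
  filter_upwards [ev_generic] with w hw q ⟨r, h1, h2⟩ d b h3
  cases b
  · refine iff_of_false (fun ⟨s, a1, a2⟩ => ?_) (by simp)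
    obtain ⟨u, -, c1, c2⟩ := hw.dir r h1 s a1
    exact u.2 d true (c2 a2) (c1 (h2 h3))
  · exact iff_of_true ⟨r, h1, h2 h3⟩ rfl

theorem exists_un (p q : Fn D) (h : ∀ a b, (a, b) ∈ p.1 → (a, !b) ∉ q.1) :
    ∃ r, (r ≤ p ∧ r ≤ q) ∧ ∀ z ∈ r.1, z ∈ p.1 ∨ z ∈ q.1 := by
  classical
  refine ⟨⟨p.1 ∪ q.1, fun a b f1 f2 => ?_⟩,
    ⟨Finset.subset_union_left, Finset.subset_union_right⟩, fun _ => Finset.mem_union.1⟩
  rcases Finset.mem_union.1 f1 with f1 | f1 <;> rcases Finset.mem_union.1 f2 with f2 | f2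
  exacts [p.2 a b f1 f2, h a b f1 f2, h a (!b) f2 (by simpa using f1), q.2 a b f1 f2]

theorem exists_ov (q : Fn D) {E : Set D} (hE : E.Finite) (v : D → Bool) :
    ∃ r : Fn D, (∀ d ∈ E, (d, v d) ∈ r.1) ∧ ∀ z ∈ q.1, z.1 ∉ E → z ∈ r.1 := by
  classical
  obtain ⟨r, ⟨h1, h2⟩, -⟩ := exists_un (D := D) ⟨hE.toFinset.image fun d => (d, v d), by simp⟩
    ⟨q.1.filter fun z => z.1 ∉ E, fun a b d1 d2 =>
      q.2 a b (Finset.mem_filter.1 d1).1 (Finset.mem_filter.1 d2).1⟩ fun a b d1 d2 =>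
    (Finset.mem_filter.1 d2).2 (by
      obtain ⟨d, c1, c2⟩ := Finset.mem_image.1 d1
      exact (Prod.mk.inj c2).1 ▸ hE.mem_toFinset.1 c1)
  exact ⟨r, fun d hd => h1 (Finset.mem_image_of_mem _ (hE.mem_toFinset.2 hd)),
    fun z a b => h2 (Finset.mem_filter.2 ⟨a, b⟩)⟩

theorem ev_in_fn : ∀ᶠ w in gen (Fn D), ∀ q : Fn D, w.In q ↔ ∀ z ∈ q.1, w.In z.1 := by
  filter_upwards [ev_in_subtype fun s : Finset (D × Bool) => ∀ a b, (a, b) ∈ s → (a, !b) ∉ s,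
    ev_in_fin (D × Bool), ev_in_prod D Bool, ev_ctype Bool] with w h1 h2 h3 h4 q
  exact (h1 q).trans (by simp only [h2, h3, h4, and_true])

theorem exists_res (q : Fn D) (A : D → Prop) : ∃ c : Fn D, q ≤ c ∧ (∀ z ∈ c.1, A z.1) ∧
    (∀ z ∈ q.1, A z.1 → z ∈ c.1) ∧ ∀ p ≤ c, (∀ z ∈ p.1, A z.1) → ∃ r, r ≤ q ∧ r ≤ p := by
  classical
  refine ⟨⟨q.1.filter fun z => A z.1, fun a b d1 d2 =>
    q.2 a b (Finset.mem_filter.1 d1).1 (Finset.mem_filter.1 d2).1⟩, Finset.filter_subset _ _,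
    fun z h => (Finset.mem_filter.1 h).2, fun z a b => Finset.mem_filter.2 ⟨a, b⟩,
    fun p h1 h2 => (exists_un q p fun a b f1 f2 =>
      p.2 a b (h1 (Finset.mem_filter.2 ⟨f1, h2 (a, !b) f2⟩)) f2).imp fun _ => And.left⟩

theorem exists_supp {κ : Type} [Countable κ] {Φ : κ → World (Fn D) → Prop}
    (h : ∀ k, Measurable (Φ k)) : ∃ S : Set D, S.Countable ∧
      ∀ k (q r : Fn D), Sem q (Φ k) → (∀ z ∈ q.1, z.1 ∈ S → z ∈ r.1) → Sem r (Φ k) := by
  obtain ⟨w, h1, h2, h3⟩ := ((ev_of_club (P := Fn D) club_countable).and (ev_in_fn.and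
    (ev_call fun k => ev_all fun c : Fn D =>
      ev_skolem fun r => r ≤ c ∧ Sem r fun w => ¬ Φ k w))).exists
  refine ⟨{d | w.In d}, countable_emb_mem h1, fun k q r hq hr => ?_⟩
  obtain ⟨c, a1, a2, -, a4⟩ := exists_res q fun d => w.In d
  refine Sem.mono (p := c) (by_contra fun hc => ?_) fun z hz => hr z (a1 hz) (a2 z hz)
  obtain ⟨r', d1, d2, d3⟩ := h3 k c ((h2 c).2 a2) (exists_sem (h k).not (by simpa using hc))
  obtain ⟨s, b1, b2⟩ := a4 r' d2 ((h2 r').1 d1)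
  exact (hq.mono b1).not_not (d3.mono b2)

theorem flip {C : World (Fn D) → Set ℕ} (hC : MS C) {d : D} {p : Fn D} (hp : ∀ b, (d, b) ∉ p.1)
    (hd : ∀ k (q r : Fn D), Sem q (fun w => k ∈ C w) → (∀ z ∈ q.1, z.1 ≠ d → z ∈ r.1) →
      Sem r fun w => k ∈ C w) : ¬ Sem p fun w => (C w).Infinite ↔ gb d w := fun H => by
  have ne : ∀ z ∈ p.1, z.1 ≠ d := fun z a b => hp z.2 (b ▸ a)
  obtain ⟨q0, a1, a2⟩ := exists_ov p (finite_singleton d) fun _ => false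
  obtain ⟨q1, b1, m, b2⟩ := Sem.ex (p := q0) (Φ := fun (m : ℕ) w => ∀ k, k ∈ C w → k ≤ m)
    (fun m => Measurable.forall fun k => (hC k).imp measurable_const)
    (((H.mono fun z h => a2 z h (ne z h)).and (sem_has q0)).imp (ev_gb.mono fun w h1 h2 =>
      (not_infinite.1 fun c => by simpa using (h1 _ h2.2 d _ (a1 d rfl)).1 (h2.1.1 c)).bddAbove))
  obtain ⟨q2, c1, c2⟩ := exists_ov q1 (finite_singleton d) fun _ => true
  obtain ⟨q3, d1, k, d2⟩ := Sem.ex (p := q2) (Φ := fun (k : ℕ) w => k ∈ C w ∧ m < k)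
    (fun k => (hC k).and measurable_const)
    (((H.mono fun z h => c2 z (b1 (a2 z h (ne z h))) (ne z h)).and (sem_has q2)).imp
      (ev_gb.mono fun w h1 h2 =>
        infinite_iff_exists_gt.1 (h2.1.2 ((h1 _ h2.2 d _ (c1 d rfl)).2 rfl)) m))
  obtain ⟨r, e1, e2⟩ := exists_ov q3 (finite_singleton d) fun _ => false
  have e3 : r ≤ q1 := fun ⟨x, b⟩ h => by
    by_cases e : x = d
    · subst e
      cases b
      exacts [e1 x rfl, absurd (b1 (a1 x rfl)) (q1.2 x true h)]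
    · exact e2 _ (d1 (c2 _ h e)) e
  obtain ⟨_, -, f1, -⟩ := d2.exists (Eventually.of_forall fun _ => trivial)
  obtain ⟨w, -, f2, -⟩ := ((b2.mono e3).and (hd k q3 r (d2.imp' fun _ h => h.1) e2)).exists
    (Eventually.of_forall fun _ => trivial)
  exact (f2.1 k f2.2).not_gt f1.2

end

/-- the index set -/
abbrev La : Type := Set (Set ℕ)

/-- labels -/
abbrev Lb : Type := La ⊕ ℕ × ℕ

/-- the forcing -/
abbrev PP : Type := Fn (La × Lb)

theorem exists_free (f : La → Set La) (hf : ∀ a, (f a).Countable) :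
    ∃ a b, a ≠ b ∧ a ∉ f b ∧ b ∉ f a := by
  have h1 : ∃ b, b ∉ ⋃ X : Set ℕ, insert {X} (f {X}) := by
    by_contra hc
    push Not at hc
    have := mk_iUnion_le fun X : Set ℕ => insert {X} (f {X})
    rw [eq_univ_of_forall hc, mk_univ, mk_set, mk_set, mk_nat, two_power_aleph0] at this
    exact (cantor _).not_ge (this.trans (mul_le_of_le aleph0_le_continuum le_rfl
      (ciSup_le' fun X => (((hf _).insert _).le_aleph0).trans aleph0_le_continuum)))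
  obtain ⟨b, hb⟩ := h1
  have h2 : ∃ X : Set ℕ, {X} ∉ f b := by
    by_contra hc
    push Not at hc
    have := (hf b).preimage singleton_injective
    rw [eq_univ_of_forall (s := _ ⁻¹' _) hc, ← le_aleph0_iff_set_countable, mk_univ, mk_set,
      mk_nat] at this
    exact (cantor _).not_ge this
  obtain ⟨X, hX⟩ := h2
  exact ⟨{X}, b, fun e => hb (mem_iUnion.2 ⟨X, Or.inl e.symm⟩), hX,
    fun e => hb (mem_iUnion.2 ⟨X, Or.inr e⟩)⟩

theorem no_rep {A : La → World PP → Set ℕ} (hA : ∀ a, MS (A a)) (p : PP) :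
    ¬ ∀ a b, a ≠ b → Sem p fun w =>
      (A a w ∩ A b w).Infinite ↔ gb (a, .inl b) w ∧ gb (b, .inl a) w := fun H => by
  choose S h1 h2 using fun a => exists_supp (hA a)
  let S' : La → Set (La × Lb) := fun a => S a ∪ Prod.fst '' (p.1 : Set ((La × Lb) × Bool))
  have h3 : ∀ a, (S' a).Countable := fun a => (h1 a).union (p.1.countable_toSet.image _)
  obtain ⟨a, b, a1, a2, a3⟩ := exists_free
    (fun a => (fun b => (a, Sum.inl b)) ⁻¹' S' a ∪ (fun b => (b, Sum.inl a)) ⁻¹' S' a)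
    fun a => ((h3 a).preimage fun _ _ h => by simpa using h).union
      ((h3 a).preimage fun _ _ h => by simpa using h)
  obtain ⟨q, ⟨b1, b2⟩, b3⟩ := exists_un (D := La × Lb) p ⟨{((b, .inl a), true)}, by simp⟩
    fun x i c1 c2 => a3 (Or.inr (Or.inr ⟨_, c1, (Prod.mk.inj (Finset.mem_singleton.1 c2)).1⟩))
  refine flip ((hA a).inter (hA b)) (d := (a, .inl b)) (p := q) (fun i c => (b3 _ c).elim
    (fun c => a3 (Or.inl (Or.inr ⟨_, c, rfl⟩))) fun c => a1 (by simp_all)) (fun k r r' c1 c2 =>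
      (h2 a k r r' (c1.imp' fun _ h => h.1) fun z d1 d2 => c2 z d1 fun e =>
        a3 (Or.inl (Or.inl (e.subst (motive := (· ∈ S a)) d2)))).and (h2 b k r r' (c1.imp' fun _ h => h.2) fun z d1 d2 =>
          c2 z d1 fun e => a2 (Or.inr (Or.inl (e.subst (motive := (· ∈ S b)) d2)))))
    ((((H a b a1).mono b1).and (sem_has q)).imp (ev_gb.mono fun w c1 c2 => c2.1.trans
      (and_iff_left ((c1 q c2.2 _ _ (b2 (Finset.mem_singleton_self _))).2 rfl))))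

theorem exists_agree {y : ℕ × ℕ → World PP → Prop} (hy : ∀ k, Measurable (y k)) :
    ∃ S : Set La, S.Countable ∧ ∀ a ∉ S, ∀ᶠ w in gen PP,
      ∃ n, ∀ i ≤ n + 1, (gb (a, .inr (n, i)) w ↔ y (n, i) w) := by
  classical
  have hm : ∀ k : ℕ × Finset ℕ, Measurable fun w => ∀ i ≤ k.1 + 1, (y (k.1, i) w ↔ i ∈ k.2) :=
    fun k => Measurable.forall fun i => measurable_const.imp ((hy _).iff measurable_const)
  obtain ⟨S, h1, h2⟩ := exists_supp hm
  refine ⟨Prod.fst '' S, h1.image _, fun a ha => ev_of_dense fun q => ?_⟩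
  obtain ⟨n, hn⟩ := (q.1.finite_toSet.image fun z => z.1.2.elim (fun _ => 0) Prod.fst).exists_notMem
  obtain ⟨q', a1, v, a2⟩ := Sem.ex (p := q) (fun v => hm (n, v))
    (sem_of_ev (Eventually.of_forall fun w =>
      ⟨(Finset.range (n + 2)).filter fun i => y (n, i) w, fun i hi => by simp; omega⟩) q)
  obtain ⟨r, b1, b2⟩ := exists_ov q' ((finite_Iic (n + 1)).image fun i => (a, .inr (n, i)))
    fun d => decide (d.2.elim (fun _ => 0) Prod.snd ∈ v)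
  refine ⟨r, fun z hz => b2 z (a1 hz) fun ⟨i, _, e⟩ => hn ⟨z, hz, by simp [← e]⟩,
    ((h2 (n, v) q' r a2 fun z c1 c2 => b2 z c1 fun ⟨i, _, e⟩ =>
      ha ⟨_, c2, by simp [← e]⟩).and (sem_has r)).imp (ev_gb.mono fun w c1 c2 =>
        ⟨n, fun i hi => ?_⟩)⟩
  rw [c2.1 i hi, c1 r c2.2 _ _ (b1 _ ⟨i, hi, rfl⟩)]
  simp

theorem exists_reflect {κ : Type} [Countable κ] (T : PP → Finset La → Finset La → κ → Prop) :
    ∃ A : Set (Finset La × Finset La × κ), A.Countable ∧ ∀ q s t k, T q s t k →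
      ∃ p s' t', (s', t', k) ∈ A ∧ T p s' t' k ∧ (∀ a ∈ s', a ∈ t → a ∈ t') ∧
        (∀ a ∈ t', a ∈ s → a ∈ s') ∧ ∃ r ≤ q, r ≤ p ∧ ∀ a ∈ s, a ∉ s' → ∀ b ∈ s', b ∉ s →
          ((a, .inl b), true) ∈ r.1 ∧ ((b, .inl a), true) ∈ r.1 := by
  classical
  obtain ⟨w, h1, h2, h3, h4, h5, h6, h7, h9⟩ := ((ev_of_club (P := PP) club_countable).and
    (ev_in_fn.and ((ev_in_fin La).and ((ev_in_prod La Lb).and ((ev_in_sum La (ℕ × ℕ)).and
    ((ev_in_prod PP (Finset La × Finset La)).and ((ev_in_prod (Finset La) (Finset La)).and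
    (ev_all fun c : PP => ev_all fun F : Finset La => ev_all fun s : Finset La =>
      ev_all fun t : Finset La => ev_call fun k : κ =>
      ev_skolem fun x : PP × Finset La × Finset La => x.1 ≤ c ∧ T x.1 x.2.1 x.2.2 k ∧
        (∀ b ∈ F, b ∈ x.2.1 → b ∈ s) ∧ s ⊆ x.2.1 ∧ t ⊆ x.2.2)))))))).exists
  refine ⟨{s | w.In s} ×ˢ {t | w.In t} ×ˢ Set.univ, (countable_emb_mem h1).prod
    ((countable_emb_mem h1).prod countable_univ), fun q s t k hT => ?_⟩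
  obtain ⟨c, a1, a2, -, a4⟩ := exists_res q fun d => w.In d
  let F : Finset La := s ∪ q.1.image (fun z => z.1.1) ∪ q.1.image fun z => z.1.2.elim id fun _ => ∅
  have hf : ∀ E : Finset La, w.In (E.filter fun a => w.In a) := fun E =>
    (h3 _).2 fun a h => (Finset.mem_filter.1 h).2
  obtain ⟨⟨p, s', t'⟩, b1, b2, b3, b4, b5, b6⟩ := h9 c ((h2 c).2 a2) _ (hf F) _ (hf s) _ (hf t) k
    ⟨(q, s, t), a1, hT, fun b d1 d2 => Finset.mem_filter.2 ⟨d2, (Finset.mem_filter.1 d1).2⟩,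
      Finset.filter_subset _ _, Finset.filter_subset _ _⟩
  rw [h6, h7] at b1
  obtain ⟨u, c1, c2⟩ := a4 p b2 ((h2 p).1 b1.1)
  have c3 : ∀ a ∈ s, w.In a → a ∈ s' := fun a d1 d2 => b5 (Finset.mem_filter.2 ⟨d1, d2⟩)
  have c4 := (h3 s').1 b1.2.1
  have c5 : ∀ b ∈ s', b ∈ F → b ∈ s := fun b d1 d2 =>
    (Finset.mem_filter.1 (b4 b (Finset.mem_filter.2 ⟨d2, c4 b d1⟩) d1)).1
  have hX := (s \ s').finite_toSet.prod (s' \ s).finite_toSet
  obtain ⟨r, d1, d2⟩ := exists_ov u ((hX.image fun x => (x.1, .inl x.2)).union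
    (hX.image fun x => (x.2, .inl x.1))) fun _ => true
  refine ⟨p, s', t', ⟨b1.2.1, b1.2.2, trivial⟩, b3,
    fun a e1 e2 => b6 (Finset.mem_filter.2 ⟨e2, c4 a e1⟩),
    fun a e1 e2 => c3 a e2 ((h3 t').1 b1.2.2 a e1), r, fun z hz => d2 z (c1 hz) ?_,
    fun z hz => d2 z (c2 hz) ?_, fun a e1 e2 b e3 e4 => ?_⟩
  · rintro (⟨x, e1, e2⟩ | ⟨x, e1, e2⟩) <;>
      refine (Finset.mem_sdiff.1 e1.2).2 (c5 _ (Finset.mem_sdiff.1 e1.2).1 ?_)
    · exact Finset.mem_union_right _ (Finset.mem_image.2 ⟨z, hz, by simp [← e2]⟩)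
    · exact Finset.mem_union_left _
        (Finset.mem_union_right _ (Finset.mem_image.2 ⟨z, hz, by simp [← e2]⟩))
  · have := (h4 _).1 ((h2 p).1 b1.1 z hz)
    rintro (⟨x, e1, e2⟩ | ⟨x, e1, e2⟩) <;> rw [← e2] at this <;>
      refine (Finset.mem_sdiff.1 e1.1).2 (c3 _ (Finset.mem_sdiff.1 e1.1).1 ?_)
    exacts [this.1, (h5.1 _).1 this.2]
  · have : (a, b) ∈ ((s \ s' : Finset La) : Set La) ×ˢ ((s' \ s : Finset La) : Set La) :=
      ⟨Finset.mem_sdiff.2 ⟨e1, e2⟩, Finset.mem_sdiff.2 ⟨e3, e4⟩⟩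
    exact ⟨d1 _ (Or.inl ⟨_, this, rfl⟩), d1 _ (Or.inr ⟨_, this, rfl⟩)⟩

end Pool.Agent.P.MP_b49e67_gt.CC
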