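import Pool.Agent.P.MP_b49e67_gt.CCTop
import Pool.Agent.P.MP_b49e67_gt.CCForce

/-!
The space of cliques which avoid a real.
-/

open Set Filter Pool.Agent.Lib.Helper87 Pool.Agent.P.MP_6e1b89_gt
open Pool.Agent.P.MP_c9188c_gt (HausdorffIn CompactIn)

namespace Pool.Agent.P.MP_b49e67_gt.CC

theorem ev_lb : ∀ᶠ w in gen PP, (∀ a, w.In (.inl a : Lb) ↔ w.In a) ∧ ∀ k, w.In (.inr k : Lb) := by
  filter_upwards [ev_in_sum La (ℕ × ℕ), ev_ctype (ℕ × ℕ)] with w h1 h2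
  exact ⟨h1.1, fun k => (h1.2 k).2 (h2 k)⟩

/-- the space -/
def SS : Sp PP Lb where
  con z w := (∀ a b, .inl a ∈ z → .inl b ∈ z → a ≠ b → gb (a, .inl b) w) ∧
    ∀ a, .inl a ∈ z → ∀ n, ∃ i ≤ n + 1, ¬ (gb (a, .inr (n, i)) w ↔ .inr (n, i) ∈ z)
  meas x hx := ((measurable_all_in fun a => measurable_all_in fun b => (hx.1 (.inl a)).imp
      ((hx.1 (.inl b)).imp ((measurable_const (a := a ≠ b)).imp (meas_gb (a, Sum.inl b))))).and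
    (measurable_all_in fun a => (hx.1 (.inl a)).imp (Measurable.forall fun n =>
      Measurable.exists fun i => (measurable_const (a := i ≤ n + 1)).and
        ((meas_gb (a, Sum.inr (n, i))).iff (hx.1 (.inr (n, i)))).not))).congr_ev
    ((hx.2.and ev_lb).mono fun _ h => ⟨fun c => ⟨fun a _ b _ => c.1 a b, fun a _ => c.2 a⟩,
      fun c => ⟨fun a b d e => c.1 a ((h.2.1 a).1 (h.1 _ d)) b ((h.2.1 b).1 (h.1 _ e)) d e,
        fun a d => c.2 a ((h.2.1 a).1 (h.1 _ d)) d⟩⟩)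
  closed w x h := by
    classical
    refine ⟨fun a b c d => ?_, fun a c n => ?_⟩
    · obtain ⟨y, h1, h2⟩ := h {.inl a, .inl b}
      exact h1.1 a b ((h2 _ (by simp)).2 c) ((h2 _ (by simp)).2 d)
    · obtain ⟨y, h1, h2⟩ := h (insert (.inl a) ((Finset.range (n + 2)).image fun i => .inr (n, i)))
      obtain ⟨i, h3, h4⟩ := h1.2 a ((h2 _ (by simp)).2 c) n
      exact ⟨i, h3, by rwa [← h2 _ (by simp; omega)]⟩

theorem ev_pt (s : Finset La) (m : ℕ) (σ : Finset (ℕ × ℕ)) (hs : s.card ≤ m + 2) :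
    ∀ᶠ w in gen PP, (∀ a ∈ s, ∀ b ∈ s, a ≠ b → gb (a, .inl b) w) →
      (∀ a ∈ s, ∀ n < m, ∃ i ≤ n + 1, ¬ (gb (a, .inr (n, i)) w ↔ (n, i) ∈ σ)) →
      ∃ z ∈ SS.K w, (∀ a, .inl a ∈ z ↔ a ∈ s) ∧ ∀ n < m, ∀ i, (.inr (n, i) ∈ z ↔ (n, i) ∈ σ) := by
  obtain ⟨e, he⟩ : ∃ e : ℕ → La, ∀ a ∈ s, ∃ i < s.card, e i = a :=
    ⟨fun i => s.toList.getD i ∅, fun a ha => by
      obtain ⟨i, h1, h2⟩ := List.mem_iff_getElem.1 (Finset.mem_toList.2 ha)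
      exact ⟨i, by simpa using h1, (List.getD_eq_getElem _ _ h1).trans h2⟩⟩
  let z : World PP → Set Lb := fun w =>
    {l | l.elim (· ∈ s) fun k => k.1 < m ∧ k ∈ σ ∨ m ≤ k.1 ∧ ¬ gb (e k.2, .inr k) w}
  have hz : NP z := ⟨by
      rintro (a | k)
      exacts [measurable_const, measurable_const.or (measurable_const.and (meas_gb _).not)], by
    filter_upwards [ev_lb, ev_countable_set s.countable_toSet] with w h1 h2
    rintro (a | k) h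
    exacts [(h1.1 a).2 (h2 a h), h1.2 k]⟩
  have h0 : ∀ w n i, n < m → (.inr (n, i) ∈ z w ↔ (n, i) ∈ σ) := fun w n i h =>
    ⟨fun c => (c.resolve_right fun d => d.1.not_gt h).2, fun c => Or.inl ⟨h, c⟩⟩
  filter_upwards [hz.2, hz.named.ev_mem] with w h1 h2 h3 h4
  refine ⟨z w, ⟨h1, ⟨fun a b c d => h3 a c b d, fun a c n => ?_⟩, h2⟩, fun _ => Iff.rfl,
    fun n h i => h0 w n i h⟩
  rcases lt_or_ge n m with h | h
  · simpa only [h0 w n _ h] using h4 a c n h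
  · obtain ⟨i, h5, rfl⟩ := he a c
    refine ⟨i, by omega, fun d => ?_⟩
    have : .inr (n, i) ∈ z w ↔ ¬ gb (e i, .inr (n, i)) w :=
      ⟨fun c => (c.resolve_left fun d => d.1.not_ge h).2, fun c => Or.inr ⟨h, c⟩⟩
    exact iff_not_self (d.trans this)

theorem ev_first : ∀ᶠ w in gen PP, ∀ x ∈ SS.K w, x ∈ SS.K w → ∃ s : ℕ → Set (Set Lb),
    cFun cNat (cSet (pc w)) univ s ∈ w.M ∧ (∀ k, s k ∈ SS.TT w ∧ x ∈ s k) ∧
      ∀ U ∈ SS.TT w, x ∈ U → ∃ k, s k ⊆ U := by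
  classical
  refine SS.ev_allK fun x hx => ?_
  obtain ⟨A, h1, h2⟩ := exists_agree (y := fun k w => .inr k ∈ x w) fun k => hx.1 _
  have h3 : (Sum.inl '' A ∪ range Sum.inr : Set Lb).Countable :=
    (h1.image _).union (countable_range _)
  obtain ⟨φ, hφ⟩ := ((countable_ofPred_finite_subset h3).preimage
    Finset.coe_injective).exists_eq_range ⟨∅, by simp⟩
  filter_upwards [ev_lb, ev_all fun a => ev_imp (h2 a),
    ev_call fun k => (SS.ns_nb hx (φ k)).ev_mem, (named_cSeq (e := fun w => cSet (pc w))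
      fun k => (SS.ns_nb hx (φ k)).named).ev_mem] with w a1 a2 a3 a4 a5
  refine ⟨_, a4, fun k => ⟨SS.nb_mem (a3 k), a5, fun _ _ => Iff.rfl⟩, fun U hU a6 => ?_⟩
  have key : ∀ l, ∃ E : Finset Lb, ↑E ⊆ (Sum.inl '' A ∪ range Sum.inr : Set Lb) ∧
      ∀ y ∈ SS.Nb w (x w) E, (l ∈ y ↔ l ∈ x w) := fun l => by
    by_cases c : l ∈ (Sum.inl '' A ∪ range Sum.inr : Set Lb)
    · exact ⟨{l}, by simpa using c, fun y hy => hy.2 l (by simp)⟩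
    obtain a | k := l
    swap
    · exact absurd (Or.inr ⟨k, rfl⟩) c
    by_cases d : w.In a
    · obtain ⟨n, hn⟩ := a2 a d fun e => c (Or.inl ⟨a, e, rfl⟩)
      have : ∀ y ∈ SS.Nb w (x w) ((Finset.range (n + 2)).image fun i => .inr (n, i)),
          .inl a ∉ y := fun y hy e => by
        obtain ⟨i, b1, b2⟩ := hy.1.2.1.2 a e n
        exact b2 ((hn i b1).trans (hy.2 _ (by simp; omega)).symm)
      exact ⟨_, fun l hl => by
        obtain ⟨i, -, rfl⟩ := Finset.mem_image.1 hl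
        exact Or.inr ⟨_, rfl⟩, fun y hy =>
        iff_of_false (this y hy) (this _ ⟨a5, fun _ _ => Iff.rfl⟩)⟩
    · exact ⟨∅, by simp, fun y hy => iff_of_false (fun e => d ((a1.1 a).1 (hy.1.1 _ e)))
        fun e => d ((a1.1 a).1 (a5.1 _ e))⟩
  choose E b1 b2 using key
  obtain ⟨F, b3⟩ := hU.2.2 _ a6
  obtain ⟨k, hk⟩ : F.biUnion E ∈ range φ := hφ ▸ ⟨Finset.finite_toSet _, by simp [b1]⟩
  exact ⟨k, fun y hy => b3 ⟨hy.1, fun l hl => b2 l y ⟨hy.1, fun j hj =>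
    hy.2 j (hk ▸ Finset.mem_biUnion.2 ⟨l, hl, hj⟩)⟩⟩⟩

/-- basic sets -/
def BB (w : World PP) (b : Finset La × Finset La × ℕ × Finset (ℕ × ℕ)) : Set (Set Lb) :=
  {y ∈ SS.K w | (∀ a ∈ b.1, .inl a ∈ y) ∧ (∀ a ∈ b.2.1, .inl a ∉ y) ∧
    ∀ n < b.2.2.1, ∀ i ≤ b.2.2.1, (.inr (n, i) ∈ y ↔ (n, i) ∈ b.2.2.2)}

theorem ns_BB (b : Finset La × Finset La × ℕ × Finset (ℕ × ℕ)) : SS.NS fun w => BB w b :=
  SS.ns_sep (Φ := fun y _ => (∀ a ∈ b.1, Sum.inl a ∈ y) ∧ (∀ a ∈ b.2.1, Sum.inl a ∉ y) ∧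
    ∀ n < b.2.2.1, ∀ i ≤ b.2.2.1, (Sum.inr (n, i) ∈ y ↔ (n, i) ∈ b.2.2.2)) fun _ hy =>
    (meas_fin _ fun _ => hy.1 _).and ((meas_fin _ fun _ => (hy.1 _).not).and
      (Measurable.forall fun _ => measurable_const.imp (Measurable.forall fun _ =>
        measurable_const.imp ((hy.1 _).iff measurable_const))))

theorem exists_meet {Ψ : Finset La × Finset La × ℕ × Finset (ℕ × ℕ) → World PP → Prop}
    (hΨ : ∀ b, Measurable (Ψ b)) (h0 : ∀ b w, Ψ b w → (BB w b).Nonempty) :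
    ∃ e : ℕ → Finset La × Finset La × ℕ × Finset (ℕ × ℕ), ∀ b, 2 * b.1.card ≤ b.2.2.1 + 2 →
      ∀ᶠ w in gen PP, Ψ b w → ∃ n, Ψ (e n) w ∧ (BB w b ∩ BB w (e n)).Nonempty := by
  classical
  obtain ⟨A, h1, h2⟩ := exists_reflect fun q s t (k : ℕ × Finset (ℕ × ℕ)) =>
    2 * s.card ≤ k.1 + 2 ∧ Sem q (Ψ (s, t, k))
  obtain ⟨e, he⟩ := (h1.insert default).exists_eq_range (insert_nonempty _ _)
  refine ⟨e, fun ⟨s, t, m, σ⟩ hb => ?_⟩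
  filter_upwards [ev_forced (hΨ (s, t, m, σ)),
    ev_sem fun w => ∃ n, Ψ (e n) w ∧ (BB w (s, t, m, σ) ∩ BB w (e n)).Nonempty] with w a1 a2 a3
  obtain ⟨p, a4, a5⟩ := a1 a3
  refine a2 p (w.has_of_mem a4) (sem_of_dense fun q hq => ?_)
  obtain ⟨p', s', t', b1, ⟨b2, b3⟩, b4, b5, r, b6, b7, b8⟩ := h2 q s t (m, σ) ⟨hb, a5.mono hq⟩
  obtain ⟨n, hn⟩ : _ ∈ range e := he ▸ mem_insert_of_mem _ b1
  refine ⟨r, b6, (((a5.mono (b6.trans hq)).and (b3.mono b7)).and (sem_has r)).imp ?_⟩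
  filter_upwards [ev_gb, ev_pt (s ∪ s') m σ ((Finset.card_union_le _ _).trans (by
    simp only at hb b2; omega))] with w c1 c2 ⟨⟨c3, c4⟩, c5⟩
  obtain ⟨x, d1, d2, d3, d4⟩ := h0 _ _ c3
  obtain ⟨y, e1, e2, e3, e4⟩ := h0 _ _ c4
  obtain ⟨z, f1, f2, f3⟩ := c2 (fun a f1 b f2 f3 => by
      by_cases g1 : a ∈ s <;> by_cases g2 : b ∈ s
      · exact d1.2.1.1 a b (d2 a g1) (d2 b g2) f3
      · have g3 := (Finset.mem_union.1 f2).resolve_left g2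
        by_cases g4 : a ∈ s'
        exacts [e1.2.1.1 a b (e2 a g4) (e2 b g3) f3, (c1 r c5 _ _ (b8 a g1 g4 b g3 g2).1).2 rfl]
      · have g3 := (Finset.mem_union.1 f1).resolve_left g1
        by_cases g4 : b ∈ s'
        exacts [e1.2.1.1 a b (e2 a g3) (e2 b g4) f3, (c1 r c5 _ _ (b8 b g2 g4 a g3 g1).2).2 rfl]
      · exact e1.2.1.1 a b (e2 a ((Finset.mem_union.1 f1).resolve_left g1))
          (e2 b ((Finset.mem_union.1 f2).resolve_left g2)) f3) fun a f1 j f2 => by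
    rcases Finset.mem_union.1 f1 with g | g
    · obtain ⟨i, g1, g2⟩ := d1.2.1.2 a (d2 a g) j
      exact ⟨i, g1, by rwa [← d4 j f2 i (g1.trans f2)]⟩
    · obtain ⟨i, g1, g2⟩ := e1.2.1.2 a (e2 a g) j
      exact ⟨i, g1, by rwa [← e4 j f2 i (g1.trans f2)]⟩
  rw [← hn] at c4
  refine ⟨n, c4, z, ⟨f1, fun a g => (f2 a).2 (Finset.mem_union_left _ g), fun a g g' => ?_,
    fun j g i _ => f3 j g i⟩, hn ▸ ⟨f1, fun a g => (f2 a).2 (Finset.mem_union_right _ g),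
      fun a g g' => ?_, fun j g i _ => f3 j g i⟩⟩ <;>
    rcases Finset.mem_union.1 ((f2 a).1 g') with g1 | g1
  exacts [d3 a g (d2 a g1), e3 a (b4 a g1 g) (e2 a g1), e3 a g (e2 a (b5 a g g1)),
    e3 a g (e2 a g1)]

theorem ev_ccc : ∀ᶠ w in gen PP, ∀ 𝒰 ⊆ SS.TT w, cSet (cSet (pc w)) 𝒰 ∈ w.M →
    𝒰.Pairwise Disjoint → (∀ U ∈ 𝒰, U.Nonempty) → ∃ s : ℕ → Set (Set Lb),
      cFun cNat (cSet (pc w)) univ s ∈ w.M ∧ (∀ k, s k ⊆ SS.K w) ∧ 𝒰 ⊆ range s := by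
  classical
  suffices h : ∀ᶠ w in gen PP, ∀ z ∈ w.M, ∀ 𝒰 ⊆ SS.TT w, cSet (cSet (pc w)) 𝒰 = z →
      𝒰.Pairwise Disjoint → (∀ U ∈ 𝒰, U.Nonempty) → ∃ s : ℕ → Set (Set Lb),
      cFun cNat (cSet (pc w)) univ s ∈ w.M ∧ (∀ k, s k ⊆ SS.K w) ∧ 𝒰 ⊆ range s from
    h.mono fun w hw 𝒰 a1 a2 => hw _ a2 𝒰 a1 rfl
  refine ev_all_named fun z hz => ?_
  have hm : ∀ b δ, Measurable fun w => cSet (pc w) (SS.val2 w δ) ∈ z w ∧ BB w b ⊆ SS.val2 w δ :=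
    fun b δ => ((SS.ns_val2 δ).named.measurable_mem hz).and ((ns_BB b).meas_subset (SS.ns_val2 δ))
  obtain ⟨e, he⟩ := exists_meet (fun b => (ns_BB b).meas_ne.and (measurable_ex_in (hm b)))
    fun _ _ h => h.1
  have hs : ∀ n, SS.NS fun w => {x ∈ SS.K w | ∃ δ, w.In δ ∧ (cSet (pc w) (SS.val2 w δ) ∈ z w ∧
      BB w (e n) ⊆ SS.val2 w δ) ∧ x ∈ SS.val2 w δ} := fun n =>
    SS.ns_sep (Φ := fun x w => ∃ δ, w.In δ ∧ (cSet (pc w) (SS.val2 w δ) ∈ z w ∧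
      BB w (e n) ⊆ SS.val2 w δ) ∧ x ∈ SS.val2 w δ) fun x hx =>
      measurable_ex_in fun δ => (hm _ δ).and ((SS.ns_val2 δ).2 x hx)
  filter_upwards [(named_cSeq (e := fun w => cSet (pc w)) fun k => (hs k).named).ev_mem, ev_lb,
    ev_all_finset fun s => ev_all_finset fun t => ev_call fun k => ev_imp (he (s, t, k)),
    SS.ev_exists_val2] with w h1 h2 h3 h4 𝒰 a1 a2 a3 a4
  refine ⟨_, h1, fun k => sep_subset _ _, fun U hU => ?_⟩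
  have a5 : ∀ δ, cSet (pc w) (SS.val2 w δ) ∈ z w ↔ SS.val2 w δ ∈ 𝒰 := fun δ =>
    a2 ▸ mem_cSet_iff (cSet_injOn (SS.pc_inj w)) (fun U hU => (a1 hU).1) (sep_subset _ _)
  obtain ⟨x, hx⟩ := a4 U hU
  have hK := (a1 hU).1 hx
  obtain ⟨F, hF⟩ := (a1 hU).2.2 x hx
  obtain ⟨δ, b1, rfl⟩ := h4 U (a1 hU).1 (a1 hU).2.1
  obtain ⟨m, hm⟩ := ((F.toRight.finite_toSet.image fun k => k.1 + k.2 + 1).insert
    (2 * F.toLeft.card)).bddAbove
  have b2 : BB w (F.toLeft.filter fun a => .inl a ∈ x, F.toLeft.filter fun a => .inl a ∉ x ∧ w.In a,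
      m, (Finset.range m ×ˢ Finset.range (m + 1)).filter fun k => .inr k ∈ x) ⊆ SS.val2 w δ :=
    fun y ⟨c1, c2, c3, c4⟩ => hF ⟨c1, by
      rintro (a | ⟨n, i⟩) c
      · exact ⟨fun d => by_contra fun d' => c3 a (Finset.mem_filter.2 ⟨Finset.mem_toLeft.2 c, d',
          (h2.1 a).1 (c1.1 _ d)⟩) d, fun d => c2 a (Finset.mem_filter.2 ⟨Finset.mem_toLeft.2 c, d⟩)⟩
      · have : n + i + 1 ≤ m := hm (Or.inr ⟨(n, i), Finset.mem_toRight.2 c, rfl⟩)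
        rw [c4 n (show n < m by omega) i (show i ≤ m by omega)]
        simp only [Finset.mem_filter, Finset.mem_product, Finset.mem_range]
        exact and_iff_right (by omega)⟩
  obtain ⟨n, ⟨-, δ', c1, c2, c3⟩, y, c4, c5⟩ := h3 _
    (fun a c => (h2.1 a).1 (hK.1 _ (Finset.mem_filter.1 c).2)) _
    (fun a c => (Finset.mem_filter.1 c).2.2) _
    (((Nat.mul_le_mul_left 2 (Finset.card_filter_le _ _)).trans (hm (mem_insert _ _))).trans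
      (Nat.le_add_right _ _))
    ⟨⟨x, hK, fun a c => (Finset.mem_filter.1 c).2, fun a c => (Finset.mem_filter.1 c).2.1,
      fun n c i d => by simpa using fun _ => ⟨c, d⟩⟩, δ, b1, (a5 δ).2 hU, b2⟩
  have b3 : ∀ δ', cSet (pc w) (SS.val2 w δ') ∈ z w → BB w (e n) ⊆ SS.val2 w δ' →
      SS.val2 w δ' = SS.val2 w δ := fun δ' d1 d2 => by_contra fun d3 =>
    Set.disjoint_left.1 (a3 ((a5 _).1 d1) hU d3) (d2 c5) (b2 c4)
  exact ⟨n, Subset.antisymm (fun v ⟨_, δ'', _, d1, d2⟩ => b3 δ'' d1.1 d1.2 ▸ d2)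
    fun v hv => ⟨hv.1, δ', c1, ⟨c2, c3⟩, (b3 δ' c2 c3).symm ▸ hv⟩⟩

theorem ev_not_image : ∀ᶠ w in gen PP, ∀ f : Set (Set ℕ) → Set Lb,
    cFun (cSet (cSet cNat)) (pc w) (StarIn w.M) f ∈ w.M → (∀ u, f u ∈ SS.K w) →
      (∀ x ∈ SS.K w, ∃ u ∈ StarIn w.M, f u = x) → ¬ ∀ U ∈ SS.TT w, ∀ u ∈ StarIn w.M, f u ∈ U →
        ∃ A ∈ u, ∀ v ∈ StarIn w.M, A ∈ v → f v ∈ U := by
  suffices h : ∀ᶠ w in gen PP, ∀ z ∈ w.M, ∀ f : Set (Set ℕ) → Set Lb,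
      cFun (cSet (cSet cNat)) (pc w) (StarIn w.M) f = z → (∀ u, f u ∈ SS.K w) →
      (∀ x ∈ SS.K w, ∃ u ∈ StarIn w.M, f u = x) → ¬ ∀ U ∈ SS.TT w, ∀ u ∈ StarIn w.M, f u ∈ U →
        ∃ A ∈ u, ∀ v ∈ StarIn w.M, A ∈ v → f v ∈ U from h.mono fun w hw f a => hw _ a f rfl
  classical
  refine ev_all_named fun z hz => ?_
  choose A h1 h2 using fun a : La => exists_rep_in
    (E := fun u w => lc w (.inl a : Lb) ∈ app (z w) (cSet (cSet cNat) u))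
    fun u hu => (named_lc _).measurable_mem (named_app hz hu)
  have h3 : ∀ᶠ w in gen PP, ¬ ∀ a, w.In a → ∀ b, w.In b → a ≠ b →
      ((A a w ∩ A b w).Infinite ↔ gb (a, .inl b) w ∧ gb (b, .inl a) w) :=
    ev_of_not_sem (measurable_all_in fun a => measurable_all_in fun b => measurable_const.imp
      (((h1 a).inter (h1 b)).meas_infinite.iff ((meas_gb _).and (meas_gb _)))).not
      fun p hp => no_rep h1 p fun a b c => hp.imp (((ev_const a).and (ev_const b)).mono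
        fun w d e => not_not.1 e a d.1 b d.2 c)
  filter_upwards [h3, ev_all h2, ev_lb, SS.ev_coord, ev_exists_star, ev_alg,
    ev_all fun a => (h1 a).ev_mem,
    ev_all fun a => ev_all fun b => ev_pt {a, b} 0 ∅ Finset.card_le_two]
    with w a1 a2 a3 a4 a5 a6 a7 a8 f b1 b2 b3 b4
  have key : ∀ a, w.In a → ∀ u ∈ StarIn w.M, (A a w ∈ u ↔ .inl a ∈ f u) := fun a ha => by
    have c1 : ∀ u ∈ StarIn w.M, (lc w (.inl a : Lb) ∈ app (z w) (cSet (cSet cNat) u) ↔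
        .inl a ∈ f u) := fun u hu => by
      rw [← b1, app_cFun (cSet_inj (cSet_inj cNat_inj)).injOn hu]
      exact mem_cSet_iff (lc_inj w) (b2 u).1 ((a3.1 a).2 ha)
    refine fun u hu => (a2 a ha (fun u hu => ?_) u hu).trans (c1 u hu)
    by_cases c : .inl a ∈ f u
    · obtain ⟨B, c2, c3⟩ := b4 _ (a4 _ ((a3.1 a).2 ha)).1 u hu ⟨b2 u, c⟩
      exact ⟨B, c2, fun v d1 d2 => iff_of_true ((c1 v d1).2 (c3 v d1 d2).2) ((c1 u hu).2 c)⟩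
    · obtain ⟨B, c2, c3⟩ := b4 _ (a4 _ ((a3.1 a).2 ha)).2 u hu ⟨b2 u, c⟩
      exact ⟨B, c2, fun v d1 d2 => iff_of_false (mt (c1 v d1).1 (c3 v d1 d2).2) (mt (c1 u hu).1 c)⟩
  refine a1 fun a ha b hb hab => ⟨fun c => ?_, fun c => ?_⟩
  · obtain ⟨u, c1, c2⟩ := a5 _ (a6.2.2 _ (a7 a ha) _ (a7 b hb)) c
    have d1 := (key a ha u c1).1 (c1.2.2.2.1 _ c2 _ (a7 a ha) inter_subset_left)
    have d2 := (key b hb u c1).1 (c1.2.2.2.1 _ c2 _ (a7 b hb) inter_subset_right)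
    exact ⟨(b2 u).2.1.1 a b d1 d2 hab, (b2 u).2.1.1 b a d2 d1 hab.symm⟩
  · obtain ⟨x, c1, c2, -⟩ := a8 a ha b hb (by simp [c]) (by simp)
    obtain ⟨u, c3, rfl⟩ := b3 x c1
    exact c3.2.1 _ (c3.2.2.1 _ ((key a ha u c3).2 ((c2 a).2 (by simp))) _
      ((key b hb u c3).2 ((c2 b).2 (by simp))))

theorem main : ∃ M : Set ZFSet.{0}, TransModelZFC M ∧
    ∃ (X : Type) (c : X → ZFSet.{0}) (𝒯 : Set (Set X)), Nonempty X ∧ Function.Injective c ∧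
      cSet c Set.univ ∈ M ∧ cSet (cSet c) 𝒯 ∈ M ∧ HausdorffIn M c 𝒯 ∧
      CompactIn M c 𝒯 Set.univ ∧ FirstIn M c 𝒯 ∧ CccIn M c 𝒯 ∧ ¬ ImageIn M c 𝒯 := by
  obtain ⟨w, h1, h2, h3, h4, h5, h6, h7, h8, h9⟩ := ((ev_zfc (P := PP)).and (SS.ns_K.ev_mem.and
    (SS.ev_TT_mem.and (SS.ev_haus.and (SS.ev_compact.and (ev_first.and (ev_ccc.and
    (ev_not_image.and (ev_pt ∅ 0 ∅ (by simp)))))))))).exists
  obtain ⟨z, hz, -⟩ := h9 (by simp) (by simp)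
  exact ⟨w.M, h1, transfer (SS.pc_inj w) (fun U h => h.1) ⟨z, hz⟩ h2 h3 h4 h5
    (fun x hx => h6 x hx hx) h7 h8⟩

end Pool.Agent.P.MP_b49e67_gt.CC
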