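import Pool.Agent.P.MP_b49e67_gt.CCCode
import Pool.Agent.P.MP_b49e67_gt.CCDefs

/-!
Closed subspaces of a Cantor cube in the extension are compact and Hausdorff there.
-/

open Set Filter Pool.Agent.Lib.Helper87 Pool.Agent.P.MP_6e1b89_gt
open Pool.Agent.P.MP_c9188c_gt (HausK HausdorffIn CompactIn cSet_image cSet_congr)

namespace Pool.Agent.P.MP_b49e67_gt.CC

variable {P L : Type} [Preorder P] (S : Sp P L)

/-- basic neighbourhoods -/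
def Sp.Nb (w : World P) (x : Set L) (F : Finset L) : Set (Set L) :=
  {y ∈ S.K w | ∀ l ∈ F, (l ∈ y ↔ l ∈ x)}

/-- the topology -/
def Sp.TT (w : World P) : Set (Set (Set L)) :=
  {U | U ⊆ S.K w ∧ cSet (pc w) U ∈ w.M ∧ ∀ x ∈ U, ∃ F, S.Nb w x F ⊆ U}

theorem Sp.ns_nb {x : World P → Set L} (hx : NP x) (F : Finset L) :
    S.NS fun w => S.Nb w (x w) F :=
  S.ns_sep (Φ := fun y w => ∀ l ∈ F, (l ∈ y ↔ l ∈ x w)) fun _ hy =>
    meas_fin F fun l => (hy.1 l).iff (hx.1 l)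

open Classical in
theorem Sp.nb_filter {w : World P} {x : Set L} (hx : ∀ l ∈ x, w.In l) (F : Finset L) :
    S.Nb w x (F.filter fun l => w.In l) = S.Nb w x F := by
  ext y
  refine and_congr_right fun hy => ⟨fun a l hl => ?_, fun a l hl => a l (Finset.mem_filter.1 hl).1⟩
  by_cases b : w.In l
  exacts [a l (Finset.mem_filter.2 ⟨hl, b⟩), iff_of_false (fun e => b (hy.1 l e)) fun e => b (hx l e)]

theorem Sp.nb_mem {w : World P} {x : Set L} {F : Finset L} (h : cSet (pc w) (S.Nb w x F) ∈ w.M) :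
    S.Nb w x F ∈ S.TT w :=
  ⟨sep_subset _ _, h, fun _ a => ⟨F, fun _ b => ⟨b.1, fun l c => (b.2 l c).trans (a.2 l c)⟩⟩⟩

theorem Sp.ev_TT_mem : ∀ᶠ w in gen P, cSet (cSet (pc w)) (S.TT w) ∈ w.M := by
  classical
  refine (named_cSet (c := fun w => cSet (pc w)) (g := fun δ w => S.val2 w δ)
    (fun δ => (S.ns_val2 δ).named) (Φ := fun δ w => ∀ x ∈ S.K w, x ∈ S.val2 w δ →
      ∃ F, w.In F ∧ S.Nb w x F ⊆ S.val2 w δ)
    (fun δ => S.meas_allK (Φ := fun x w => x ∈ S.val2 w δ → ∃ F, w.In F ∧ S.Nb w x F ⊆ S.val2 w δ)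
      fun x hx => ((S.ns_val2 δ).2 x hx).imp
        (measurable_ex_in fun F => (S.ns_nb hx F).meas_subset (S.ns_val2 δ))) ?_).ev_mem
  filter_upwards [S.ev_exists_val2, ev_all fun δ => (S.ns_val2 δ).ev_mem, ev_in_fin L]
    with w h1 h2 h3 A
  constructor
  · rintro ⟨a1, a2, a3⟩
    obtain ⟨δ, b1, rfl⟩ := h1 A a1 a2
    refine ⟨δ, b1, fun x b2 b3 => ?_, rfl⟩
    obtain ⟨F, c⟩ := a3 x b3
    exact ⟨_, (h3 _).2 fun l hl => (Finset.mem_filter.1 hl).2, (S.nb_filter b2.1 F).subset.trans c⟩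
  · rintro ⟨δ, b1, b2, rfl⟩
    exact ⟨sep_subset _ _, h2 δ b1, fun x b => let ⟨F, _, c⟩ := b2 x b.1 b; ⟨F, c⟩⟩

theorem Sp.ev_coord : ∀ᶠ w in gen P, ∀ l, w.In l →
    {x ∈ S.K w | l ∈ x} ∈ S.TT w ∧ {x ∈ S.K w | l ∉ x} ∈ S.TT w :=
  ev_all fun l => by
    filter_upwards [(S.ns_sep (Φ := fun x _ => l ∈ x) fun _ hx => hx.1 l).ev_mem,
      (S.ns_sep (Φ := fun x _ => l ∉ x) fun _ hx => (hx.1 l).not).ev_mem] with w h1 h2
    exact ⟨⟨sep_subset _ _, h1, fun _ hx => ⟨{l}, fun _ hy => ⟨hy.1, (hy.2 l (by simp)).2 hx.2⟩⟩⟩,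
      sep_subset _ _, h2, fun _ hx => ⟨{l}, fun _ hy => ⟨hy.1, mt (hy.2 l (by simp)).1 hx.2⟩⟩⟩

theorem Sp.ev_haus : ∀ᶠ w in gen P, HausK w.M (pc w) (S.K w) (S.TT w) := by
  classical
  filter_upwards [ev_union, S.ev_coord, S.ns_K.ev_mem,
    S.ev_all_set (Φ := fun A w => ∀ B ⊆ S.K w, cSet (pc w) B ∈ w.M → cSet (pc w) (A ∩ B) ∈ w.M)
      fun A hA => S.ev_all_set (Φ := fun B w => cSet (pc w) (A w ∩ B) ∈ w.M)
      fun B hB => (hA.inter hB).ev_mem] with w h2 h3 h4 h5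
  have sep : ∀ x ∈ S.K w, ∀ y ∈ S.K w, ∀ l ∈ x, l ∉ y →
      ∃ U ∈ S.TT w, ∃ V ∈ S.TT w, x ∈ U ∧ y ∈ V ∧ Disjoint U V := fun x hx y hy l a b =>
    ⟨_, (h3 l (hx.1 l a)).1, _, (h3 l (hx.1 l a)).2, ⟨hx, a⟩, ⟨hy, b⟩,
      Set.disjoint_left.2 fun z a b => b.2 a.2⟩
  refine ⟨⟨Subset.rfl, h4, fun x _ => ⟨∅, sep_subset _ _⟩⟩, fun U hU V hV =>
    ⟨inter_subset_left.trans hU.1, h5 U hU.1 hU.2.1 V hV.1 hV.2.1, fun x hx => ?_⟩,
    fun 𝒰 a1 a2 => ⟨sUnion_subset fun U hU => (a1 hU).1, cSet_sUnion _ 𝒰 ▸ h2 _ a2,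
      fun x ⟨U, b1, b2⟩ => ((a1 b1).2.2 x b2).imp fun F h => h.trans (subset_sUnion_of_mem b1)⟩,
    fun x hx y hy hne => ?_⟩
  · obtain ⟨F, a1⟩ := hU.2.2 x hx.1
    obtain ⟨F', a2⟩ := hV.2.2 x hx.2
    exact ⟨F ∪ F', fun y hy => ⟨a1 ⟨hy.1, fun l hl => hy.2 l (Finset.mem_union_left _ hl)⟩,
      a2 ⟨hy.1, fun l hl => hy.2 l (Finset.mem_union_right _ hl)⟩⟩⟩
  · by_cases h : x ⊆ y
    · obtain ⟨l, a, b⟩ := not_subset.1 fun h' => hne (h.antisymm h')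
      obtain ⟨U, a1, V, a2, a3, a4, a5⟩ := sep y hy x hx l a b
      exact ⟨V, a2, U, a1, a4, a3, a5.symm⟩
    · obtain ⟨l, a, b⟩ := not_subset.1 h
      exact sep x hx y hy l a b

/-- the recursion which finds a point which is not covered -/
def cx [DecidableEq L] (Cov : World P → Finset (L × Bool) → Prop) : L → World P → Prop :=
  (InvImage.wf embeddingToCardinal wellFounded_lt).fix fun l IH w => w.In l ∧ ∃ σ, w.In σ ∧
    (∀ p ∈ σ, ∃ h : embeddingToCardinal p.1 < embeddingToCardinal l, (IH p.1 h w ↔ p.2 = true)) ∧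
    Cov w (insert (l, false) σ)

section cx
variable [DecidableEq L] {Cov : World P → Finset (L × Bool) → Prop} {w : World P}

omit [Preorder P] in
theorem cx_iff {l : L} : cx Cov l w ↔ w.In l ∧ ∃ σ, w.In σ ∧
    (∀ p ∈ σ, embeddingToCardinal p.1 < embeddingToCardinal l ∧
      (cx Cov p.1 w ↔ p.2 = true)) ∧ Cov w (insert (l, false) σ) := by
  conv_lhs => unfold cx; rw [WellFounded.fix_eq]
  simp only [exists_prop]
  rfl

omit [Preorder P] in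
theorem cx_spec (h0 : ¬ Cov w ∅) (h1 : ∀ σ : Finset (L × Bool), w.In σ ↔ ∀ p ∈ σ, w.In p.1)
    (h2 : ∀ l σ σ', Cov w (insert (l, false) σ) → Cov w (insert (l, true) σ') → Cov w (σ ∪ σ'))
    (σ : Finset (L × Bool)) (h : ∀ p ∈ σ, w.In p.1 ∧ (cx Cov p.1 w ↔ p.2 = true)) :
    ¬ Cov w σ := by
  have key : ∀ c : Cardinal, ∀ σ : Finset (L × Bool), (∀ p ∈ σ, embeddingToCardinal p.1 < c ∧
      w.In p.1 ∧ (cx Cov p.1 w ↔ p.2 = true)) → ¬ Cov w σ := by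
    intro c
    induction c using WellFoundedLT.induction with
    | ind c ih =>
    intro σ h
    rcases σ.eq_empty_or_nonempty with rfl | hne
    · exact h0
    obtain ⟨⟨l, i⟩, a1, a2⟩ := Finset.exists_max_image σ (fun p => embeddingToCardinal p.1) hne
    have a3 : ∀ p ∈ σ.erase (l, i), embeddingToCardinal p.1 < embeddingToCardinal l ∧
        w.In p.1 ∧ (cx Cov p.1 w ↔ p.2 = true) := fun p hp => by
      have b1 := Finset.mem_of_mem_erase hp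
      refine ⟨(a2 p b1).lt_of_ne fun e => Finset.ne_of_mem_erase hp ?_, (h p b1).2⟩
      have b2 : p.1 = l := embeddingToCardinal.injective e
      exact Prod.ext b2 (Bool.eq_iff_iff.2 ((h p b1).2.2.symm.trans (b2 ▸ (h _ a1).2.2)))
    rw [← Finset.insert_erase a1]
    intro hc
    cases i
    · simpa using (h _ a1).2.2.1 (cx_iff.2 ⟨(h _ a1).2.1, _, (h1 _).2 fun p hp => (a3 p hp).2.1,
        fun p hp => ⟨(a3 p hp).1, (a3 p hp).2.2⟩, hc⟩)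
    · obtain ⟨-, σ0, b1, b2, b3⟩ := cx_iff.1 ((h _ a1).2.2.2 rfl)
      exact ih _ (h _ a1).1 _ (fun p hp => (Finset.mem_union.1 hp).elim
        (fun hp => ⟨(b2 p hp).1, (h1 _).1 b1 p hp, (b2 p hp).2⟩) (a3 p)) (h2 l _ _ b3 hc)
  obtain ⟨c, hc⟩ := (σ.finite_toSet.image fun p => embeddingToCardinal p.1).bddAbove
  exact key (Order.succ c) σ fun p hp => ⟨Order.lt_succ_of_le (hc ⟨p, hp, rfl⟩), h p hp⟩

theorem meas_cx (h : ∀ σ, Measurable fun w => Cov w σ) (l : L) : Measurable (cx Cov l) := by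
  induction l using (InvImage.wf embeddingToCardinal wellFounded_lt).induction with
  | h l ih =>
  refine Measurable.congr_ev ?_ (Eventually.of_forall fun w => cx_iff)
  refine (meas_in l).and (measurable_ex_in fun σ => (meas_fin σ fun p => ?_).and (h _))
  by_cases hp : embeddingToCardinal p.1 < embeddingToCardinal l
  · exact measurable_const.and ((ih _ hp).iff measurable_const)
  · simp only [hp, false_and]
    exact measurable_const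

end cx

theorem Sp.ev_compact : ∀ᶠ w in gen P, CompactIn w.M (pc w) (S.TT w) (S.K w) := by
  classical
  suffices h : ∀ᶠ w in gen P, ∀ z ∈ w.M, ∀ 𝒰 ⊆ S.TT w,
      cSet (cSet (pc w)) 𝒰 = z → S.K w ⊆ ⋃₀ 𝒰 → ∃ 𝒱 ⊆ 𝒰, 𝒱.Finite ∧ S.K w ⊆ ⋃₀ 𝒱 from
    h.mono fun w hw 𝒰 a1 a2 => hw _ a2 𝒰 a1 rfl
  refine ev_all_named fun z hz => ?_
  let Cov : World P → Finset (L × Bool) → Prop := fun w σ =>
    ∃ T : Finset ((L → Set P) → Set P), w.In T ∧ (∀ δ ∈ T, cSet (pc w) (S.val2 w δ) ∈ z w) ∧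
      ∀ x ∈ S.K w, (∀ p ∈ σ, (p.1 ∈ x ↔ p.2 = true)) → ∃ δ ∈ T, x ∈ S.val2 w δ
  have hm : ∀ σ, Measurable fun w => Cov w σ := fun σ => measurable_ex_in fun T =>
    (meas_fin T fun δ => (S.ns_val2 δ).named.measurable_mem hz).and
      (S.meas_allK (Φ := fun x w => (∀ p ∈ σ, (p.1 ∈ x ↔ p.2 = true)) → ∃ δ ∈ T, x ∈ S.val2 w δ)
        fun x hx => (meas_fin σ fun p => (hx.1 _).iff measurable_const).imp
          (meas_fex T fun δ => (S.ns_val2 δ).2 x hx))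
  let x : World P → Set L := fun w => {l | cx Cov l w}
  have hx : NP x := ⟨meas_cx hm, Eventually.of_forall fun w l h => (cx_iff.1 h).1⟩
  filter_upwards [hx.named.ev_mem, hx.2, S.ev_exists_val2, ev_in_fin (L × Bool),
    ev_in_fin ((L → Set P) → Set P), ev_in_prod L Bool, ev_ctype Bool]
    with w h3 h4 h5 h6 h7 h8 h9 𝒰 a2 a3 a4
  by_cases h0 : Cov w ∅
  · obtain ⟨T, -, b1, b2⟩ := h0
    refine ⟨S.val2 w '' T, ?_, T.finite_toSet.image _, fun y hy => ?_⟩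
    · rintro _ ⟨δ, c, rfl⟩
      exact (mem_cSet_iff (cSet_injOn (S.pc_inj w)) (fun U hU => (a2 hU).1)
        (sep_subset _ _)).1 (a3 ▸ b1 δ c)
    · obtain ⟨δ, c1, c2⟩ := b2 y hy (by simp)
      exact ⟨_, ⟨δ, c1, rfl⟩, c2⟩
  exfalso
  have key : ∀ F : Finset L,
      ¬ Cov w ((F.filter fun l => w.In l).image fun l => (l, decide (l ∈ x w))) := fun F => by
    refine cx_spec h0 (fun σ => by simp only [h6, h8, h9, and_true]) ?_ _ fun p hp => ?_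
    · rintro l σ σ' ⟨T, b1, b2, b3⟩ ⟨T', b4, b5, b6⟩
      refine ⟨T ∪ T', (h7 _).2 fun δ h => (Finset.mem_union.1 h).elim ((h7 _).1 b1 δ)
        ((h7 _).1 b4 δ), fun δ h => (Finset.mem_union.1 h).elim (b2 δ) (b5 δ),
        fun y c1 c3 => ?_⟩
      by_cases e : l ∈ y
      · obtain ⟨δ, d1, d2⟩ := b6 y c1 fun p hp => (Finset.mem_insert.1 hp).elim
          (fun h => by simp [h, e]) fun h => c3 p (Finset.mem_union_right _ h)
        exact ⟨δ, Finset.mem_union_right _ d1, d2⟩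
      · obtain ⟨δ, d1, d2⟩ := b3 y c1 fun p hp => (Finset.mem_insert.1 hp).elim
          (fun h => by simp [h, e]) fun h => c3 p (Finset.mem_union_left _ h)
        exact ⟨δ, Finset.mem_union_left _ d1, d2⟩
    · obtain ⟨l, b1, rfl⟩ := Finset.mem_image.1 hp
      exact ⟨(Finset.mem_filter.1 b1).2, by simp [x]⟩
  have k2 : ∀ F y, y ∈ S.K w → (∀ p ∈ (F.filter fun l => w.In l).image
      fun l => (l, decide (l ∈ x w)), (p.1 ∈ y ↔ p.2 = true)) → y ∈ S.Nb w (x w) F :=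
    fun F y b1 b2 => (S.nb_filter h4 F).subset
      ⟨b1, fun l hl => by simpa using b2 _ (Finset.mem_image_of_mem _ hl)⟩
  have hK : x w ∈ S.K w := ⟨h4, S.closed w _ fun F => by
    by_contra hc
    exact key F ⟨∅, (h7 _).2 (by simp), by simp,
      fun y b1 b3 => absurd ⟨y, b1.2.1, (k2 F y b1 b3).2⟩ hc⟩, h3⟩
  obtain ⟨U, b1, b2⟩ := a4 hK
  obtain ⟨F, b3⟩ := (a2 b1).2.2 _ b2
  obtain ⟨δ, b4, rfl⟩ := h5 U (a2 b1).1 (a2 b1).2.1
  exact key F ⟨{δ}, (h7 _).2 (by simpa using b4), by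
    simpa using a3 ▸ mem_cSet.2 ⟨_, b1, rfl⟩, fun y c1 c3 => ⟨δ, by simp, b3 (k2 F y c1 c3)⟩⟩

theorem transfer {M : Set ZFSet.{0}} {X : Type} {c : X → ZFSet.{0}} {K : Set X} {𝒯 : Set (Set X)}
    (hc : InjOn c K) (h0 : 𝒯 ⊆ 𝒫 K) (hK : K.Nonempty) (h1 : cSet c K ∈ M)
    (h2 : cSet (cSet c) 𝒯 ∈ M) (h3 : HausK M c K 𝒯) (h4 : CompactIn M c 𝒯 K)
    (h5 : ∀ x ∈ K, ∃ s : ℕ → Set X, cFun cNat (cSet c) univ s ∈ M ∧ (∀ k, s k ∈ 𝒯 ∧ x ∈ s k) ∧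
      ∀ U ∈ 𝒯, x ∈ U → ∃ k, s k ⊆ U)
    (h6 : ∀ 𝒰 ⊆ 𝒯, cSet (cSet c) 𝒰 ∈ M → 𝒰.Pairwise Disjoint → (∀ U ∈ 𝒰, U.Nonempty) →
      ∃ s : ℕ → Set X, cFun cNat (cSet c) univ s ∈ M ∧ (∀ k, s k ⊆ K) ∧ 𝒰 ⊆ range s)
    (h7 : ∀ f : Set (Set ℕ) → X, cFun (cSet (cSet cNat)) c (StarIn M) f ∈ M → (∀ u, f u ∈ K) →
      (∀ x ∈ K, ∃ u ∈ StarIn M, f u = x) → ¬ ∀ U ∈ 𝒯, ∀ u ∈ StarIn M, f u ∈ U →
        ∃ A ∈ u, ∀ v ∈ StarIn M, A ∈ v → f v ∈ U) :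
    ∃ (Y : Type) (e : Y → ZFSet.{0}) (𝒮 : Set (Set Y)), Nonempty Y ∧ Function.Injective e ∧
      cSet e univ ∈ M ∧ cSet (cSet e) 𝒮 ∈ M ∧ HausdorffIn M e 𝒮 ∧ CompactIn M e 𝒮 univ ∧
      FirstIn M e 𝒮 ∧ CccIn M e 𝒮 ∧ ¬ ImageIn M e 𝒮 := by
  let im : Set K → Set X := fun U => Subtype.val '' U
  let e : K → ZFSet := fun x => c x
  have inj : Function.Injective im := Subtype.val_injective.image_injective
  have sur : ∀ A ⊆ K, im (Subtype.val ⁻¹' A) = A := fun A hA => by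
    simpa [im] using hA
  have c1 : ∀ U, cSet e U = cSet c (im U) := fun U => (cSet_image c _ U).symm
  have c2 : ∀ 𝒰, cSet (cSet e) 𝒰 = cSet (cSet c) (im '' 𝒰) := fun 𝒰 => by
    rw [cSet_image]
    exact cSet_congr fun a _ => c1 a
  have c3 : im '' (im ⁻¹' 𝒯) = 𝒯 := image_preimage_eq_of_subset fun A hA => ⟨_, sur A (h0 hA)⟩
  have c4 : ∀ s : ℕ → Set X, (∀ k, s k ⊆ K) → cFun cNat (cSet e) univ
      (fun k => Subtype.val ⁻¹' s k) = cFun cNat (cSet c) univ s := fun s h =>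
    cSet_congr fun n _ => by rw [c1, sur _ (h n)]
  have c8 : ∀ U V, im U ⊆ im V ↔ U ⊆ V := fun U V => image_subset_image_iff Subtype.val_injective
  have c9 : ∀ 𝒰 : Set (Set K), im (⋃₀ 𝒰) = ⋃₀ (im '' 𝒰) := fun 𝒰 => by
    rw [sUnion_image]
    simp only [im, sUnion_eq_biUnion, image_iUnion]
  have top : im univ = K := Subtype.coe_image_univ K
  have pre : ∀ U ∈ 𝒯, Subtype.val ⁻¹' U ∈ im ⁻¹' 𝒯 := fun U h => by
    rwa [mem_preimage, sur U (h0 h)]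
  refine ⟨K, e, im ⁻¹' 𝒯, hK.to_subtype, fun x y h => Subtype.ext (hc x.2 y.2 h),
    by rwa [c1, top], by rwa [c2, c3], ⟨by rw [mem_preimage, top]; exact h3.1,
      fun U hU V hV => ?_, fun 𝒰 a1 a2 => ?_, fun x y h => ?_⟩, fun 𝒰 a1 a2 a3 => ?_,
    fun x => ?_, fun 𝒰 a1 a2 a3 a4 => ?_, fun ⟨f, a1, a2, a3⟩ => h7 (fun u => f u) a1
      (fun u => (f u).2) (fun x hx => (a2 ⟨x, hx⟩).imp fun u h => ⟨h.1, congrArg _ h.2⟩)
      fun U hU => a3 _ (pre U hU)⟩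
  · rw [mem_preimage]
    simp only [im]
    rw [image_inter Subtype.val_injective]
    exact h3.2.1 _ hU _ hV
  · rw [mem_preimage, c9]
    exact h3.2.2.1 _ (image_subset_iff.2 a1) (c2 𝒰 ▸ a2)
  · obtain ⟨U, a1, V, a2, a3, a4, a5⟩ := h3.2.2.2 x x.2 y y.2 (Subtype.coe_ne_coe.2 h)
    exact ⟨_, pre U a1, _, pre V a2, a3, a4, a5.preimage _⟩
  · obtain ⟨𝒱, b1, b2, b3⟩ := h4 (im '' 𝒰) (image_subset_iff.2 a1) (c2 𝒰 ▸ a2)
      (top.superset.trans (((c8 _ _).2 a3).trans (c9 𝒰).subset))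
    obtain ⟨𝒱, b4, rfl⟩ := subset_image_iff.1 b1
    exact ⟨𝒱, b4, b2.of_finite_image inj.injOn, (c8 _ _).1 (by rwa [c9, top])⟩
  · obtain ⟨s, b1, b2, b3⟩ := h5 x x.2
    refine ⟨_, c4 s (fun k => h0 (b2 k).1) ▸ b1, fun k => ⟨pre _ (b2 k).1, (b2 k).2⟩,
      fun U c5 c6 => (b3 _ c5 ⟨x, c6, rfl⟩).imp fun k hk => ?_⟩
    rwa [← c8, sur _ (h0 (b2 k).1)]
  · obtain ⟨s, b1, b2, b3⟩ := h6 (im '' 𝒰) (image_subset_iff.2 a1) (c2 𝒰 ▸ a2)
      (inj.injOn.pairwise_image.2 fun U c5 V c6 c7 =>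
        (disjoint_image_iff Subtype.val_injective).2 (a4 c5 c6 c7))
      (forall_mem_image.2 fun U hU => (a3 U hU).image _)
    refine ⟨_, c4 s b2 ▸ b1, fun U hU => ?_⟩
    obtain ⟨k, hk⟩ := b3 (mem_image_of_mem _ hU)
    exact ⟨k, inj ((sur _ (b2 k)).trans hk)⟩

end Pool.Agent.P.MP_b49e67_gt.CC
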