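import Mathlib

namespace Pool.Agent.P.MP_b49e67_gt

/-- the space of free ultrafilters on the natural numbers -/
abbrev NStar : Type := {u : Ultrafilter ℕ // (u : Filter ℕ) ≤ Filter.cofinite}

/-- `K` is a continuous image of the space of free ultrafilters -/
def IsImage (K : Type) [TopologicalSpace K] : Prop :=
  ∃ f : NStar → K, Continuous f ∧ Function.Surjective f

/-- `K` has a continuous map to a metric space whose fibres have at most `n` points -/
def DegLE (K : Type) [TopologicalSpace K] (n : ℕ) : Prop :=
  ∃ (M : Type) (_ : MetricSpace M) (g : K → M), Continuous g ∧ ∀ m, (g ⁻¹' {m}).encard ≤ n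

end Pool.Agent.P.MP_b49e67_gt
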