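import Pool.Agent.P.MP_b49e67_gt.Defs

/-! Basic facts on free ultrafilters, and the binary tree structure of the natural numbers. -/

open Set Filter Topology Function

namespace Pool.Agent.P.MP_b49e67_gt

instance : CompactSpace NStar := by
  have : {u : Ultrafilter ℕ | (u : Filter ℕ) ≤ cofinite} =
      ⋂ s ∈ (cofinite : Filter ℕ), {u : Ultrafilter ℕ | s ∈ u} := by
    ext u
    simp only [mem_ofPred_eq, mem_iInter]
    rfl
  have h : IsClosed {u : Ultrafilter ℕ | (u : Filter ℕ) ≤ cofinite} :=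
    this ▸ isClosed_biInter fun s _ => ultrafilter_isClosed_basic s
  exact isCompact_iff_compactSpace.1 h.isCompact

theorem isClopen_star (A : Set ℕ) : IsClopen {u : NStar | A ∈ u.1} :=
  ⟨(ultrafilter_isClosed_basic A).preimage continuous_subtype_val,
    (ultrafilter_isOpen_basic A).preimage continuous_subtype_val⟩

theorem exists_basic {U : Set NStar} (hU : IsOpen U) {u : NStar} (hu : u ∈ U) :
    ∃ A ∈ u.1, ∀ v : NStar, A ∈ v.1 → v ∈ U := by
  obtain ⟨V, h1, rfl⟩ := isOpen_induced_iff.1 hU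
  obtain ⟨_, ⟨A, rfl⟩, h2, h3⟩ := ultrafilterBasis_is_basis.exists_subset_of_mem_open hu h1
  exact ⟨A, h2, fun v hv => h3 hv⟩

theorem sep_closed {F G : Set NStar} (hF : IsClosed F) (hG : IsClosed G) (h : Disjoint F G) :
    ∃ A : Set ℕ, (∀ u ∈ F, A ∈ u.1) ∧ ∀ u ∈ G, A ∉ u.1 := by
  have h1 : ∀ u : F, ∃ A ∈ u.1.1, ∀ v : NStar, A ∈ v.1 → v ∈ Gᶜ := fun u =>
    exists_basic hG.isOpen_compl (disjoint_left.1 h u.2)
  choose A h2 h3 using h1
  obtain ⟨t, ht⟩ := hF.isCompact.elim_finite_subcover (fun u : F => {v : NStar | A u ∈ v.1})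
    (fun u => (isClopen_star _).2) fun u hu => mem_iUnion.2 ⟨⟨u, hu⟩, h2 ⟨u, hu⟩⟩
  refine ⟨⋃ u ∈ t, A u, fun u hu => ?_, fun u hu h4 => ?_⟩
  · obtain ⟨v, a1, a2⟩ := mem_iUnion₂.1 (ht hu)
    exact mem_of_superset a2 (subset_biUnion_of_mem (u := A) a1)
  · obtain ⟨v, -, a2⟩ := (Ultrafilter.finite_biUnion_mem_iff t.finite_toSet).1 h4
    exact h3 v u a2 hu

theorem exists_rep {U : Set NStar} (hU : IsClopen U) : ∃ A : Set ℕ, ∀ u : NStar, A ∈ u.1 ↔ u ∈ U := by
  obtain ⟨A, h1, h2⟩ := sep_closed hU.1 hU.compl.1 disjoint_compl_right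
  exact ⟨A, fun u => ⟨fun h => by_contra fun h' => h2 u h' h, h1 u⟩⟩

theorem NStar.infinite {u : NStar} {A : Set ℕ} (h : A ∈ u.1) : A.Infinite := fun hf =>
  Ultrafilter.compl_notMem_iff.2 h (u.2 hf.compl_mem_cofinite)

theorem exists_star {A : Set ℕ} (h : A.Infinite) : ∃ u : NStar, A ∈ u.1 := by
  have : (cofinite ⊓ 𝓟 A).NeBot := cofinite_inf_principal_neBot_iff.2 h
  obtain ⟨u, hu⟩ := Ultrafilter.exists_le (cofinite ⊓ 𝓟 A)
  exact ⟨⟨u, hu.trans inf_le_left⟩, le_principal_iff.1 (hu.trans inf_le_right)⟩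

/-- the level of a node -/
def lev (n : ℕ) : ℕ := Nat.log 2 n

theorem ev_lev (u : NStar) (r : ℕ) : ∀ᶠ n in (u.1 : Filter ℕ), r ≤ lev n := by
  refine u.2 ?_
  rw [Nat.cofinite_eq_atTop]
  filter_upwards [eventually_ge_atTop (2 ^ r)] with n hn
  exact Nat.le_log_of_pow_le (by norm_num) hn

theorem exists_node (r : ℕ) (x : ℕ → Bool) : ∃ n, lev n = r ∧ ∀ i < r, n.testBit i = x i := by
  refine ⟨2 ^ r + Nat.ofBits fun i : Fin r => x i, ?_, fun i hi => ?_⟩
  · have := Nat.ofBits_lt_two_pow fun i : Fin r => x i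
    exact Nat.log_eq_of_pow_le_of_lt_pow (by omega) (by rw [pow_succ]; omega)
  · rw [Nat.testBit_two_pow_add_gt hi, Nat.testBit_ofBits_lt _ _ hi]

/-- a free ultrafilter which follows a branch -/
theorem exists_branch (x : ℕ → Bool) :
    ∃ u : NStar, ∀ᶠ n in (u.1 : Filter ℕ), ∀ i < lev n, n.testBit i = x i := by
  choose t h1 h2 using fun r => exists_node r x
  obtain ⟨u, hu⟩ := exists_star (A := range t)
    (infinite_range_of_injective fun a b h => by rw [← h1 a, h, h1])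
  refine ⟨u, mem_of_superset hu ?_⟩
  rintro _ ⟨r, rfl⟩ i hi
  exact h2 r i (h1 r ▸ hi)

open Classical in
/-- the limit of the bits -/
noncomputable def lim (u : NStar) (i : ℕ) : Bool := decide ({n : ℕ | n.testBit i = true} ∈ u.1)

theorem ev_lim (u : NStar) (i : ℕ) : ∀ᶠ n in (u.1 : Filter ℕ), n.testBit i = lim u i := by
  by_cases h : {n : ℕ | n.testBit i = true} ∈ u.1
  · have : lim u i = true := by simp [lim, h]
    rw [this]
    exact h
  · have : lim u i = false := by simp [lim, h]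
    rw [this]
    exact mem_of_superset (Ultrafilter.compl_mem_iff_notMem.2 h) fun n hn => by simpa using hn

theorem ev_lim_lt (u : NStar) (r : ℕ) :
    ∀ᶠ n in (u.1 : Filter ℕ), ∀ i < r, n.testBit i = lim u i :=
  (eventually_all_finite (finite_lt_nat r)).2 fun i _ => ev_lim u i

theorem lim_eq {u : NStar} {x : ℕ → Bool}
    (h : ∀ᶠ n in (u.1 : Filter ℕ), ∀ i < lev n, n.testBit i = x i) : lim u = x := by
  funext i
  obtain ⟨n, h1, h2, h3⟩ := (h.and ((ev_lim u i).and (ev_lev u (i + 1)))).exists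
  rw [← h2, h1 i h3]

theorem continuous_lim : Continuous lim := by
  refine continuous_pi fun i => ?_
  rw [continuous_bool_rng true]
  have : (fun u : NStar => lim u i) ⁻¹' {true} = {u : NStar | {n : ℕ | n.testBit i = true} ∈ u.1} := by
    ext u
    simp [lim]
  rw [this]
  exact isClopen_star _

end Pool.Agent.P.MP_b49e67_gt
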