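import Pool.Agent.P.MP_b49e67_gt.K3Defs
import Pool.Agent.P.MP_b49e67_gt.Star

/-! The space `K3` is a first countable compactum of degree at most three; if it is an image of
the space of free ultrafilters, there is a large set all of whose countable subsets are
relatively `Gδ`. -/

open Set Filter Topology Function

namespace Pool.Agent.P.MP_b49e67_gt

theorem first_of_degLE {K : Type} [TopologicalSpace K] [CompactSpace K] [T2Space K] {n : ℕ}
    (h : DegLE K n) : FirstCountableTopology K := ⟨fun x => by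
  obtain ⟨M, _, g, hg, hd⟩ := h
  have h1 : (g ⁻¹' {g x} \ {x}).Finite := (finite_of_encard_le_coe (hd _)).subset sdiff_subset
  obtain ⟨U, h2, h3⟩ := ((isClosed_singleton.isGδ.preimage hg).inter
    h1.isClosed.isOpen_compl.isGδ : IsGδ (g ⁻¹' {g x} ∩ (g ⁻¹' {g x} \ {x})ᶜ)).eq_iInter_nat
  have h4 : ∀ m, ∃ V ∈ 𝓝 x, IsClosed V ∧ V ⊆ U m := fun m =>
    exists_mem_nhds_isClosed_subset ((h2 m).mem_nhds (mem_iInter.1 (h3.le (by simp)) m))
  choose V v1 v2 v3 using h4
  have : 𝓝 x = ⨅ m, 𝓟 (V m) := le_antisymm (le_iInf fun m => le_principal_iff.2 (v1 m))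
    (isCompact_univ.le_nhds_of_unique_clusterPt univ_mem fun y _ hy => by
      have := h3.ge (mem_iInter.2 fun m => v3 m ((v2 m).closure_subset
        (mem_closure_iff_clusterPt.2 (hy.mono (iInf_le _ m)))))
      by_contra c
      exact this.2 ⟨this.1, c⟩)
  rw [this]
  infer_instance⟩

theorem isClosed_K3 : IsClosed K3 := by
  have cl : ∀ {Y : Type} [TopologicalSpace Y] (f : Y → Bool), Continuous f →
      IsClopen {y | f y = true} := fun f hf => (isClopen_discrete {true}).preimage hf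
  simp only [K3, ofPred_and, ofPred_forall (p := fun _ _ => _ → _ = _),
    ofPred_forall (p := fun _ _ => _ → _ ∧ _)]
  refine (isClosed_iInter fun d => isClosed_imp (cl _ (by fun_prop)).2
    (isClosed_eq (by fun_prop) continuous_const)).inter (isClosed_iInter fun τ =>
      isClosed_imp (cl _ (by fun_prop)).2 ((isClosed_eq (by fun_prop) continuous_const).and ?_))
  by_cases h : Injective τ
  swap
  · simp [h]
  have c2 : ∀ d, IsClopen {n : ℕ∞ | ∃ k : ℕ, n = k ∧ τ k = d} := fun d => by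
    have : {n : ℕ∞ | ∃ k : ℕ, n = k ∧ τ k = d}.Subsingleton := by
      rintro _ ⟨a, rfl, a1⟩ _ ⟨b, rfl, b1⟩
      rw [h (a1.trans b1.symm)]
    refine ⟨this.finite.isClosed, isOpen_iff_mem_nhds.2 ?_⟩
    rintro _ ⟨a, rfl, a1⟩
    exact (ENat.mem_nhds_natCast_iff _).2 ⟨a, rfl, a1⟩
  simp only [h, true_and, ofPred_forall, iff_iff_implies_and_implies]
  refine isClosed_iInter fun d => (isClosed_imp (cl _ (by fun_prop)).2 ?_).and
    (isClosed_imp ?_ (cl _ (by fun_prop)).1)
  · exact (c2 d).1.preimage (by fun_prop)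
  · exact (c2 d).2.preimage (by fun_prop)

instance : CompactSpace K3 := isCompact_iff_compactSpace.1 isClosed_K3.isCompact

theorem degLE_K3 : DegLE K3 3 := by
  classical
  refine ⟨(ℕ → Bool) × (ℕ → ℕ → Bool) × ℕ∞, TopologicalSpace.metrizableSpaceMetric _,
    fun z => (z.1.1, z.1.2.1, z.1.2.2.1), by fun_prop, fun ⟨x, σ, n⟩ => ?_⟩
  let F : K3 → Option Bool := fun z => if z.1.2.2.2.2 σ = true then none else some (z.1.2.2.2.1 x)
  refine (encard_le_encard_of_injOn (t := univ) (f := F) (mapsTo_univ _ _) ?_).trans (by simp)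
  rintro ⟨⟨x1, σ1, n1, α, β⟩, a1, a2⟩ e1 ⟨⟨x2, σ2, n2, α', β'⟩, b1, b2⟩ e2 e
  obtain ⟨rfl, rfl, rfl⟩ : x = x1 ∧ σ = σ1 ∧ n = n1 := by simpa [eq_comm] using e1
  obtain ⟨rfl, rfl, rfl⟩ : x = x2 ∧ σ = σ2 ∧ n = n2 := by simpa [eq_comm] using e2
  simp only [F] at e
  have h : β σ = β' σ ∧ α x = α' x := by
    by_cases c : β σ = true <;> by_cases c' : β' σ = true <;> simp only [c, c'] at e
    · exact ⟨c.trans c'.symm, Bool.eq_iff_iff.2 (((a2 _ c).2.2 _).trans ((b2 _ c').2.2 _).symm)⟩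
    · simp at e
    · simp at e
    · exact ⟨by simp_all, by simpa using e⟩
  obtain rfl : α = α' := funext fun d => Bool.eq_iff_iff.2
    ⟨fun c => a1 d c ▸ h.2 ▸ (a1 d c).symm ▸ c, fun c => b1 d c ▸ h.2.symm ▸ (b1 d c).symm ▸ c⟩
  obtain rfl : β = β' := funext fun d => Bool.eq_iff_iff.2
    ⟨fun c => (a2 d c).1 ▸ h.1 ▸ (a2 d c).1.symm ▸ c,
      fun c => (b2 d c).1 ▸ h.1.symm ▸ (b2 d c).1.symm ▸ c⟩
  rfl

theorem lambda_of_image (h : IsImage K3) : ∃ X : Set (ℕ → Bool),
    Cardinal.mk X = Cardinal.continuum ∧ ∀ D ⊆ X, D.Countable → ∃ G, IsGδ G ∧ D = X ∩ G := by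
  classical
  obtain ⟨f, f1, f2⟩ := h
  choose A hA using fun d => exists_rep (U := {u | (f u).1.2.2.2.1 d = true})
    ((isClopen_discrete {true}).preimage (f := fun u => (f u).1.2.2.2.1 d) (by fun_prop))
  choose B hB using fun τ => exists_rep (U := {u | (f u).1.2.2.2.2 τ = true})
    ((isClopen_discrete {true}).preimage (f := fun u => (f u).1.2.2.2.2 τ) (by fun_prop))
  have key : ∀ τ, Injective τ → ∀ d, (A d ∩ B τ).Infinite ↔ d ∈ range τ := fun τ hτ d => by
    refine ⟨fun h => ?_, ?_⟩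
    · obtain ⟨u, hu⟩ := exists_star h
      obtain ⟨k, -, e⟩ := (((f u).2.2 τ ((hB τ u).1 (mem_of_superset hu inter_subset_right))).2.2
        d).1 ((hA d u).1 (mem_of_superset hu inter_subset_left))
      exact ⟨k, e⟩
    · rintro ⟨k, rfl⟩
      obtain ⟨u, hu⟩ := f2 ⟨(τ k, τ, k, fun d => decide (τ k = d), fun t => decide (τ = t)),
        fun d => by simp, fun t ht => by
          obtain rfl : τ = t := by simpa using ht
          simp [hτ]⟩
      exact NStar.infinite (u := u)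
        (inter_mem ((hA _ u).2 (by simp [hu])) ((hB _ u).2 (by simp [hu])))
  let χ : (ℕ → Bool) → ℕ → Bool := fun d n => decide (n ∈ A d)
  have hχ : Injective χ := fun d d' e => by
    obtain ⟨u, hu⟩ := f2 ⟨(d, fun _ => d, ⊤, fun t => decide (d = t), fun _ => false),
      fun d => by simp, fun t => by simp⟩
    have h1 : A d = A d' := Set.ext fun n => decide_eq_decide.1 (congrFun e n)
    have h2 := (hA d' u).1 (h1 ▸ (hA d u).2 (by simp [hu]))
    simpa [hu] using h2
  refine ⟨range χ, by rw [Cardinal.mk_range_eq _ hχ]; simp, fun D h1 h2 => ?_⟩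
  by_cases h3 : D.Finite
  · exact ⟨D, h3.isGδ, (inter_eq_right.2 h1).symm⟩
  obtain ⟨_⟩ := countable_infinite_iff_nonempty_denumerable.1
    ⟨h2.preimage_of_injOn hχ.injOn, Infinite.preimage h3 h1⟩
  let τ : ℕ → ℕ → Bool := fun k => ((Denumerable.eqv (χ ⁻¹' D)).symm k).1
  have h4 : range τ = χ ⁻¹' D := by
    rw [show τ = Subtype.val ∘ _ from rfl, (Equiv.surjective _).range_comp, Subtype.range_coe]
  refine ⟨⋂ m, ⋃ n ∈ B τ ∩ Ioi m, {y | y n = true}, .iInter_of_isOpen fun m => isOpen_biUnion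
    fun n _ => (isOpen_discrete {true}).preimage (f := fun y : ℕ → Bool => y n) (by fun_prop),
    Set.ext fun y => ?_⟩
  refine ⟨fun h => ?_, ?_⟩
  · obtain ⟨d, rfl⟩ := h1 h
    refine ⟨⟨d, rfl⟩, mem_iInter.2 fun m => ?_⟩
    obtain ⟨n, a1, a2⟩ := ((key τ (Subtype.val_injective.comp (Equiv.injective _)) d).2
      (h4 ▸ h)).exists_gt m
    exact mem_biUnion ⟨a1.2, a2⟩ (by simpa [χ] using a1.1)
  · rintro ⟨⟨d, rfl⟩, h⟩
    refine h4.le ((key τ (Subtype.val_injective.comp (Equiv.injective _)) d).1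
      (infinite_of_forall_exists_gt fun m => ?_))
    obtain ⟨n, a1, a2⟩ := mem_iUnion₂.1 (mem_iInter.1 h m)
    exact ⟨n, ⟨by simpa [χ] using a2, a1.1⟩, a1.2⟩

end Pool.Agent.P.MP_b49e67_gt
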