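import Pool.Agent.P.MP_b49e67_gt.K3A

/-! A large set all of whose countable subsets are relatively `Gδ` makes `K3` an image of the
space of free ultrafilters. -/

open Set Filter Topology Function

namespace Pool.Agent.P.MP_b49e67_gt

theorem isImage_of_seq {Y : Type} [TopologicalSpace Y] [CompactSpace Y] [T2Space Y] (g : ℕ → Y)
    (K : Set Y) (h1 : ∀ (u : NStar) y, Tendsto g u.1 (𝓝 y) → y ∈ K)
    (h2 : ∀ y ∈ K, ∃ u : NStar, Tendsto g u.1 (𝓝 y)) : IsImage K :=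
  ⟨fun u => ⟨Ultrafilter.extend g u.1, h1 u _ (ultrafilter_extend_eq_iff.1 rfl)⟩,
    ((continuous_ultrafilter_extend g).comp continuous_subtype_val).subtype_mk _, fun y => by
      obtain ⟨u, hu⟩ := h2 y.1 y.2
      exact ⟨u, Subtype.ext (ultrafilter_extend_eq_iff.2 hu)⟩⟩

theorem exists_rate {X : Set (ℕ → Bool)} (hX : ∀ D ⊆ X, D.Countable → ∃ G, IsGδ G ∧ D = X ∩ G)
    (t : ℕ → ℕ → Bool) (h1 : ∀ k, t k ∈ X) (h2 : Injective t) :
    ∃ f : ℕ → ℕ, ∀ y ∈ X, ∃ m, ∀ k, (∀ i < f k, y i = t k i) → k ≤ m := by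
  obtain ⟨G, a1, a2⟩ := hX (range t) (range_subset_iff.2 h1) (countable_range t)
  obtain ⟨U, a3, rfl⟩ := a1.eq_iInter_nat
  have : ∀ k, ∃ r, PiNat.cylinder (t k) r ⊆ (⋂ m ∈ Iic k, U m) ∩ (t '' Iio k)ᶜ := fun k => by
    obtain ⟨_, ⟨y, r, rfl⟩, b1, b2⟩ :=
      (PiNat.isTopologicalBasis_cylinders fun _ : ℕ => Bool).exists_subset_of_mem_open
        (show t k ∈ (⋂ m ∈ Iic k, U m) ∩ (t '' Iio k)ᶜ from
          ⟨mem_biInter fun m _ => mem_iInter.1 (a2.le ⟨k, rfl⟩).2 m,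
            fun ⟨i, c1, c2⟩ => c1.ne (h2 c2)⟩)
        (((finite_Iic k).isOpen_biInter fun m _ => a3 m).inter
          ((finite_Iio k).image t).isClosed.isOpen_compl)
    exact ⟨r, PiNat.mem_cylinder_iff_eq.1 b1 ▸ b2⟩
  choose f hf using this
  refine ⟨f, fun y hy => ?_⟩
  by_cases c : ∀ m, y ∈ U m
  · obtain ⟨m, rfl⟩ := a2.ge ⟨hy, mem_iInter.2 c⟩
    exact ⟨m, fun k hk => not_lt.1 fun d => (hf k hk).2 ⟨m, d, rfl⟩⟩
  · obtain ⟨m, c⟩ := not_forall.1 c
    exact ⟨m, fun k hk => not_lt.1 fun d => c (mem_iInter₂.1 (hf k hk).1 m d.le)⟩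

/-- the node `n` agrees with `y` on the visible positions of the form `c i` -/
def Fol {ι : Type} (c : ι → ℕ) (n : ℕ) (y : ι → Bool) : Prop :=
  ∀ i, c i < lev n → n.testBit (c i) = y i

theorem Fol.eq {ι : Type} {c : ι → ℕ} {u : NStar} {y z : ι → Bool}
    (h : ∀ᶠ n in (u.1 : Filter ℕ), Fol c n y)
    (h' : Tendsto (fun (n : ℕ) i => n.testBit (c i)) u.1 (𝓝 z)) : z = y := by
  refine tendsto_nhds_unique h' (tendsto_pi_nhds.2 fun i => tendsto_const_nhds.congr' ?_)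
  filter_upwards [h, ev_lev u (c i + 1)] with n a1 a2 using (a1 i a2).symm

theorem ev_true {g : ℕ → Prop} [DecidablePred g] {l : Filter ℕ} {b : Bool}
    (h : Tendsto (fun n => decide (g n)) l (𝓝 b)) : ∀ᶠ n in l, g n ↔ b = true := by
  rw [nhds_discrete, tendsto_pure] at h
  filter_upwards [h] with n hn using by rw [← hn, decide_eq_true_iff]

theorem image_of_lambda {X : Set (ℕ → Bool)} (h : Cardinal.mk X = Cardinal.continuum)
    (hX : ∀ D ⊆ X, D.Countable → ∃ G, IsGδ G ∧ D = X ∩ G) : IsImage K3 := by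
  classical
  obtain ⟨J⟩ : Nonempty ((ℕ → Bool) ≃ X) := Cardinal.eq.1 (by simp [h])
  let j : (ℕ → Bool) → ℕ → Bool := fun d => J d
  have hj : Injective j := Subtype.val_injective.comp J.injective
  choose! f hf using fun (τ : ℕ → ℕ → Bool) (hτ : Injective τ) =>
    exists_rate hX (j ∘ τ) (fun k => (J _).2) (hj.comp hτ)
  let e : ℕ ⊕ ℕ ⊕ ℕ × ℕ ⊕ ℕ ⊕ Bool → ℕ := Encodable.encode
  let c1 : ℕ → ℕ := fun i => e (.inl i)
  let c2 : ℕ → ℕ := fun i => e (.inr (.inl i))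
  let c3 : ℕ × ℕ → ℕ := fun i => e (.inr (.inr (.inl i)))
  let c4 : ℕ → ℕ := fun i => e (.inr (.inr (.inr (.inl i))))
  let c5 : Bool → ℕ := fun i => e (.inr (.inr (.inr (.inr i))))
  let kk : ℕ → ℕ∞ := fun n => sInf ((↑) '' {i : ℕ | c4 i < lev n ∧ n.testBit (c4 i) = true})
  let A : (ℕ → Bool) → ℕ → Prop := fun d n =>
    n.testBit (c5 true) = true ∧ Fol c1 n d ∧ Fol c2 n (j d)
  let B : (ℕ → ℕ → Bool) → ℕ → Prop := fun τ n => n.testBit (c5 false) = true ∧ Injective τ ∧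
    Fol c3 n (uncurry τ) ∧ ((∃ k : ℕ, kk n = k ∧ (∀ i < f τ k, c2 i < lev n) ∧ A (τ k) n) ∨
      kk n = ⊤ ∧ n.testBit (c5 true) = false)
  refine isImage_of_seq (fun n => (fun i => n.testBit (c1 i), fun a b => n.testBit (c3 (a, b)),
    kk n, fun d => decide (A d n), fun τ => decide (B τ n))) _ ?_ ?_
  · rintro u ⟨x, σ, m, α, β⟩ hu
    simp only [Prod.tendsto_iff] at hu
    obtain ⟨t1, t2, t3, t4, t5⟩ := hu
    have t4 := fun d => ev_true (tendsto_pi_nhds.1 t4 d)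
    have t5 := fun d => ev_true (tendsto_pi_nhds.1 t5 d)
    have a1 : ∀ d, α d = true → x = d := fun d hd =>
      Fol.eq ((t4 d).mono fun n hn => (hn.2 hd).2.1) t1
    refine ⟨a1, fun τ hτ => ?_⟩
    have a2 : ∀ᶠ n in (u.1 : Filter ℕ), B τ n := (t5 τ).mono fun n hn => hn.2 hτ
    have a3 : Injective τ := a2.exists.choose_spec.2.1
    refine ⟨uncurry_injective (Fol.eq (a2.mono fun n hn => hn.2.2.1) (tendsto_pi_nhds.2 fun i =>
      tendsto_pi_nhds.1 (tendsto_pi_nhds.1 t2 i.1) i.2)), a3, fun d => ?_⟩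
    induction m using ENat.recTopCoe with
    | top =>
      refine iff_of_false (fun hd => ?_) (by simp)
      obtain ⟨m, hm⟩ := hf τ a3 (j d) (J d).2
      obtain ⟨n, ⟨b1, b2⟩, b3⟩ := ((a2.and (t4 d)).and
        (ENat.tendsto_nhds_top_iff_natCast_lt.1 t3 m)).exists
      obtain ⟨k, d1, d2, d3⟩ | d1 := b1.2.2.2
      · rw [d1, Nat.cast_lt] at b3
        exact b3.not_ge (hm k fun i hi =>
          ((b2.2 hd).2.2 i (d2 i hi)).symm.trans (d3.2.2 i (d2 i hi)))
      · simpa [d1.2] using (b2.2 hd).1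
    | coe k =>
      rw [ENat.nhds_natCast, tendsto_pure] at t3
      obtain ⟨n, ⟨b1, b2⟩, b3⟩ := ((a2.and (t4 (τ k))).and t3).exists
      have : α (τ k) = true := by
        obtain ⟨k', d1, -, d3⟩ | d1 := b1.2.2.2
        · obtain rfl : k = k' := by simpa [b3] using d1
          exact b2.1 d3
        · simp [b3] at d1
      exact ⟨fun hd => ⟨k, rfl, (a1 _ this).symm.trans (a1 _ hd)⟩, fun ⟨k', d1, d2⟩ => by
        rwa [← d2, ← Nat.cast_injective d1]⟩
  · rintro ⟨x, σ, m, α, β⟩ ⟨a1, a2⟩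
    let w : ℕ ⊕ ℕ ⊕ ℕ × ℕ ⊕ ℕ ⊕ Bool → Bool := Sum.elim x (Sum.elim (j x) (Sum.elim (uncurry σ)
      (Sum.elim (fun i => decide (m = i)) fun b => bif b then α x else β σ)))
    obtain ⟨u, hu⟩ := exists_branch (extend e w fun _ => false)
    have h0 : ∀ᶠ n in (u.1 : Filter ℕ), Fol e n w := hu.mono fun n hn i hi => by
      rw [hn _ hi, Encodable.encode_injective.extend_apply]
    have h1 : ∀ i, ∀ᶠ n in (u.1 : Filter ℕ), n.testBit (e i) = w i := fun i => by
      filter_upwards [h0, ev_lev u (e i + 1)] with n b1 b2 using b1 i b2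
    have h2 : ∀ i, Tendsto (fun n : ℕ => n.testBit (e i)) u.1 (𝓝 (w i)) := fun i =>
      tendsto_const_nhds.congr' ((h1 i).mono fun _ => Eq.symm)
    have h3 : ∀ᶠ n in (u.1 : Filter ℕ), kk n = m := by
      induction m using ENat.recTopCoe with
      | top =>
        filter_upwards [h0] with n b1
        refine sInf_eq_top.2 ?_
        rintro _ ⟨i, ⟨d1, d2⟩, rfl⟩
        simpa [w] using (b1 _ d1).symm.trans d2
      | coe k =>
        filter_upwards [h0, ev_lev u (c4 k + 1)] with n b1 b2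
        refine le_antisymm (sInf_le ⟨k, ⟨b2, (b1 _ b2).trans (by simp [w])⟩, rfl⟩) (le_sInf ?_)
        rintro _ ⟨i, ⟨d1, d2⟩, rfl⟩
        exact le_of_eq (by simpa [w] using (b1 _ d1).symm.trans d2)
    have h4 : ∀ (g : ℕ → Prop) [DecidablePred g] (b : Bool), (b = true → ∀ᶠ n in (u.1 : Filter ℕ), g n) →
        ((∀ᶠ n in (u.1 : Filter ℕ), g n) → b = true) →
        Tendsto (fun n => decide (g n)) u.1 (𝓝 b) := fun g _ b b1 b2 => by
      refine tendsto_const_nhds.congr' ?_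
      cases b
      · exact (Ultrafilter.eventually_not.2 (mt b2 (by simp))).mono fun n hn => by simp [hn]
      · exact (b1 rfl).mono fun n hn => by simp [hn]
    have t1 : Tendsto (fun (n : ℕ) i => n.testBit (c1 i)) u.1 (𝓝 x) :=
      tendsto_pi_nhds.2 fun i => h2 (.inl i)
    have h5 : ∀ d, α d = true → ∀ᶠ n in (u.1 : Filter ℕ), A d n := fun d hd => by
      obtain rfl := a1 d hd
      filter_upwards [h0, h1 (.inr (.inr (.inr (.inr true))))] with n b1 b2
      exact ⟨b2.trans hd, fun i => b1 (.inl i), fun i => b1 (.inr (.inl i))⟩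
    refine ⟨u, t1.prodMk_nhds ((tendsto_pi_nhds.2 fun a => tendsto_pi_nhds.2 fun b =>
      h2 (.inr (.inr (.inl (a, b))))).prodMk_nhds ((tendsto_const_nhds.congr'
        (h3.mono fun _ => Eq.symm)).prodMk_nhds ((tendsto_pi_nhds.2 fun d =>
          h4 _ _ (h5 d) fun b1 => ?_).prodMk_nhds
            (tendsto_pi_nhds.2 fun τ => h4 _ _ (fun hτ => ?_) fun b1 => ?_))))⟩
    · obtain rfl : x = d := Fol.eq (b1.mono fun n hn => hn.2.1) t1
      obtain ⟨n, b2, b3⟩ := (b1.and (h1 (.inr (.inr (.inr (.inr true)))))).exists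
      exact b3.symm.trans b2.1
    · obtain ⟨rfl, d2, d3⟩ := a2 τ hτ
      have : ∀ᶠ n in (u.1 : Filter ℕ), (∃ k : ℕ, kk n = k ∧ (∀ i < f σ k, c2 i < lev n) ∧
          A (σ k) n) ∨ kk n = ⊤ ∧ n.testBit (c5 true) = false := by
        induction m using ENat.recTopCoe with
        | top =>
          filter_upwards [h3, h1 (.inr (.inr (.inr (.inr true))))] with n b1 b2
          exact Or.inr ⟨b1, b2.trans (by simpa [w] using d3 x)⟩
        | coe k =>
          filter_upwards [h3, h5 _ ((d3 _).2 ⟨k, rfl, rfl⟩), (eventually_all_finite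
            (finite_lt_nat (f σ k))).2 fun i _ => ev_lev u (c2 i + 1)] with n b1 b2 b3
          exact Or.inl ⟨k, b1, b3, b2⟩
      filter_upwards [h0, h1 (.inr (.inr (.inr (.inr false)))), this] with n b1 b2 b3
      exact ⟨b2.trans hτ, d2, fun i => b1 (.inr (.inr (.inl i))), b3⟩
    · obtain rfl : σ = τ := uncurry_injective (Fol.eq (b1.mono fun n hn => hn.2.2.1)
        (tendsto_pi_nhds.2 fun i => h2 (.inr (.inr (.inl i)))))
      obtain ⟨n, b2, b3⟩ := (b1.and (h1 (.inr (.inr (.inr (.inr false)))))).exists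
      exact b3.symm.trans b2.1

end Pool.Agent.P.MP_b49e67_gt
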