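import Pool.Agent.P.MP_b49e67_gt.K3B

/-! The space `K3` is a pointwise compact set of functions of the first Baire class. -/

open Set Filter Topology Function

namespace Pool.Agent.P.MP_b49e67_gt

theorem baire_point {P : Type} [TopologicalSpace P] [PolishSpace P] (a : P → Bool) (x : P)
    (h : ∀ d, a d = true → x = d) : ∃ f : ℕ → P → ℝ, (∀ n, Continuous (f n)) ∧
      ∀ p, Tendsto (fun n => f n p) atTop (𝓝 (bif a p then 1 else 0)) := by
  let _ := TopologicalSpace.upgradeIsCompletelyMetrizable P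
  refine ⟨fun n p => (bif a x then 1 else 0) * max 0 (1 - n * dist p x), fun n => by fun_prop,
    fun p => ?_⟩
  by_cases e : x = p
  · simp [e]
  · have : a p = false := by simpa using mt (h p) e
    rw [this]
    refine tendsto_const_nhds.congr' ?_
    filter_upwards [(tendsto_natCast_atTop_atTop.atTop_mul_const
      (dist_pos.2 (Ne.symm e))).eventually_ge_atTop 1] with n hn
    simp [max_eq_left (sub_nonpos.2 hn)]

theorem rosenthal_K3 : Rosenthal K3 := by
  classical
  let v : Bool → ℝ := fun b => bif b then 1 else 0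
  have hv : Injective v := fun a b => by cases a <;> cases b <;> simp [v]
  have cv : Continuous v := continuous_of_discreteTopology
  let e : K3 → (ℕ ⊕ ℕ × ℕ ⊕ ℕ) ⊕ (ℕ → Bool) ⊕ (ℕ → ℕ → Bool) → ℝ := fun z =>
    Sum.elim (fun i => v (Sum.elim z.1.1 (Sum.elim (uncurry z.1.2.1)
      fun k : ℕ => decide (z.1.2.2.1 = k)) i)) (Sum.elim (v ∘ z.1.2.2.2.1) (v ∘ z.1.2.2.2.2))
  have p1 : PolishSpace (ℕ → Bool) := {}
  have p2 : PolishSpace (ℕ → ℕ → Bool) := {}
  have p3 : PolishSpace ((ℕ ⊕ ℕ × ℕ ⊕ ℕ) ⊕ (ℕ → Bool) ⊕ (ℕ → ℕ → Bool)) := {}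
  refine ⟨_, inferInstance, p3, e, (Continuous.isClosedEmbedding (continuous_pi ?_)
    ?_).isEmbedding, fun z => ?_⟩
  · rintro ((i | ⟨a, b⟩ | k) | d | τ)
    · exact cv.comp (f := fun z : K3 => z.1.1 i) (by fun_prop)
    · exact cv.comp (f := fun z : K3 => z.1.2.1 a b) (by fun_prop)
    · refine cv.comp (((continuous_bool_rng (f := fun n : ℕ∞ => decide (n = k)) true).2 ?_).comp
        (f := fun z : K3 => z.1.2.2.1) (by fun_prop))
      rw [show (fun n : ℕ∞ => decide (n = k)) ⁻¹' {true} = {(k : ℕ∞)} by ext; simp]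
      exact ⟨isClosed_singleton, ENat.isOpen_singleton (by simp)⟩
    · exact cv.comp (f := fun z : K3 => z.1.2.2.2.1 d) (by fun_prop)
    · exact cv.comp (f := fun z : K3 => z.1.2.2.2.2 τ) (by fun_prop)
  · intro z y h
    refine Subtype.ext (Prod.ext (funext fun i => hv (congrFun h (.inl (.inl i))))
      (Prod.ext (funext₂ fun a b => hv (congrFun h (.inl (.inr (.inl (a, b)))))) (Prod.ext ?_
        (Prod.ext (funext fun d => hv (congrFun h (.inr (.inl d))))
          (funext fun τ => hv (congrFun h (.inr (.inr τ))))))))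
    have : ∀ k : ℕ, z.1.2.2.1 = k ↔ y.1.2.2.1 = k := fun k =>
      decide_eq_decide.1 (hv (congrFun h (.inl (.inr (.inr k)))))
    generalize z.1.2.2.1 = m at this ⊢
    generalize y.1.2.2.1 = n at this ⊢
    induction m using ENat.recTopCoe with
    | top =>
      induction n using ENat.recTopCoe with
      | top => rfl
      | coe k => exact (this k).2 rfl
    | coe k => exact ((this k).1 rfl).symm
  · obtain ⟨f, f1, f2⟩ := baire_point _ _ z.2.1
    obtain ⟨g, g1, g2⟩ := baire_point _ _ fun τ h => (z.2.2 τ h).1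
    refine ⟨fun n => Sum.elim (fun i => e z (.inl i)) (Sum.elim (f n) (g n)), fun n =>
      continuous_of_discreteTopology.sumElim ((f1 n).sumElim (g1 n)), ?_⟩
    rintro (i | d | τ)
    exacts [tendsto_const_nhds, f2 d, g2 τ]

end Pool.Agent.P.MP_b49e67_gt
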