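import Pool.Agent.P.MP_b49e67_gt.Defs

namespace Pool.Agent.P.MP_b49e67_gt

/-- The set of all `(x, σ, n, α, β)` such that `α d = true` only for `d = x`, and `β τ = true` only
if `τ = σ` is injective and `α d = true` exactly when `n` is finite and `τ n = d`. -/
def K3 : Set ((ℕ → Bool) × (ℕ → ℕ → Bool) × ℕ∞ × ((ℕ → Bool) → Bool) × ((ℕ → ℕ → Bool) → Bool)) :=
  {(x, σ, n, α, β) | (∀ d, α d = true → x = d) ∧ ∀ τ, β τ = true →
    σ = τ ∧ Function.Injective τ ∧ ∀ d, α d = true ↔ ∃ k : ℕ, n = k ∧ τ k = d}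

/-- `K` embeds into the space of real functions on a Polish space, with the topology of pointwise
convergence, as a set of pointwise limits of sequences of continuous functions -/
def Rosenthal (K : Type) [TopologicalSpace K] : Prop :=
  ∃ (P : Type) (_ : TopologicalSpace P) (_ : PolishSpace P) (e : K → P → ℝ),
    Topology.IsEmbedding e ∧ ∀ k, ∃ f : ℕ → P → ℝ, (∀ n, Continuous (f n)) ∧
      ∀ p, Filter.Tendsto (fun n => f n p) Filter.atTop (nhds (e k p))

end Pool.Agent.P.MP_b49e67_gt
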