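import Pool.Agent.P.MP_b49e67_gt.Base

/-!
The ultrafilter lemma in the extension, and compactness of the space of free ultrafilters there.
-/

open Set Filter Pool.Agent.Lib.Helper87 Pool.Agent.P.MP_6e1b89_gt

namespace Pool.Agent.P.MP_b49e67_gt

variable {P : Type} [Preorder P]

theorem meas_fin {α : Type} (E : Finset α) {Φ : α → World P → Prop}
    (h : ∀ a, Measurable (Φ a)) : Measurable fun w => ∀ a ∈ E, Φ a w := by
  have := Measurable.forall fun a : E => h a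
  simpa only [Subtype.forall] using this

theorem ev_in_fin (α : Type) :
    ∀ᶠ w in gen P, ∀ E : Finset α, w.In E ↔ ∀ a ∈ E, w.In a := by
  filter_upwards [ev_all_finset fun E : Finset α => ev_const (P := P) E,
    ev_all fun E : Finset α => ev_countable_set (P := P) E.countable_toSet] with w h1 h2 E
  exact ⟨h2 E, h1 E⟩

theorem ms_iInter (E : Finset (ℕ → Set P)) : MS fun w => ⋂ e ∈ E, rval w e := fun n => by
  simpa only [mem_iInter] using meas_fin E fun e => ms_rval e n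

/-- the subsets of the natural numbers lying in `M` form an algebra -/
def Alg (M : Set ZFSet.{0}) : Prop :=
  cSet cNat ∅ ∈ M ∧ (∀ A, cSet cNat A ∈ M → cSet cNat Aᶜ ∈ M) ∧
    ∀ A, cSet cNat A ∈ M → ∀ B, cSet cNat B ∈ M → cSet cNat (A ∩ B) ∈ M

theorem ev_alg : ∀ᶠ w in gen P, Alg w.M := by
  filter_upwards [MS.ev_mem (P := P) (A := fun _ => ∅) fun _ => measurable_const,
    ev_all_ms (P := P) (Φ := fun A w => cSet cNat Aᶜ ∈ w.M) fun A hA => hA.compl.ev_mem,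
    ev_all_ms (P := P) (Φ := fun A w => ∀ B, cSet cNat B ∈ w.M → cSet cNat (A ∩ B) ∈ w.M)
      fun A hA => ev_all_ms (Φ := fun B w => cSet cNat (A w ∩ B) ∈ w.M)
        fun B hB => (hA.inter hB).ev_mem] with w h1 h2 h3 using ⟨h1, h2, h3⟩

theorem Alg.iInter {M : Set ZFSet.{0}} (h : Alg M) (E : Finset (Set ℕ))
    (hE : ∀ A ∈ E, cSet cNat A ∈ M) : cSet cNat (⋂ A ∈ E, A) ∈ M := by
  classical
  induction E using Finset.induction_on with
  | empty => simpa using h.2.1 _ h.1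
  | insert a s _ ih =>
    rw [Finset.set_biInter_insert]
    exact h.2.2 _ (hE a (Finset.mem_insert_self _ _)) _
      (ih fun A hA => hE A (Finset.mem_insert_of_mem hA))

theorem Alg.iInter_mem {M : Set ZFSet.{0}} (h : Alg M) {u : Set (Set ℕ)} (hu : u ∈ StarIn M)
    (E : Finset (Set ℕ)) (hE : ∀ A ∈ E, A ∈ u) : (⋂ A ∈ E, A) ∈ u := by
  classical
  induction E using Finset.induction_on with
  | empty => simpa using (hu.2.2.2.2 _ h.1).resolve_left fun a => hu.2.1 _ a finite_empty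
  | insert a s _ ih =>
    rw [Finset.set_biInter_insert]
    exact hu.2.2.1 _ (hE a (Finset.mem_insert_self _ _)) _
      (ih fun A hA => hE A (Finset.mem_insert_of_mem hA))

theorem star_not {M : Set ZFSet.{0}} {u : Set (Set ℕ)} (hu : u ∈ StarIn M) {A : Set ℕ}
    (h : A ∈ u) (h' : Aᶜ ∈ u) : False :=
  hu.2.1 _ (hu.2.2.1 _ h _ h') (by simp)

/-- the ultrafilter lemma -/
theorem ev_extend {F : Set ℕ → World P → Prop}
    (hF : ∀ A, MS A → Measurable fun w => F (A w) w) :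
    ∀ᶠ w in gen P, (∀ E : Finset (Set ℕ), (∀ A ∈ E, cSet cNat A ∈ w.M ∧ F A w) →
      (⋂ A ∈ E, A).Infinite) → ∃ u ∈ StarIn w.M, ∀ A, cSet cNat A ∈ w.M → F A w → A ∈ u := by
  classical
  let S : ∀ b : ℕ → Set P, (∀ e, WellOrderingRel e b → World P → Prop) → World P → Prop :=
    fun b rc w => ∀ E : Finset (ℕ → Set P), w.In E →
      (∀ e ∈ E, F (rval w e) w ∨ ∃ h : WellOrderingRel e b, rc e h w) →
      (rval w b ∩ ⋂ e ∈ E, rval w e).Infinite
  let Φ : (ℕ → Set P) → World P → Prop := (IsWellFounded.wf (r := WellOrderingRel)).fix S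
  have hΦ : ∀ b w, Φ b w ↔ ∀ E : Finset (ℕ → Set P), w.In E →
      (∀ e ∈ E, F (rval w e) w ∨ WellOrderingRel e b ∧ Φ e w) →
      (rval w b ∩ ⋂ e ∈ E, rval w e).Infinite := fun b w => by
    change (IsWellFounded.wf (r := WellOrderingRel)).fix S b w ↔ _
    rw [WellFounded.fix_eq]
    simp only [S, exists_prop]
    rfl
  have hm : ∀ b, Measurable (Φ b) := fun b => by
    induction b using (IsWellFounded.wf (r := WellOrderingRel)).induction with
    | _ b ih =>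
    have : Φ b = _ := funext fun w => propext (hΦ b w)
    rw [this]
    refine measurable_all_in fun E => (meas_fin E fun e => (hF _ (ms_rval e)).or ?_).imp
      ((ms_rval b).inter (ms_iInter E)).meas_infinite
    by_cases h : WellOrderingRel e b
    · exact measurable_const.and (ih e h)
    · simp [h]
  let Ψ : Set ℕ → World P → Prop := fun A w => ∃ E : Finset (ℕ → Set P), w.In E ∧
    (∀ e ∈ E, F (rval w e) w ∨ Φ e w) ∧ ¬ (Aᶜ ∩ ⋂ e ∈ E, rval w e).Infinite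
  let u : World P → Set (Set ℕ) := fun w => {A | cSet cNat A ∈ w.M ∧ Ψ A w}
  have hu : Named fun w => cSet (cSet cNat) (u w) := by
    refine named_cSet (c := fun _ => cSet cNat) (g := fun b w => rval w b)
      (fun b => (ms_rval b).named) (Φ := fun b w => Ψ (rval w b) w)
      (fun b => measurable_ex_in fun E => (meas_fin E fun e => (hF _ (ms_rval e)).or (hm e)).and
        ((ms_rval b).compl.inter (ms_iInter E)).meas_infinite.not) ?_
    filter_upwards [ev_exists_rval, ev_rval_mem] with w h1 h2 A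
    refine ⟨fun h => ?_, ?_⟩
    · obtain ⟨b, a1, rfl⟩ := h1 A h.1
      exact ⟨b, a1, h.2, rfl⟩
    · rintro ⟨b, a1, a2, rfl⟩
      exact ⟨h2 b a1, a2⟩
  filter_upwards [hu.ev_mem, ev_exists_rval, ev_rval_mem, ev_alg, ev_in_fin (ℕ → Set P)]
    with w h1 h2 h3 h4 h5 h6
  have key : ∀ E : Finset (ℕ → Set P), w.In E → (∀ e ∈ E, F (rval w e) w ∨ Φ e w) →
      (⋂ e ∈ E, rval w e).Infinite := fun E a1 a2 => by
    by_cases h : ∃ e ∈ E, ¬ F (rval w e) w
    · obtain ⟨b, b1, b2⟩ := (E.filter fun e => ¬ F (rval w e) w).exists_max_image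
        embeddingToCardinal (let ⟨e, c1, c2⟩ := h; ⟨e, Finset.mem_filter.2 ⟨c1, c2⟩⟩)
      rw [Finset.mem_filter] at b1
      refine ((hΦ b w).1 ((a2 b b1.1).resolve_left b1.2) (E.erase b)
        ((h5 _).2 fun e he => (h5 E).1 a1 e (Finset.mem_of_mem_erase he)) fun e he => ?_).mono ?_
      · rw [Finset.mem_erase] at he
        by_cases c : F (rval w e) w
        · exact Or.inl c
        · exact Or.inr ⟨lt_of_le_of_ne (b2 e (Finset.mem_filter.2 ⟨he.2, c⟩))
            (embeddingToCardinal.injective.ne he.1), (a2 e he.2).resolve_left c⟩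
      · refine fun n hn => mem_iInter₂.2 fun e he => ?_
        by_cases c : e = b
        exacts [c ▸ hn.1, mem_iInter₂.1 hn.2 e (Finset.mem_erase.2 ⟨c, he⟩)]
    · push Not at h
      have := h6 (E.image (rval w)) fun A hA => by
        obtain ⟨e, c, rfl⟩ := Finset.mem_image.1 hA
        exact ⟨h3 e ((h5 E).1 a1 e c), h e c⟩
      rwa [Finset.set_biInter_finset_image] at this
  have one : ∀ b, w.In b → F (rval w b) w ∨ Φ b w → rval w b ∈ u w := fun b b1 b2 =>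
    ⟨h3 b b1, {b}, (h5 _).2 (by simpa using b1), by simpa using b2, by simp⟩
  refine ⟨u w, ⟨h1, ?_, ?_, ?_, fun A hA => ?_⟩, fun A a1 a2 => ?_⟩
  · rintro A ⟨-, E, a1, a2, a3⟩ hA
    exact key E a1 a2 ((hA.union (not_infinite.1 a3)).subset fun n hn => by
      by_cases c : n ∈ A
      exacts [Or.inl c, Or.inr ⟨c, hn⟩])
  · rintro A ⟨a0, E, a1, a2, a3⟩ B ⟨b0, E', b1, b2, b3⟩
    refine ⟨h4.2.2 _ a0 _ b0, E ∪ E', (h5 _).2 fun e he =>
      (Finset.mem_union.1 he).elim ((h5 E).1 a1 e) ((h5 E').1 b1 e),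
      fun e he => (Finset.mem_union.1 he).elim (a2 e) (b2 e), not_infinite.2
        (((not_infinite.1 a3).union (not_infinite.1 b3)).subset fun n hn => ?_)⟩
    rw [Finset.set_biInter_inter] at hn
    by_cases c : n ∈ A
    exacts [Or.inr ⟨fun d => hn.1 ⟨c, d⟩, hn.2.2⟩, Or.inl ⟨c, hn.2.1⟩]
  · rintro A ⟨-, E, a1, a2, a3⟩ B b0 hAB
    exact ⟨b0, E, a1, a2, fun c => a3 (c.mono fun n hn => ⟨fun d => hn.1 (hAB d), hn.2⟩)⟩
  · obtain ⟨b, b1, rfl⟩ := h2 A hA
    by_cases c : Φ b w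
    · exact Or.inl (one b b1 (Or.inr c))
    · rw [hΦ] at c
      push Not at c
      obtain ⟨E, c1, c2, c3⟩ := c
      exact Or.inr ⟨h4.2.1 _ hA, E, c1, fun e he => (c2 e he).imp id And.right,
        by simpa using c3⟩
  · obtain ⟨b, b1, rfl⟩ := h2 A a1
    exact one b b1 (Or.inl a2)

theorem ev_exists_star : ∀ᶠ w in gen P, ∀ A, cSet cNat A ∈ w.M → A.Infinite →
    ∃ u ∈ StarIn w.M, A ∈ u := by
  refine ev_all_ms (Φ := fun A w => A.Infinite → ∃ u ∈ StarIn w.M, A ∈ u) fun A hA => ?_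
  filter_upwards [ev_extend (F := fun B w => B = A w) fun B hB => hB.meas_eq hA, hA.ev_mem]
    with w h1 h2 h3
  obtain ⟨u, a1, a2⟩ := h1 fun E hE => h3.mono (subset_iInter₂ fun B hB => (hE B hB).2.superset)
  exact ⟨u, a1, a2 _ h2 rfl⟩

/-- named families of subsets of the natural numbers -/
def MU (u : World P → Set (Set ℕ)) : Prop := Named fun w => cSet (cSet cNat) (u w)

theorem MU.meas_mem {u : World P → Set (Set ℕ)} (h : MU u) {A : World P → Set ℕ} (hA : MS A) :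
    Measurable fun w => A w ∈ u w := by
  simpa only [mem_cSet_inj (cSet_inj cNat_inj)] using hA.named.measurable_mem h

theorem ev_mem_of_mem : ∀ᶠ w in gen P, ∀ u : Set (Set ℕ), cSet (cSet cNat) u ∈ w.M →
    ∀ A ∈ u, cSet cNat A ∈ w.M :=
  ev_trans.mono fun _ h _ hu A hA => h _ hu _ (mem_cSet.2 ⟨A, hA, rfl⟩)

theorem MU.meas_star {u : World P → Set (Set ℕ)} (h : MU u) :
    Measurable fun w => u w ∈ StarIn w.M := by
  refine ((meas_all_ms (Φ := fun A w => A ∈ u w → A.Infinite) fun A hA =>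
      (h.meas_mem hA).imp hA.meas_infinite).and
    ((meas_all_ms (Φ := fun A w => A ∈ u w → ∀ B, cSet cNat B ∈ w.M → B ∈ u w → A ∩ B ∈ u w)
      fun A hA => (h.meas_mem hA).imp (meas_all_ms (Φ := fun B w => B ∈ u w → A w ∩ B ∈ u w)
        fun B hB => (h.meas_mem hB).imp (h.meas_mem (hA.inter hB)))).and
    ((meas_all_ms (Φ := fun A w => A ∈ u w → ∀ B, cSet cNat B ∈ w.M → A ⊆ B → B ∈ u w)
      fun A hA => (h.meas_mem hA).imp (meas_all_ms (Φ := fun B w => A w ⊆ B → B ∈ u w)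
        fun B hB => (Measurable.forall fun n => (hA n).imp (hB n)).imp (h.meas_mem hB))).and
    (meas_all_ms (Φ := fun A w => A ∈ u w ∨ Aᶜ ∈ u w)
      fun A hA => (h.meas_mem hA).or (h.meas_mem hA.compl))))).congr_ev ?_
  filter_upwards [h.ev_mem, ev_mem_of_mem] with w h1 h2
  have h3 := h2 _ h1
  exact ⟨fun a => ⟨fun A _ => a.2.1 A, fun A _ b B _ => a.2.2.1 A b B, fun A _ => a.2.2.2.1 A,
    a.2.2.2.2⟩, fun a => ⟨h1, fun A b => a.1 A (h3 A b) b,
      fun A b B c => a.2.1 A (h3 A b) b B (h3 B c) c, fun A b => a.2.2.1 A (h3 A b) b, a.2.2.2⟩⟩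

/-- values of nice names of families -/
def uval (w : World P) (δ : (ℕ → Set P) → Set P) : Set (Set ℕ) :=
  {A | ∃ c, w.In c ∧ w.Hit (δ c) ∧ rval w c = A}

theorem mu_uval (δ : (ℕ → Set P) → Set P) : MU fun w => uval w δ :=
  named_cSet (c := fun _ => cSet cNat) (g := fun b w => rval w b) (fun b => (ms_rval b).named)
    (fun _ => measurable_hit _) (Eventually.of_forall fun _ _ => Iff.rfl)

theorem ev_exists_uval : ∀ᶠ w in gen P, ∀ u : Set (Set ℕ), cSet (cSet cNat) u ∈ w.M →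
    ∃ δ, w.In δ ∧ uval w δ = u := by
  have : ∀ᶠ w in gen P, ∀ z ∈ w.M, ∃ δ : (ℕ → Set P) → Set P, w.In δ ∧
      ∀ c, w.In c → (w.Hit (δ c) ↔ cSet cNat (rval w c) ∈ z) := ev_all_named fun z hz => by
    filter_upwards [ev_const fun c => {p | Sem p fun w => cSet cNat (rval w c) ∈ z w},
      ev_all fun c => ev_hit_sem ((ms_rval c).named.measurable_mem hz)] with w h1 h2
      using ⟨_, h1, h2⟩
  filter_upwards [this, ev_mem_of_mem, ev_exists_rval] with w h1 h2 h3 u hu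
  obtain ⟨δ, a1, a2⟩ := h1 _ hu
  refine ⟨δ, a1, Subset.antisymm ?_ fun A hA => ?_⟩
  · rintro _ ⟨c, b1, b2, rfl⟩
    exact (mem_cSet_inj (cSet_inj cNat_inj)).1 ((a2 c b1).1 b2)
  · obtain ⟨c, b1, rfl⟩ := h3 A (h2 u hu A hA)
    exact ⟨c, b1, (a2 c b1).2 (mem_cSet.2 ⟨_, hA, rfl⟩), rfl⟩

theorem ev_all_star {Φ : Set (Set ℕ) → World P → Prop}
    (h : ∀ u, MU u → ∀ᶠ w in gen P, Φ (u w) w) : ∀ᶠ w in gen P, ∀ u ∈ StarIn w.M, Φ u w := by
  filter_upwards [ev_exists_uval, ev_all fun δ => h _ (mu_uval δ)] with w h1 h2 u hu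
  obtain ⟨δ, a1, rfl⟩ := h1 u hu.1
  exact h2 δ a1

theorem meas_all_star {Φ : Set (Set ℕ) → World P → Prop}
    (h : ∀ u, MU u → Measurable fun w => Φ (u w) w) :
    Measurable fun w => ∀ u ∈ StarIn w.M, Φ u w := by
  refine (measurable_all_in fun δ => (mu_uval δ).meas_star.imp (h _ (mu_uval δ))).congr_ev
    (ev_exists_uval.mono fun w h1 => ⟨fun a δ _ => a _, fun a u hu => ?_⟩)
  obtain ⟨δ, a1, rfl⟩ := h1 u hu.1
  exact a δ a1 hu

theorem exists_rep_in {E : Set (Set ℕ) → World P → Prop}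
    (hE : ∀ u : World P → Set (Set ℕ), (Named fun w => cSet (cSet cNat) (u w)) →
      Measurable fun w => E (u w) w) :
    ∃ A : World P → Set ℕ, MS A ∧ ∀ᶠ w in gen P,
      (∀ u ∈ StarIn w.M, ∃ B ∈ u, ∀ v ∈ StarIn w.M, B ∈ v → (E v w ↔ E u w)) →
      ∀ u ∈ StarIn w.M, (A w ∈ u ↔ E u w) := by
  classical
  obtain ⟨Ψ, h1, h2, h3, h4⟩ := exists_choice (P := P)
    (Φ := fun c w => ∀ u ∈ StarIn w.M, (rval w c ∈ u ↔ E u w))
    fun c => meas_all_star (Φ := fun u w => rval w c ∈ u ↔ E u w)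
      fun u hu => (hu.meas_mem (ms_rval c)).iff (hE u hu)
  refine ⟨fun w => {n | ∃ c, w.In c ∧ Ψ c w ∧ n ∈ rval w c},
    fun n => measurable_ex_in fun c => (h1 c).and (ms_rval c n), ?_⟩
  filter_upwards [ev_extend (P := P) (F := fun B w => (∀ v ∈ StarIn w.M, Bᶜ ∈ v → E v w) ∨
      ∀ v ∈ StarIn w.M, Bᶜ ∈ v → ¬ E v w) fun B hB =>
      (meas_all_star (Φ := fun v w => (B w)ᶜ ∈ v → E v w)
        fun v hv => (hv.meas_mem hB.compl).imp (hE v hv)).or
      (meas_all_star (Φ := fun v w => (B w)ᶜ ∈ v → ¬ E v w)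
        fun v hv => (hv.meas_mem hB.compl).imp (hE v hv).not),
    ev_alg, ev_mem_of_mem, ev_exists_rval] with w a1 a2 a3 a4 a5
  have : ∃ S : Finset (Set ℕ), (∀ B ∈ S, cSet cNat B ∈ w.M ∧
      ((∀ v ∈ StarIn w.M, Bᶜ ∈ v → E v w) ∨ ∀ v ∈ StarIn w.M, Bᶜ ∈ v → ¬ E v w)) ∧
      (⋂ B ∈ S, B).Finite := by
    by_contra hc
    push Not at hc
    obtain ⟨u, b1, b2⟩ := a1 hc
    obtain ⟨B, c1, c2⟩ := a5 u b1
    refine star_not b1 c1 (b2 _ (a2.2.1 _ (a3 u b1.1 B c1)) ?_)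
    rw [compl_compl]
    by_cases e : E u w
    exacts [Or.inl fun v d1 d2 => (c2 v d1 d2).2 e, Or.inr fun v d1 d2 d3 => e ((c2 v d1 d2).1 d3)]
  obtain ⟨S, b1, b2⟩ := this
  let S' := S.filter fun B => ∀ v ∈ StarIn w.M, Bᶜ ∈ v → E v w
  have c0 := a2.iInter S' fun B hB => (b1 B (Finset.mem_filter.1 hB).1).1
  obtain ⟨c, c1, c2⟩ := a4 _ (a2.2.1 _ c0)
  obtain ⟨j, d1, d2⟩ := h3 w ⟨c, c1, fun u hu => by
    rw [c2]
    refine ⟨fun e => by_contra fun e' => star_not hu (a2.iInter_mem hu S' fun B hB => ?_) e,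
      fun e => (hu.2.2.2.2 _ c0).resolve_left fun e' => hu.2.1 _ (a2.iInter_mem hu S fun B hB => ?_) b2⟩
    · rw [Finset.mem_filter] at hB
      exact (hu.2.2.2.2 B (b1 B hB.1).1).resolve_right fun f => e' (hB.2 u hu f)
    · rcases (b1 B hB).2 with f | f
      · exact hu.2.2.2.1 _ e' B (b1 B hB).1
          fun n hn => mem_iInter₂.1 hn B (Finset.mem_filter.2 ⟨hB, f⟩)
      · exact (hu.2.2.2.2 B (b1 B hB).1).resolve_right fun g => f u hu g e⟩
  have : {n | ∃ c, w.In c ∧ Ψ c w ∧ n ∈ rval w c} = rval w j :=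
    Subset.antisymm (fun n ⟨j', e1, e2, e3⟩ => h4 w j' j e1 d1 e2 d2 ▸ e3) fun n e => ⟨j, d1, d2, e⟩
  rw [this]
  exact h2 j w d2

end Pool.Agent.P.MP_b49e67_gt
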