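import Pool.Agent.P.MP_b49e67_gt.Star

/-! Compacta of degree at most two are continuous images of the space of free ultrafilters. -/

open Set Filter Topology Function

namespace Pool.Agent.P.MP_b49e67_gt

/-- the point of the Cantor set attached to an ultrafilter -/
noncomputable def gg (u : NStar) : ℕ → Bool := fun i => lim u (i + 1)

theorem continuous_gg : Continuous gg :=
  continuous_pi fun i => (continuous_apply (i + 1)).comp continuous_lim

/-- the point of the Cantor set attached to a node -/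
def ps (n : ℕ) : ℕ → Bool := fun i => n.testBit (i + 1)

theorem exists_set (H : Set (ℕ → Bool)) (hH : IsClosed H) (a : Set (ℕ → Bool) → Set ℕ) :
    ∃ A : Set ℕ, (∀ u : NStar, gg u ∉ H → ∃ m, Disjoint (PiNat.cylinder (gg u) m) H ∧
      (A ∈ u.1 ↔ a (PiNat.cylinder (gg u) m) ∈ u.1)) ∧
      ∀ x ∈ H, ∀ b : Bool, ∃ u : NStar, gg u = x ∧ (A ∈ u.1 ↔ b = true) := by
  classical
  let ok : (ℕ → Bool) → Set ℕ := fun x => {m | Disjoint (PiNat.cylinder x m) H}
  refine ⟨{n | if ∃ m ∈ ok (ps n), m < lev n then n ∈ a (PiNat.cylinder (ps n) (sInf (ok (ps n))))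
    else n.testBit 0 = true}, fun u hu => ?_, fun x hx b => ?_⟩
  · obtain ⟨_, ⟨y, m, rfl⟩, h1, h2⟩ :=
      (PiNat.isTopologicalBasis_cylinders fun _ : ℕ => Bool).exists_subset_of_mem_open
        (show gg u ∈ Hᶜ from hu) hH.isOpen_compl
    have h3 : (ok (gg u)).Nonempty :=
      ⟨m, by
        change Disjoint _ _
        rw [PiNat.mem_cylinder_iff_eq.1 h1]
        exact disjoint_left.2 h2⟩
    refine ⟨sInf (ok (gg u)), Nat.sInf_mem h3, ?_⟩
    refine Filter.eventually_congr (f := (u.1 : Filter ℕ)) ?_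
    filter_upwards [ev_lim_lt u (sInf (ok (gg u)) + 1), ev_lev u (sInf (ok (gg u)) + 1)]
      with n h4 h5
    have h6 : ∀ m ≤ sInf (ok (gg u)), PiNat.cylinder (ps n) m = PiNat.cylinder (gg u) m :=
      fun m hm => PiNat.mem_cylinder_iff_eq.1 fun i hi => h4 (i + 1) (by omega)
    have h7 : sInf (ok (gg u)) ∈ ok (ps n) := by
      change Disjoint _ _
      rw [h6 _ le_rfl]
      exact Nat.sInf_mem h3
    have h8 : sInf (ok (ps n)) = sInf (ok (gg u)) := by
      refine le_antisymm (Nat.sInf_le h7) (Nat.sInf_le ?_)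
      change Disjoint _ _
      rw [← h6 _ (Nat.sInf_le h7)]
      exact Nat.sInf_mem (s := ok (ps n)) ⟨_, h7⟩
    change (if _ then _ else _) ↔ _
    rw [if_pos ⟨_, h7, h5⟩, h8, h6 _ le_rfl]
    rfl
  · obtain ⟨u, hu⟩ := exists_branch fun i => Nat.casesOn i b x
    refine ⟨u, funext fun i => by rw [gg, lim_eq hu], ?_⟩
    have : ∀ᶠ n in (u.1 : Filter ℕ), (if ∃ m ∈ ok (ps n), m < lev n then
        n ∈ a (PiNat.cylinder (ps n) (sInf (ok (ps n)))) else n.testBit 0 = true) ↔ b = true := by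
      filter_upwards [hu, ev_lev u 1] with n h1 h2
      rw [if_neg, h1 0 h2]
      · rfl
      rintro ⟨m, h3, h4⟩
      exact disjoint_left.1 h3 (fun i hi => (h1 (i + 1) (by omega)).symm) hx
    exact (Filter.eventually_congr this).trans Filter.eventually_const

section core

variable {K : Type} [TopologicalSpace K] (f : K → ℕ → Bool)

/-- the relation given by a set of clopen sets with representatives -/
def Rel (S : Set (Set K × Set ℕ)) (u : NStar) (k : K) : Prop :=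
  f k = gg u ∧ ∀ p ∈ S, (k ∈ p.1 ↔ p.2 ∈ u.1)

/-- good sets of clopen sets with representatives -/
def Good (S : Set (Set K × Set ℕ)) : Prop :=
  (∀ p ∈ S, IsClopen p.1) ∧ (∀ u, ∃ k, Rel f S u k) ∧ ∀ k, ∃ u, Rel f S u k

variable {f}

theorem isClosed_rel (hf : Continuous f) {S : Set (Set K × Set ℕ)} (hS : ∀ p ∈ S, IsClopen p.1) :
    IsClosed {z : NStar × K | Rel f S z.1 z.2} := by
  have : {z : NStar × K | Rel f S z.1 z.2} = {z | f z.2 = gg z.1} ∩ ⋂ p ∈ S,
      ((Prod.snd ⁻¹' p.1 ∩ Prod.fst ⁻¹' {u : NStar | p.2 ∈ u.1}) ∪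
        ((Prod.snd ⁻¹' p.1)ᶜ ∩ (Prod.fst ⁻¹' {u : NStar | p.2 ∈ u.1})ᶜ)) := by
    ext z
    simp only [Rel, mem_ofPred_eq, mem_inter_iff, mem_iInter, mem_union, mem_preimage,
      mem_compl_iff, iff_iff_and_or_not_and_not]
  rw [this]
  refine (isClosed_eq (hf.comp continuous_snd) (continuous_gg.comp continuous_fst)).inter
    (isClosed_biInter fun p hp => IsClopen.isClosed ?_)
  have h1 := (hS p hp).preimage (continuous_snd (X := NStar))
  have h2 := (isClopen_star p.2).preimage (continuous_fst (Y := K))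
  exact (h1.inter h2).union (h1.compl.inter h2.compl)

theorem Good.step [CompactSpace K] (hf : Continuous f)
    (h2 : ∀ a b c, f a = f b → f a = f c → a = b ∨ a = c ∨ b = c)
    {S : Set (Set K × Set ℕ)} (hS : Good f S) {c : Set K} (hc : IsClopen c) :
    ∃ A, Good f (insert (c, A) S) := by
  have hE : ∀ d : Set K, IsClosed d → IsClosed {u | ∃ k ∈ d, Rel f S u k} := fun d hd => by
    have := isClosedMap_fst_of_compactSpace _
      ((isClosed_rel hf hS.1).inter (hd.preimage continuous_snd))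
    refine (congrArg IsClosed ?_).mp this
    ext u
    simp only [mem_image, mem_inter_iff, mem_ofPred_eq, mem_preimage, Prod.exists]
    exact ⟨fun ⟨_, k, h, e⟩ => ⟨k, h.2, e ▸ h.1⟩, fun ⟨k, h, h'⟩ => ⟨u, k, ⟨h', h⟩, rfl⟩⟩
  set E0 := {u | ∃ k ∈ c, Rel f S u k} with hE0
  set E1 := {u | ∃ k ∈ cᶜ, Rel f S u k} with hE1
  have c0 : IsClosed E0 := hE c hc.1
  have c1 : IsClosed E1 := hE cᶜ hc.compl.1
  set H := gg '' (E0 ∩ E1) with hH
  have cH : IsClosed H := ((c0.inter c1).isCompact.image continuous_gg).isClosed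
  have key : ∀ u, gg u ∈ H → u ∈ E0 ∧ u ∈ E1 ∧ ∀ k, f k = gg u → Rel f S u k := by
    rintro u ⟨v, ⟨⟨k0, a0, b0⟩, ⟨k1, a1, b1⟩⟩, e⟩
    have hne : k0 ≠ k1 := fun h => a1 (h ▸ a0)
    have hk : ∀ k, f k = gg u → k = k0 ∨ k = k1 := fun k hk => by
      rcases h2 k k0 k1 (by rw [hk, b0.1, e]) (by rw [hk, b1.1, e]) with h | h | h
      exacts [Or.inl h, Or.inr h, absurd h hne]
    obtain ⟨k, d⟩ := hS.2.1 u
    have d0 : Rel f S u k0 ∧ Rel f S u k1 := by
      rcases hk k d.1 with rfl | rfl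
      · exact ⟨d, b1.1.trans e, fun p hp => ((b1.2 p hp).trans (b0.2 p hp).symm).trans (d.2 p hp)⟩
      · exact ⟨⟨b0.1.trans e, fun p hp => ((b0.2 p hp).trans (b1.2 p hp).symm).trans (d.2 p hp)⟩, d⟩
    refine ⟨⟨k0, a0, d0.1⟩, ⟨k1, a1, d0.2⟩, fun k' hk' => ?_⟩
    rcases hk k' hk' with rfl | rfl
    exacts [d0.1, d0.2]
  have hsep : ∀ V : Set (ℕ → Bool), ∃ A : Set ℕ, IsClosed V → Disjoint V H →
      ∀ u : NStar, gg u ∈ V → (u ∈ E0 → A ∈ u.1) ∧ (u ∈ E1 → A ∉ u.1) := fun V => by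
    by_cases h : IsClosed V ∧ Disjoint V H
    · obtain ⟨A, a1, a2⟩ := sep_closed (c0.inter (h.1.preimage continuous_gg))
        (c1.inter (h.1.preimage continuous_gg))
        (disjoint_left.2 fun u a b => disjoint_left.1 h.2 a.2 ⟨u, ⟨a.1, b.1⟩, rfl⟩)
      exact ⟨A, fun _ _ u hu => ⟨fun h => a1 u ⟨h, hu⟩, fun h => a2 u ⟨h, hu⟩⟩⟩
    · exact ⟨∅, fun a b => absurd ⟨a, b⟩ h⟩
  choose a ha using hsep
  obtain ⟨A, hA, hB⟩ := exists_set H cH a
  have hcyl : ∀ (x : ℕ → Bool) m, IsClosed (PiNat.cylinder x m) := fun x m => by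
    rw [PiNat.cylinder_eq_pi]
    exact isClosed_set_pi fun i _ => isClosed_singleton
  have out : ∀ u, gg u ∉ H → (u ∈ E0 → A ∈ u.1) ∧ (u ∈ E1 → A ∉ u.1) := fun u hu => by
    obtain ⟨m, a1, a2⟩ := hA u hu
    rw [a2]
    exact ha _ (hcyl _ _) a1 u (PiNat.self_mem_cylinder _ _)
  have ins : ∀ u k, Rel f S u k → (k ∈ c ↔ A ∈ u.1) → Rel f (insert (c, A) S) u k :=
    fun u k h h' => ⟨h.1, forall_mem_insert.2 ⟨h', h.2⟩⟩
  refine ⟨A, forall_mem_insert.2 ⟨hc, hS.1⟩, fun u => ?_, fun k => ?_⟩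
  · have h0 : (A ∈ u.1 → u ∈ E0) ∧ (A ∉ u.1 → u ∈ E1) := by
      by_cases hu : gg u ∈ H
      · exact ⟨fun _ => (key u hu).1, fun _ => (key u hu).2.1⟩
      · obtain ⟨k, hk⟩ := hS.2.1 u
        by_cases e : k ∈ c
        · exact ⟨fun _ => ⟨k, e, hk⟩, fun h => absurd ((out u hu).1 ⟨k, e, hk⟩) h⟩
        · exact ⟨fun h => absurd h ((out u hu).2 ⟨k, e, hk⟩), fun _ => ⟨k, e, hk⟩⟩
    by_cases e : A ∈ u.1
    · obtain ⟨k, a1, a2⟩ := h0.1 e
      exact ⟨k, ins u k a2 (iff_of_true a1 e)⟩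
    · obtain ⟨k, a1, a2⟩ := h0.2 e
      exact ⟨k, ins u k a2 (iff_of_false a1 e)⟩
  · by_cases hk : f k ∈ H
    · classical
      obtain ⟨u, a1, a2⟩ := hB _ hk (decide (k ∈ c))
      exact ⟨u, ins u k ((key u (a1 ▸ hk)).2.2 k a1.symm) (by rw [a2, decide_eq_true_iff])⟩
    · obtain ⟨u, hu⟩ := hS.2.2 k
      have := out u (hu.1 ▸ hk)
      refine ⟨u, ins u k hu ⟨fun h => this.1 ⟨k, h, hu⟩, fun h => ?_⟩⟩
      by_contra h'
      exact this.2 ⟨k, h', hu⟩ h

theorem exists_maximal_good [CompactSpace K] (hf : Continuous f) (hs : Surjective f) :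
    ∃ S, Maximal (Good f) S := by
  have h0 : Good f ∅ := by
    refine ⟨by simp, fun u => ?_, fun k => ?_⟩
    · obtain ⟨k, hk⟩ := hs (gg u)
      exact ⟨k, hk, by simp⟩
    · obtain ⟨u, hu⟩ := exists_branch fun i => Nat.casesOn i true (f k)
      exact ⟨u, funext fun i => by rw [gg, lim_eq hu], by simp⟩
  obtain ⟨S, -, hS⟩ := zorn_subset_nonempty {S | Good f S} (fun C hC hch hne => by
    have := hne.to_subtype
    have hcl : ∀ S : C, IsClosed {z : NStar × K | Rel f S.1 z.1 z.2} := fun S =>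
      isClosed_rel hf (hC S.2).1
    have key : ∀ {Y : Type} [TopologicalSpace Y] [CompactSpace Y] (e : Y → NStar × K),
        Continuous e → (∀ S ∈ C, ∃ y, Rel f S (e y).1 (e y).2) →
        ∃ y, Rel f (⋃₀ C) (e y).1 (e y).2 := by
      intro Y _ _ e he h
      obtain ⟨y, hy⟩ := IsCompact.nonempty_iInter_of_directed_nonempty_isCompact_isClosed
        (fun S : C => e ⁻¹' {z : NStar × K | Rel f S.1 z.1 z.2})
        (fun S T => by
          obtain ⟨U, a1, a2, a3⟩ := hch.directedOn S.1 S.2 T.1 T.2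
          exact ⟨⟨U, a1⟩, fun y hy => ⟨hy.1, fun p hp => hy.2 p (a2 hp)⟩,
            fun y hy => ⟨hy.1, fun p hp => hy.2 p (a3 hp)⟩⟩)
        (fun S => h S.1 S.2) (fun S => ((hcl S).preimage he).isCompact)
        fun S => (hcl S).preimage he
      obtain ⟨T, hT⟩ := hne
      exact ⟨y, (mem_iInter.1 hy ⟨T, hT⟩).1,
        fun p ⟨U, a1, a2⟩ => (mem_iInter.1 hy ⟨U, a1⟩).2 p a2⟩
    exact ⟨⋃₀ C, ⟨fun p ⟨U, a1, a2⟩ => (hC a1).1 p a2,
      fun u => key (fun k => (u, k)) (by fun_prop) fun S h => (hC h).2.1 u,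
      fun k => key (fun u => (u, k)) (by fun_prop) fun S h => (hC h).2.2 k⟩,
      fun _ => subset_sUnion_of_mem⟩) ∅ h0
  exact ⟨S, hS⟩

theorem core [CompactSpace K] [T2Space K] [TotallyDisconnectedSpace K] (hf : Continuous f)
    (hs : Surjective f) (h2 : ∀ a b c, f a = f b → f a = f c → a = b ∨ a = c ∨ b = c) :
    IsImage K := by
  obtain ⟨S, hS⟩ := exists_maximal_good hf hs
  have h1 : ∀ c, IsClopen c → ∃ A, (c, A) ∈ S := fun c hc => by
    obtain ⟨A, hA⟩ := hS.prop.step hf h2 hc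
    exact ⟨A, hS.le_of_ge hA (subset_insert _ _) (mem_insert _ _)⟩
  choose G hG using hS.prop.2.1
  refine ⟨G, isTopologicalBasis_isClopen.continuous_iff.2 fun c hc => ?_, fun k => ?_⟩
  · obtain ⟨A, hA⟩ := h1 c hc
    have : G ⁻¹' c = {u : NStar | A ∈ u.1} := Set.ext fun u => (hG u).2 _ hA
    exact this ▸ (isClopen_star A).2
  · obtain ⟨u, hu⟩ := hS.prop.2.2 k
    refine ⟨u, by_contra fun hne => ?_⟩
    obtain ⟨c, a1, a2, a3⟩ := exists_isClopen_of_totally_separated hne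
    obtain ⟨A, hA⟩ := h1 c a1
    exact a3 ((hu.2 _ hA).2 (((hG u).2 _ hA).1 a2))

end core

theorem isImage_of_degLE_two (K : Type) [TopologicalSpace K] [CompactSpace K] [T2Space K]
    [Nonempty K] (h : DegLE K 2) : IsImage K := by
  obtain ⟨M, _, g, hg, hd⟩ := h
  have h2 : ∀ a b c, g a = g b → g a = g c → a = b ∨ a = c ∨ b = c := fun a b c e1 e2 => by
    by_contra hc
    push Not at hc
    have h3 : ({a, b, c} : Set K).encard = 3 := encard_eq_three.2 ⟨a, b, c, hc.1, hc.2.1, hc.2.2, rfl⟩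
    have h4 : ({a, b, c} : Set K) ⊆ g ⁻¹' {g a} := by
      rintro _ (rfl | rfl | rfl)
      exacts [rfl, e1.symm, e2.symm]
    have := (encard_le_encard h4).trans (hd (g a))
    rw [h3] at this
    exact absurd this (by decide)
  have : CompactSpace (range g) := isCompact_iff_compactSpace.1 (isCompact_range hg)
  obtain ⟨r, r1, r2⟩ := exists_nat_bool_continuous_surjective_of_compact (range g)
  let L := {z : K × (ℕ → Bool) | g z.1 = r z.2}
  have : CompactSpace L := isCompact_iff_compactSpace.1 (IsClosed.isCompact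
    (isClosed_eq (hg.comp continuous_fst) (continuous_subtype_val.comp (r1.comp continuous_snd))))
  have hf : Continuous fun z : L => z.1.2 := by fun_prop
  have h3 : ∀ a b c : L, a.1.2 = b.1.2 → a.1.2 = c.1.2 → a = b ∨ a = c ∨ b = c := by
    intro a b c e1 e2
    have := h2 a.1.1 b.1.1 c.1.1 (by rw [a.2, b.2, e1]) (by rw [a.2, c.2, e2])
    exact this.imp (fun e => Subtype.ext (Prod.ext e e1)) (Or.imp
      (fun e => Subtype.ext (Prod.ext e e2)) fun e => Subtype.ext (Prod.ext e (e1.symm.trans e2)))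
  have : TotallyDisconnectedSpace L := ⟨fun t _ ht => by
    classical
    by_contra hn
    obtain ⟨s, s1, s2⟩ := (ht.infinite_of_nontrivial (not_subsingleton_iff.1 hn)).exists_subset_card_eq 3
    obtain ⟨a, b, c, a1, a2, a3, rfl⟩ := Finset.card_eq_three.1 s2
    have h4 := (ht.image _ hf.continuousOn).subsingleton
    have ha : a ∈ t := s1 (by simp)
    have hb : b ∈ t := s1 (by simp)
    have hc : c ∈ t := s1 (by simp)
    rcases h3 a b c (h4 ⟨a, ha, rfl⟩ ⟨b, hb, rfl⟩) (h4 ⟨a, ha, rfl⟩ ⟨c, hc, rfl⟩) with e | e | e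
    exacts [a1 e, a2 e, a3 e]⟩
  obtain ⟨G, G1, G2⟩ := core (K := L) hf (fun x => by
    obtain ⟨k, hk⟩ := (r x).2
    exact ⟨⟨(k, x), hk⟩, rfl⟩) h3
  refine ⟨fun u => (G u).1.1, by fun_prop, fun k => ?_⟩
  obtain ⟨x, hx⟩ := r2 ⟨g k, k, rfl⟩
  obtain ⟨u, hu⟩ := G2 ⟨(k, x), by simp [L, hx]⟩
  exact ⟨u, by simp [hu]⟩

end Pool.Agent.P.MP_b49e67_gt
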