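import Pool.Agent.P.MP_b49e67_gt.Defs

/-! The pseudo-intersection number, weight, Valdivia spaces. -/

namespace Pool.Agent.P.MP_b49e67_gt

/-- The pseudo-intersection number: the least size of a family of subsets of the natural numbers
all of whose finite subfamilies have infinite intersection and for which there is no infinite set
almost contained in every member. -/
noncomputable def pNum : Cardinal.{0} :=
  sInf {c | ∃ F : Set (Set ℕ), Cardinal.mk F = c ∧
    (∀ t ⊆ F, t.Finite → (⋂₀ t).Infinite) ∧
    ¬ ∃ P : Set ℕ, P.Infinite ∧ ∀ A ∈ F, (P \ A).Finite}

/-- The space has a base of size at most `c`. -/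
def WeightLE (K : Type) [TopologicalSpace K] (c : Cardinal.{0}) : Prop :=
  ∃ B : Set (Set K), TopologicalSpace.IsTopologicalBasis B ∧ Cardinal.mk B ≤ c

/-- The space embeds in a power of the real line so that the points with countably many non-zero
coordinates are dense. -/
def IsValdivia (K : Type) [TopologicalSpace K] : Prop :=
  ∃ (Γ : Type) (e : K → Γ → ℝ), Topology.IsEmbedding e ∧
    Dense {x : K | (Function.support (e x)).Countable}

end Pool.Agent.P.MP_b49e67_gt
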