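import Pool.Agent.P.MP_b49e67_gt.ValP

/-! The extension step. -/

open Set Filter Topology Function Cardinal

namespace Pool.Agent.P.MP_b49e67_gt.Val

variable {K Γ : Type} [TopologicalSpace K] [CompactSpace K]

/-- On the coordinates in `A` the sequence approaches the space. -/
def App (e : K → Γ → ℝ) (z : ℕ → Γ → ℝ) (A : Set Γ) : Prop :=
  ∀ F : Finset Γ, ↑F ⊆ A → ∀ ε : ℝ, 0 < ε → ∀ᶠ m in atTop, ∃ y, ∀ i ∈ F, |z m i - e y i| < ε

/-- On the coordinates in `A` the sequence clusters at every point of the space. -/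
def Clu (e : K → Γ → ℝ) (z : ℕ → Γ → ℝ) (A : Set Γ) : Prop :=
  ∀ F : Finset Γ, ↑F ⊆ A → ∀ ε : ℝ, 0 < ε → ∀ y, ∃ᶠ m in atTop, ∀ i ∈ F, |z m i - e y i| < ε

variable {e : K → Γ → ℝ}

omit [CompactSpace K] in
theorem nhds_box (he : Continuous e) (F : Finset Γ) {ε : ℝ} (hε : 0 < ε) (x : K) :
    {y | ∀ i ∈ F, |e y i - e x i| < ε} ∈ 𝓝 x :=
  (eventually_all_finset F).2 fun i _ =>
    ((continuous_apply i).comp he).continuousAt.eventually (Metric.ball_mem_nhds (e x i) hε)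

theorem block (he : Continuous e) {O : Type} (val : ℕ × O → Γ → ℝ) (F : Finset Γ) {ε : ℝ}
    (hε : 0 < ε) (N : ℕ)
    (h : ∀ (x : K) (M : ℕ), ∃ p : ℕ × O, M ≤ p.1 ∧ ∀ i ∈ F, |val p i - e x i| < ε / 2) :
    ∃ b : Finset (ℕ × O), InjOn Prod.fst (b : Set (ℕ × O)) ∧
      (∀ p ∈ b, N ≤ p.1 ∧ ∃ y, ∀ i ∈ F, |val p i - e y i| < ε) ∧
      ∀ y, ∃ p ∈ b, ∀ i ∈ F, |val p i - e y i| < ε := by
  classical
  have key : ∀ t : Finset K, ∃ b : Finset (ℕ × O), InjOn Prod.fst (b : Set (ℕ × O)) ∧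
      (∀ p ∈ b, N ≤ p.1 ∧ ∃ y, ∀ i ∈ F, |val p i - e y i| < ε / 2) ∧
      ∀ y ∈ t, ∃ p ∈ b, ∀ i ∈ F, |val p i - e y i| < ε / 2 := by
    intro t
    induction t using Finset.induction_on with
    | empty => exact ⟨∅, by simp, by simp, by simp⟩
    | insert x t _ ih =>
      obtain ⟨b, h1, h2, h3⟩ := ih
      obtain ⟨p, h4, h5⟩ := h x (max N (b.sup Prod.fst + 1))
      have h6 : ∀ q ∈ b, q.1 < p.1 := fun q hq =>
        (Nat.lt_succ_of_le (Finset.le_sup (f := Prod.fst) hq)).trans_le (le_of_max_le_right h4)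
      refine ⟨insert p b, ?_, ?_, ?_⟩
      · rw [Finset.coe_insert]
        refine (injOn_insert fun hp => (h6 p hp).false).2 ⟨h1, ?_⟩
        rintro ⟨q, hq, e1⟩
        exact (h6 q hq).ne e1
      · simp only [Finset.forall_mem_insert]
        exact ⟨⟨le_of_max_le_left h4, x, h5⟩, h2⟩
      · simp only [Finset.forall_mem_insert]
        exact ⟨⟨p, Finset.mem_insert_self _ _, h5⟩, fun y hy =>
          (h3 y hy).imp fun q hq => ⟨Finset.mem_insert_of_mem hq.1, hq.2⟩⟩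
  obtain ⟨t, -, ht⟩ := isCompact_univ.elim_nhds_subcover _ fun x _ => nhds_box he F (half_pos hε) x
  obtain ⟨b, h1, h2, h3⟩ := key t
  refine ⟨b, h1, fun p hp => ⟨(h2 p hp).1, (h2 p hp).2.imp fun y hy i hi =>
    (hy i hi).trans (half_lt_self hε)⟩, fun y => ?_⟩
  obtain ⟨x, hx, hy⟩ := mem_iUnion₂.1 (ht (mem_univ y))
  obtain ⟨p, hp, h4⟩ := h3 x hx
  refine ⟨p, hp, fun i hi => ?_⟩
  have h5 := abs_lt.1 (h4 i hi)
  have h6 := abs_lt.1 (hy i hi)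
  rw [abs_lt]
  constructor <;> linarith [h5.1, h5.2, h6.1, h6.2]

theorem extend [Nonempty K] (he : Continuous e) (hΓ : Cardinal.mk Γ ≤ 𝔠) {A A' : Set Γ}
    (hA' : Cardinal.mk A' < pNum) {w : ℕ → Γ → ℝ} (h1 : App e w A') (h2 : Clu e w A) :
    ∃ z, App e z A' ∧ Clu e z A' ∧ ∀ m, ∀ i ∈ A, z m i = w m i := by
  classical
  obtain ⟨O, _, ev, hev⟩ := exists_dense hΓ
  let val : ℕ × O → Γ → ℝ := fun p i => if i ∈ A then w p.1 i else ev p.2 i
  let W : List A' × ℕ → Set (Finset (ℕ × O)) := fun s => {b | InjOn Prod.fst (b : Set (ℕ × O)) ∧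
    (∀ p ∈ b, ∃ y, ∀ i ∈ s.1, |val p i - e y i| < 1 / ((s.2 : ℝ) + 1)) ∧
      ∀ y, ∃ p ∈ b, ∀ i ∈ s.1, |val p i - e y i| < 1 / ((s.2 : ℝ) + 1)}
  have hι : Cardinal.mk (List A' × ℕ) < pNum := by
    rw [mk_prod, lift_id, lift_id, mk_nat]
    exact mul_lt_of_lt aleph0_lt_p.le
      ((mk_list_le_max _).trans_lt (max_lt aleph0_lt_p hA')) aleph0_lt_p
  obtain ⟨u, hu1, hu2⟩ := exists_seq hι W (fun b => sInf (Prod.fst '' (b : Set (ℕ × O)))) (by
    intro s N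
    have hε : (0 : ℝ) < 1 / (((s.sup Prod.snd : ℕ) : ℝ) + 1) := Nat.one_div_pos_of_nat
    obtain ⟨b, b1, b2, b3⟩ := block he val
      (s.biUnion fun x => x.1.toFinset.image Subtype.val) hε N (by
        intro x M
        obtain ⟨m, hm, hm'⟩ := frequently_atTop.1
          (h2 ((s.biUnion fun x => x.1.toFinset.image Subtype.val).filter (· ∈ A))
            (fun i hi => (Finset.mem_filter.1 hi).2) _ (half_pos hε) x) M
        obtain ⟨o, ho⟩ := hev (s.biUnion fun x => x.1.toFinset.image Subtype.val) _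
          (half_pos hε) (e x)
        refine ⟨(m, o), hm, fun i hi => ?_⟩
        by_cases hA : i ∈ A
        · simpa only [val, if_pos hA] using hm' i (Finset.mem_filter.2 ⟨hi, hA⟩)
        · simpa only [val, if_neg hA] using ho i hi)
    obtain ⟨p0, hp0, -⟩ := b3 (Classical.arbitrary K)
    refine ⟨b, le_csInf ⟨_, p0, hp0, rfl⟩ (forall_mem_image.2 fun p hp => (b2 p hp).1),
      fun x hx => ?_⟩
    have h3 : ∀ (p : ℕ × O) (y : K), (∀ i ∈ s.biUnion fun x => x.1.toFinset.image Subtype.val,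
        |val p i - e y i| < 1 / (((s.sup Prod.snd : ℕ) : ℝ) + 1)) →
        ∀ i ∈ x.1, |val p i - e y i| < 1 / ((x.2 : ℝ) + 1) := fun p y h i hi =>
      (h i (Finset.mem_biUnion.2 ⟨x, hx, Finset.mem_image_of_mem _ (List.mem_toFinset.2 hi)⟩)).trans_le
        (Nat.one_div_le_one_div (Finset.le_sup (f := Prod.snd) hx))
    exact ⟨b1, fun p hp => (b2 p hp).2.imp (h3 p), fun y => (b3 y).imp fun p hp =>
      ⟨hp.1, h3 p y hp.2⟩⟩)
  have hu3 : ∀ N, ∀ᶠ j in atTop, ∀ q ∈ u j, N ≤ q.1 := fun N =>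
    (tendsto_atTop.1 hu1 N).mono fun j hj q hq => hj.trans (Nat.sInf_le ⟨q, hq, rfl⟩)
  have hnx : ∀ j, ∃ j', j < j' ∧ ∀ k, j' ≤ k → ∀ p ∈ u j, ∀ q ∈ u k, p.1 < q.1 := fun j => by
    obtain ⟨a, ha⟩ := eventually_atTop.1 (hu3 ((u j).sup Prod.fst + 1))
    exact ⟨max a (j + 1), by omega, fun k hk p hp q hq =>
      (Nat.lt_succ_of_le (Finset.le_sup (f := Prod.fst) hp)).trans_le
        (ha k (le_of_max_le_left hk) q hq)⟩
  choose nx hn1 hn2 using hnx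
  obtain ⟨j0, hj0⟩ := eventually_atTop.1 (hu2 ([], 0))
  let φ : ℕ → ℕ := fun n => nx^[n] j0
  have hφ : ∀ n, φ (n + 1) = nx (φ n) := fun n => iterate_succ_apply' _ _ _
  have hmono : StrictMono φ := strictMono_nat_of_lt_succ fun n => hφ n ▸ hn1 _
  have hlt : ∀ n n', n < n' → ∀ p ∈ u (φ n), ∀ q ∈ u (φ n'), p.1 < q.1 := fun n n' h =>
    hn2 _ _ (hφ n ▸ hmono.monotone h)
  have huniq : ∀ n n', ∀ p ∈ u (φ n), ∀ q ∈ u (φ n'), p.1 = q.1 → p = q := by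
    intro n n' p hp q hq h
    rcases lt_trichotomy n n' with h3 | rfl | h3
    · exact absurd h (hlt _ _ h3 p hp q hq).ne
    · exact (hj0 _ (hmono.monotone (Nat.zero_le n))).1 hp hq h
    · exact absurd h (hlt _ _ h3 q hq p hp).ne'
  let z : ℕ → Γ → ℝ := fun m => if h : ∃ p : ℕ × O, p.1 = m ∧ ∃ n, p ∈ u (φ n) then val h.choose
    else w m
  have hz : ∀ n, ∀ p ∈ u (φ n), z p.1 = val p := fun n p hp => by
    have h : ∃ q : ℕ × O, q.1 = p.1 ∧ ∃ n, q ∈ u (φ n) := ⟨p, rfl, n, hp⟩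
    obtain ⟨h3, n', h4⟩ := h.choose_spec
    simp only [z, dif_pos h, huniq _ _ _ h4 _ hp h3]
  have hW : ∀ F : Finset Γ, ↑F ⊆ A' → ∀ ε : ℝ, 0 < ε → ∀ᶠ n in atTop,
      (∀ p ∈ u (φ n), ∃ y, ∀ i ∈ F, |val p i - e y i| < ε) ∧
        ∀ y, ∃ p ∈ u (φ n), ∀ i ∈ F, |val p i - e y i| < ε := by
    intro F hF ε hε
    obtain ⟨k, hk⟩ := exists_nat_one_div_lt hε
    have h3 : ∀ (p : ℕ × O) (y : K), (∀ i ∈ (F.subtype (· ∈ A')).toList,
        |val p i - e y i| < 1 / ((k : ℝ) + 1)) → ∀ i ∈ F, |val p i - e y i| < ε :=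
      fun p y h i hi => (h ⟨i, hF hi⟩ (Finset.mem_toList.2 (Finset.mem_subtype.2 hi))).trans hk
    filter_upwards [hmono.tendsto_atTop.eventually (hu2 ((F.subtype (· ∈ A')).toList, k))] with n hn
    exact ⟨fun p hp => (hn.2.1 p hp).imp (h3 p), fun y => (hn.2.2 y).imp fun p hp =>
      ⟨hp.1, h3 p y hp.2⟩⟩
  refine ⟨z, fun F hF ε hε => ?_, fun F hF ε hε y => frequently_atTop.2 fun N => ?_,
    fun m i hi => ?_⟩
  · obtain ⟨n0, hn0⟩ := eventually_atTop.1 (hW F hF ε hε)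
    have h3 : ∀ᶠ m in atTop, ∀ n ∈ Finset.range n0, ∀ p ∈ u (φ n), p.1 < m := by
      simp only [eventually_all_finset]
      exact fun _ _ p _ => eventually_gt_atTop _
    filter_upwards [h3, h1 F hF ε hε] with m h4 h5
    by_cases h : ∃ p : ℕ × O, p.1 = m ∧ ∃ n, p ∈ u (φ n)
    · obtain ⟨p, rfl, n, hp⟩ := h
      rw [hz n p hp]
      exact (hn0 n (not_lt.1 fun h6 => (h4 n (Finset.mem_range.2 h6) p hp).false)).1 p hp
    · simpa only [z, dif_neg h] using h5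
  · obtain ⟨n, h3, h4⟩ := ((hW F hF ε hε).and (hmono.tendsto_atTop.eventually (hu3 N))).exists
    obtain ⟨p, hp, h5⟩ := h3.2 y
    exact ⟨p.1, h4 p hp, by rwa [hz n p hp]⟩
  · by_cases h : ∃ p : ℕ × O, p.1 = m ∧ ∃ n, p ∈ u (φ n)
    · obtain ⟨p, rfl, n, hp⟩ := h
      rw [hz n p hp]
      exact if_pos hi
    · simp only [z, dif_neg h]

end Pool.Agent.P.MP_b49e67_gt.Val
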