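import Pool.Agent.P.MP_b49e67_gt.ValExt

/-! Good sets of coordinates, the recursion, and the map from the free ultrafilters. -/

open Set Filter Topology Function Cardinal

namespace Pool.Agent.P.MP_b49e67_gt.Val

/-- A closure operator for a countably valued function of finite sets. -/
theorem exists_cl {Γ : Type} (g : Finset Γ → Set Γ) (hg : ∀ F, (g F).Countable) :
    ∃ cl : Set Γ → Set Γ, (∀ S, S ⊆ cl S) ∧ (∀ S (F : Finset Γ), ↑F ⊆ cl S → g F ⊆ cl S) ∧
      (∀ S A, S ⊆ A → (∀ F : Finset Γ, ↑F ⊆ A → g F ⊆ A) → cl S ⊆ A) ∧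
      ∀ S, Cardinal.mk (cl S) ≤ max ℵ₀ (Cardinal.mk S) := by
  classical
  refine ⟨fun S => ⋂₀ {A | S ⊆ A ∧ ∀ F : Finset Γ, ↑F ⊆ A → g F ⊆ A},
    fun S => subset_sInter fun A hA => hA.1,
    fun S F hF => subset_sInter fun A hA => hA.2 F (hF.trans (sInter_subset_of_mem hA)),
    fun S A h1 h2 => sInter_subset_of_mem ⟨h1, h2⟩, fun S => ?_⟩
  let st : Set Γ → Set Γ := fun A => A ∪ ⋃ l : List A, g (l.toFinset.image Subtype.val)
  have hm : ℵ₀ ≤ max ℵ₀ (Cardinal.mk S) := le_max_left _ _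
  have h1 : ∀ n, Cardinal.mk (st^[n] S) ≤ max ℵ₀ (Cardinal.mk S) := by
    intro n
    induction n with
    | zero => exact le_max_right _ _
    | succ n ih =>
      rw [iterate_succ_apply']
      refine (mk_union_le _ _).trans (add_le_of_le hm ih ((mk_iUnion_le _).trans ?_))
      exact mul_le_of_le hm ((mk_list_le_max _).trans (max_le hm ih))
        (ciSup_le' fun l => (le_aleph0_iff_set_countable.2 (hg _)).trans hm)
  have h2 : Monotone fun n => st^[n] S := monotone_nat_of_le_succ fun n => by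
    simp only [iterate_succ_apply']
    exact subset_union_left
  refine (mk_le_mk_of_subset (sInter_subset_of_mem (t := ⋃ n, st^[n] S)
    (And.intro (subset_iUnion (fun n => st^[n] S) 0) fun F hF => ?_))).trans
      ((mk_iUnion_le _).trans ?_)
  · obtain ⟨n, hn⟩ := h2.directed_le.exists_mem_subset_of_finset_subset_biUnion hF
    refine subset_iUnion_of_subset (n + 1) ?_
    rw [iterate_succ_apply']
    refine subset_union_of_subset_right
      (subset_iUnion_of_subset (F.subtype (· ∈ st^[n] S)).toList ?_) _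
    have : (F.subtype (· ∈ st^[n] S)).toList.toFinset.image Subtype.val = F := by
      ext i
      simp only [Finset.toList_toFinset, Finset.mem_image, Finset.mem_subtype]
      exact ⟨by rintro ⟨a, h, rfl⟩; exact h, fun h => ⟨⟨i, hn h⟩, h, rfl⟩⟩
    rw [this]
  · exact mul_le_of_le hm (mk_nat.le.trans hm) (ciSup_le' h1)

theorem box_of_nhds {Γ : Type} {x : Γ → ℝ} {s : Set (Γ → ℝ)} (hs : s ∈ 𝓝 x) :
    ∃ (F : Finset Γ) (ε : ℝ), 0 < ε ∧ ∀ y : Γ → ℝ, (∀ i ∈ F, |y i - x i| < ε) → y ∈ s := by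
  rw [nhds_pi, Filter.mem_pi'] at hs
  obtain ⟨F, t, h1, h2⟩ := hs
  have h3 : ∀ᶠ r in 𝓝[>] (0 : ℝ), ∀ i ∈ F, Metric.closedBall (x i) r ⊆ t i :=
    nhdsWithin_le_nhds ((eventually_all_finset F).2 fun i _ =>
      eventually_closedBall_subset (h1 i))
  obtain ⟨r, h4, h5⟩ := (h3.and self_mem_nhdsWithin).exists
  exact ⟨F, r, h5, fun y hy => h2 fun i hi => h4 i hi (hy i hi).le⟩

variable {K Γ : Type} [TopologicalSpace K] [CompactSpace K] {e : K → Γ → ℝ}

/-- Sets of coordinates closed under the witnesses give retractions. -/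
theorem exists_good (he : Continuous e) (hD : Dense {x : K | (support (e x)).Countable}) :
    ∃ g : Finset Γ → Set Γ, (∀ F, (g F).Countable) ∧ ∀ A : Set Γ,
      (∀ F : Finset Γ, ↑F ⊆ A → g F ⊆ A) → ∀ x, ∃ x', e x' = A.indicator (e x) := by
  classical
  have h1 : ∀ (F : Finset Γ) (n : ℕ), ∃ t : Finset K, (∀ d ∈ t, (support (e d)).Countable) ∧
      ∀ x, ∃ d ∈ t, ∀ i ∈ F, |e x i - e d i| < 1 / ((n : ℝ) + 1) := by
    intro F n
    have hε : (0 : ℝ) < 1 / ((n : ℝ) + 1) := Nat.one_div_pos_of_nat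
    have h2 : ∀ x, ∃ d, (support (e d)).Countable ∧ ∀ i ∈ F, |e d i - e x i| < 1 / ((n : ℝ) + 1) / 2 :=
      fun x => (hD.inter_nhds_nonempty (nhds_box he F (half_pos hε) x)).imp fun d hd => hd
    choose d h3 h4 using h2
    obtain ⟨t, -, ht⟩ := isCompact_univ.elim_nhds_subcover _ fun x _ =>
      nhds_box he F (half_pos hε) x
    refine ⟨t.image d, Finset.forall_mem_image.2 fun x _ => h3 x, fun y => ?_⟩
    obtain ⟨x, hx, hy⟩ := mem_iUnion₂.1 (ht (mem_univ y))
    refine ⟨d x, Finset.mem_image_of_mem _ hx, fun i hi => ?_⟩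
    have h5 := abs_lt.1 (h4 x i hi)
    have h6 := abs_lt.1 (hy i hi)
    rw [abs_lt]
    constructor <;> linarith [h5.1, h5.2, h6.1, h6.2]
  choose t h2 h3 using h1
  refine ⟨fun F => ⋃ n, ⋃ d ∈ t F n, support (e d), fun F => countable_iUnion fun n =>
    (t F n).countable_toSet.biUnion (h2 F n), fun A hA x => ?_⟩
  refine (isCompact_range he).isClosed.closure_subset (mem_closure_iff_nhds.2 fun s hs => ?_)
  obtain ⟨F, ε, hε, hs⟩ := box_of_nhds hs
  obtain ⟨n, hn⟩ := exists_nat_one_div_lt hε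
  obtain ⟨d, hd, h4⟩ := h3 (F.filter (· ∈ A)) n x
  refine ⟨e d, hs _ fun i hi => ?_, d, rfl⟩
  by_cases h5 : i ∈ A
  · rw [indicator_of_mem h5, abs_sub_comm]
    exact (h4 i (Finset.mem_filter.2 ⟨hi, h5⟩)).trans hn
  · have : e d i = 0 := by_contra fun h6 => h5 (hA _ (fun j hj => (Finset.mem_filter.1 hj).2)
      (mem_iUnion.2 ⟨n, mem_iUnion₂.2 ⟨d, hd, h6⟩⟩))
    simpa [indicator_of_notMem h5, this] using hε

theorem exists_rep [Nonempty K] (he : Continuous e) (hD : Dense {x : K | (support (e x)).Countable})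
    (hΓ : Cardinal.mk Γ ≤ pNum) : ∃ z, App e z univ ∧ Clu e z univ := by
  classical
  obtain ⟨g, hg, hgood⟩ := exists_good he hD
  obtain ⟨cl, c1, c2, c3, c4⟩ := exists_cl g hg
  have cm : ∀ S S', S ⊆ S' → cl S ⊆ cl S' := fun S S' h => c3 _ _ (h.trans (c1 _)) (c2 _)
  obtain ⟨j⟩ : Nonempty (Γ ↪ pNum.ord.ToType) := by
    rw [← Cardinal.le_def]
    simpa using hΓ
  have small : ∀ S : Set pNum.ord.ToType, Cardinal.mk S < pNum →
      Cardinal.mk (cl (j ⁻¹' S)) < pNum := fun S hS =>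
    (c4 _).trans_lt (max_lt aleph0_lt_p ((mk_preimage_of_injective _ _ j.injective).trans_lt hS))
  let St := {s : Set pNum.ord.ToType × (ℕ → Γ → ℝ) //
    IsLowerSet s.1 ∧ App e s.2 (cl (j ⁻¹' s.1)) ∧ Clu e s.2 (cl (j ⁻¹' s.1))}
  let r : St → St → Prop := fun s t =>
    s.1.1 ⊆ t.1.1 ∧ ∀ m, ∀ i ∈ cl (j ⁻¹' s.1.1), t.1.2 m i = s.1.2 m i
  have : Nonempty St := by
    obtain ⟨z, h1, h2, -⟩ := extend he (hΓ.trans p_le) (A := ∅) (small ∅ (by
      simpa using aleph0_pos.trans aleph0_lt_p)) (w := fun _ => e (Classical.arbitrary K))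
      (fun F _ ε hε => .of_forall fun _ => ⟨Classical.arbitrary K, fun i _ => by simpa using hε⟩)
      (fun F hF ε hε y => .of_forall fun _ i hi => (hF hi).elim)
    exact ⟨⟨(∅, z), isLowerSet_empty, h1, h2⟩⟩
  obtain ⟨s, hs⟩ := exists_maximal_of_nonempty_chains_bounded (r := r) (fun c hc hne => by
    have hne' : Nonempty c := hne.to_subtype
    have tot : ∀ a b : c, r a b ∨ r b a := fun a b => by
      by_cases h : a.1 = b.1
      · exact .inl (h ▸ ⟨Subset.rfl, fun _ _ _ => rfl⟩)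
      · exact hc a.2 b.2 h
    have hdir : Directed (· ⊆ ·) fun s : c => cl (j ⁻¹' s.1.1.1) := fun a b => by
      rcases tot a b with h | h
      · exact ⟨b, cm _ _ (preimage_mono h.1), Subset.rfl⟩
      · exact ⟨a, Subset.rfl, cm _ _ (preimage_mono h.1)⟩
    have hsub : cl (j ⁻¹' ⋃ s : c, s.1.1.1) ⊆ ⋃ s : c, cl (j ⁻¹' s.1.1.1) := by
      refine c3 _ _ ?_ fun F hF => ?_
      · rw [preimage_iUnion]
        exact iUnion_mono fun s => c1 _
      · obtain ⟨s, h⟩ := hdir.exists_mem_subset_of_finset_subset_biUnion hF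
        exact subset_iUnion_of_subset s (c2 _ F h)
    let z : ℕ → Γ → ℝ := fun m i =>
      if h : ∃ s : c, i ∈ cl (j ⁻¹' s.1.1.1) then h.choose.1.1.2 m i else 0
    have hz : ∀ (s : c) m, ∀ i ∈ cl (j ⁻¹' s.1.1.1), z m i = s.1.1.2 m i := fun s m i hi => by
      have h : ∃ s : c, i ∈ cl (j ⁻¹' s.1.1.1) := ⟨s, hi⟩
      simp only [z, dif_pos h]
      rcases tot s h.choose with h1 | h1
      · exact h1.2 m i hi
      · exact (h1.2 m i h.choose_spec).symm
    refine ⟨⟨(⋃ s : c, s.1.1.1, z), isLowerSet_iUnion fun s => s.1.2.1, fun F hF ε hε => ?_,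
      fun F hF ε hε y => ?_⟩, fun a ha => ⟨subset_iUnion (fun s : c => s.1.1.1) ⟨a, ha⟩,
        hz ⟨a, ha⟩⟩⟩
    · obtain ⟨s, h⟩ := hdir.exists_mem_subset_of_finset_subset_biUnion (hF.trans hsub)
      exact (s.1.2.2.1 F h ε hε).mono fun m hm => hm.imp fun y hy i hi => by
        change |z m i - _| < ε
        rw [hz s m i (h hi)]; exact hy i hi
    · obtain ⟨s, h⟩ := hdir.exists_mem_subset_of_finset_subset_biUnion (hF.trans hsub)
      exact (s.1.2.2.2 F h ε hε y).mono fun m hm i hi => by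
        change |z m i - _| < ε
        rw [hz s m i (h hi)]; exact hm i hi)
    (fun h1 h2 => ⟨h1.1.trans h2.1, fun m i hi =>
      (h2.2 m i (cm _ _ (preimage_mono h1.1) hi)).trans (h1.2 m i hi)⟩)
  obtain ⟨⟨S, z⟩, hS, h1, h2⟩ := s
  have hall : ∀ t, t ∈ S := fun t => by_contra fun ht => by
    have h3 : S ⊆ Iic t := fun a ha => le_of_not_ge fun h => ht (hS h ha)
    have h4 : Cardinal.mk (Iic t) < pNum := by
      rw [← Iio_insert]
      exact mk_insert_le.trans_lt (add_lt_of_lt aleph0_lt_p.le ((mk_Iio_lt t (by simp)).trans_eq (by simp))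
        (one_lt_aleph0.trans aleph0_lt_p))
    obtain ⟨z', a1, a2, a3⟩ := extend he (hΓ.trans p_le) (A := cl (j ⁻¹' S)) (small _ h4)
      (w := fun m => (cl (j ⁻¹' S)).indicator (z m)) (fun F _ ε hε => by
        filter_upwards [h1 (F.filter (· ∈ cl (j ⁻¹' S))) (fun i hi => (Finset.mem_filter.1 hi).2)
          ε hε] with m ⟨y, hy⟩
        obtain ⟨y', hy'⟩ := hgood _ (c2 (j ⁻¹' S)) y
        refine ⟨y', fun i hi => ?_⟩
        rw [hy']
        by_cases h5 : i ∈ cl (j ⁻¹' S)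
        · simpa only [indicator_of_mem h5] using hy i (Finset.mem_filter.2 ⟨hi, h5⟩)
        · simpa [indicator_of_notMem h5] using hε)
      (fun F hF ε hε y => (h2 F hF ε hε y).mono fun m hm i hi => by
        simpa only [indicator_of_mem (hF hi)] using hm i hi)
    exact ht ((hs ⟨(Iic t, z'), isLowerSet_Iic t, a1, a2⟩
      ⟨h3, fun m i hi => (a3 m i hi).trans (indicator_of_mem hi _)⟩).1 (mem_Iic.2 le_rfl))
  exact ⟨z, fun F _ => h1 F fun i _ => c1 _ (hall _), fun F _ => h2 F fun i _ => c1 _ (hall _)⟩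

theorem isImage_of_rep (he : IsEmbedding e) {z : ℕ → Γ → ℝ} (h1 : App e z univ)
    (h2 : Clu e z univ) : IsImage K := by
  classical
  have hlim : ∀ u : NStar, ∃ y, Tendsto z (u.1 : Filter ℕ) (𝓝 (e y)) := fun u => by
    by_contra h
    have h3 : ∀ y, ∃ (i : Γ) (ε : ℝ), 0 < ε ∧ ∀ᶠ m in (u.1 : Filter ℕ), ε ≤ |z m i - e y i| := by
      intro y
      by_contra h4
      refine h ⟨y, tendsto_pi_nhds.2 fun i => Metric.tendsto_nhds.2 fun ε hε => ?_⟩
      refine Ultrafilter.eventually_not.not_left.1 fun h5 => h4 ⟨i, ε, hε, h5.mono fun m hm => ?_⟩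
      exact not_lt.1 hm
    choose i ε h4 h5 using h3
    obtain ⟨t, -, ht⟩ := isCompact_univ.elim_nhds_subcover _ fun y _ =>
      nhds_box he.continuous {i y} (half_pos (h4 y)) y
    have h6 : ∀ᶠ r in 𝓝[>] (0 : ℝ), ∀ y ∈ t, r < ε y / 2 :=
      nhdsWithin_le_nhds ((eventually_all_finset t).2 fun y _ => gt_mem_nhds (half_pos (h4 y)))
    obtain ⟨r, h7, h8⟩ := (h6.and self_mem_nhdsWithin).exists
    have h9 := h1 (t.image i) (subset_univ _) r h8
    rw [← Nat.cofinite_eq_atTop] at h9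
    obtain ⟨m, ⟨x, a1⟩, a2⟩ :=
      ((h9.filter_mono u.2).and ((eventually_all_finset t).2 fun y _ => h5 y)).exists
    obtain ⟨y, hy, a3⟩ := mem_iUnion₂.1 (ht (mem_univ x))
    have a4 := abs_lt.1 (a1 _ (Finset.mem_image_of_mem _ hy))
    have a5 := abs_lt.1 (a3 _ (Finset.mem_singleton_self _))
    refine (a2 y hy).not_gt (abs_lt.2 ?_)
    constructor <;> linarith [a4.1, a4.2, a5.1, a5.2, h7 y hy]
  choose f hf using hlim
  refine ⟨f, he.continuous_iff.2 (continuous_iff_continuousAt.2 fun u => ?_), fun y => ?_⟩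
  · refine (closed_nhds_basis _).tendsto_right_iff.2 fun s hs => ?_
    have h3 : {v : NStar | z ⁻¹' s ∈ v.1} ∈ 𝓝 u :=
      ((ultrafilter_isOpen_basic _).preimage continuous_subtype_val).mem_nhds (hf u hs.1)
    exact mem_of_superset h3 fun v hv => hs.2.mem_of_tendsto (hf v) hv
  · have : (cofinite ⊓ comap z (𝓝 (e y))).NeBot := by
      rw [inf_comm, Nat.cofinite_eq_atTop]
      refine inf_neBot_iff.2 fun s hs s' hs' => ?_
      obtain ⟨t, ht, hts⟩ := mem_comap.1 hs
      obtain ⟨F, ε, hε, h3⟩ := box_of_nhds ht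
      obtain ⟨m, h4, h5⟩ := ((h2 F (subset_univ _) ε hε y).and_eventually hs').exists
      exact ⟨m, hts (h3 _ h4), h5⟩
    obtain ⟨u, hu⟩ := Ultrafilter.exists_le (cofinite ⊓ comap z (𝓝 (e y)))
    exact ⟨⟨u, hu.trans inf_le_left⟩, he.injective (tendsto_nhds_unique (hf _)
      (tendsto_iff_comap.2 (hu.trans inf_le_right)))⟩

theorem main (K : Type) [TopologicalSpace K] [CompactSpace K] [Nonempty K] (hV : IsValdivia K)
    (hw : WeightLE K pNum) : IsImage K := by
  obtain ⟨Γ, e, he, hD⟩ := hV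
  obtain ⟨B, hB, hc⟩ := hw
  have h1 : ∀ U : B, ∃ d, (support (e d)).Countable ∧ (U.1.Nonempty → d ∈ U.1) := fun U => by
    by_cases h : U.1.Nonempty
    · obtain ⟨d, h2, h3⟩ := hD.exists_mem_open (hB.isOpen U.2) h
      exact ⟨d, h2, fun _ => h3⟩
    · obtain ⟨d, h2⟩ := hD.nonempty
      exact ⟨d, h2, fun h' => absurd h' h⟩
  choose d h2 h3 using h1
  have h4 : Dense (range d) := hB.dense_iff.2 fun U hU hne => ⟨_, h3 ⟨U, hU⟩ hne, _, rfl⟩
  have h5 : ∀ x i, i ∉ ⋃ U, support (e (d U)) → e x i = 0 := fun x i hi =>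
    congrFun (Continuous.ext_on h4 ((continuous_apply i).comp he.continuous) continuous_zero
      (forall_mem_range.2 fun U => by_contra fun h => hi (mem_iUnion.2 ⟨U, h⟩))) x
  let e' : K → (⋃ U, support (e (d U))) → ℝ := fun x i => e x i
  have h6 : Continuous e' := continuous_pi fun i => (continuous_apply i.1).comp he.continuous
  have h7 : Injective e' := fun x y h => he.injective (funext fun i => by
    by_cases hi : i ∈ ⋃ U, support (e (d U))
    · exact congrFun h ⟨i, hi⟩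
    · rw [h5 x i hi, h5 y i hi])
  obtain ⟨z, h8, h9⟩ := exists_rep h6
    (hD.mono fun x hx => Set.Countable.preimage (s := support (e x)) hx Subtype.val_injective)
    ((mk_iUnion_le _).trans (mul_le_of_le aleph0_lt_p.le hc (ciSup_le' fun U =>
      (le_aleph0_iff_set_countable.2 (h2 U)).trans aleph0_lt_p.le)))
  exact isImage_of_rep (h6.isClosedEmbedding h7).isEmbedding h8 h9

end Pool.Agent.P.MP_b49e67_gt.Val
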