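import Pool.Agent.P.MP_b49e67_gt.ValDefs

/-! Facts on the pseudo-intersection number; separability of powers of the line. -/

open Set Filter Topology Function Cardinal

namespace Pool.Agent.P.MP_b49e67_gt.Val

def PS : Set Cardinal.{0} := {c | ∃ F : Set (Set ℕ), Cardinal.mk F = c ∧
    (∀ t ⊆ F, t.Finite → (⋂₀ t).Infinite) ∧
    ¬ ∃ P : Set ℕ, P.Infinite ∧ ∀ A ∈ F, (P \ A).Finite}

theorem ps_nonempty : PS.Nonempty := by
  refine ⟨_, {A | A ∈ hyperfilter ℕ}, rfl, fun t ht hf hfin => ?_, ?_⟩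
  · exact hfin.notMem_hyperfilter ((sInter_mem hf).2 fun A hA => ht hA)
  · rintro ⟨P, hP, h⟩
    set g := hP.natEmbedding P
    have inj : ∀ k : ℕ → ℕ, Injective k → (range fun n => (g (k n) : ℕ)).Infinite := fun k hk =>
      infinite_range_of_injective fun a b hab => hk (g.injective (Subtype.ext hab))
    rcases (hyperfilter ℕ).mem_or_compl_mem (range fun n => (g (2 * n) : ℕ)) with h1 | h1
    · refine inj (fun n => 2 * n + 1) (fun a b hab => by simpa using hab) ((h _ h1).subset ?_)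
      rintro _ ⟨n, rfl⟩
      refine ⟨(g _).2, fun ⟨m, hm⟩ => ?_⟩
      have := g.injective (Subtype.ext hm)
      omega
    · refine inj (fun n => 2 * n) (fun a b hab => by simpa using hab) ((h _ h1).subset ?_)
      rintro _ ⟨n, rfl⟩
      exact ⟨(g _).2, fun hm => hm ⟨n, rfl⟩⟩

theorem p_mem : pNum ∈ PS := csInf_mem ps_nonempty

theorem p_le : pNum ≤ 𝔠 := by
  obtain ⟨F, h, -⟩ := p_mem
  rw [← h]
  exact (mk_set_le F).trans (by simp)

theorem aleph0_lt_p : ℵ₀ < pNum := by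
  obtain ⟨F, h, h1, h2⟩ := p_mem
  by_contra hc
  have hF : F.Countable := by
    rw [← le_aleph0_iff_set_countable, h]
    exact not_lt.1 hc
  have : (generate F).IsCountablyGenerated := ⟨F, hF, rfl⟩
  have : (atTop ⊓ generate F).NeBot := by
    refine inf_neBot_iff.2 fun s hs s' hs' => ?_
    obtain ⟨t, ht, hf, hsub⟩ := mem_generate_iff.1 hs'
    rw [← Nat.cofinite_eq_atTop] at hs
    obtain ⟨x, hx, hx'⟩ := ((h1 t ht hf).sdiff hs).nonempty
    exact ⟨x, not_not.1 hx', hsub hx⟩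
  obtain ⟨x, hx⟩ := exists_seq_tendsto (atTop ⊓ generate F)
  rw [tendsto_inf] at hx
  refine h2 ⟨range x, infinite_of_not_bddAbove (not_bddAbove_of_tendsto_atTop hx.1),
    fun A hA => ?_⟩
  have h3 : x ⁻¹' A ∈ cofinite := by
    rw [Nat.cofinite_eq_atTop]
    exact hx.2 (mem_generate_of_mem hA)
  refine (Finite.image x h3).subset ?_
  rintro _ ⟨⟨n, rfl⟩, hn⟩
  exact ⟨n, hn, rfl⟩

/-- Fewer than `pNum` conditions on a countable set are met by a sequence. -/
theorem exists_seq {X ι : Type} [Countable X] (hι : Cardinal.mk ι < pNum) (W : ι → Set X)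
    (h : X → ℕ) (hW : ∀ (s : Finset ι) (n : ℕ), ∃ x, n ≤ h x ∧ ∀ i ∈ s, x ∈ W i) :
    ∃ u : ℕ → X, Tendsto (h ∘ u) atTop atTop ∧ ∀ i, ∀ᶠ j in atTop, u j ∈ W i := by
  classical
  obtain ⟨c, hc⟩ := exists_injective_nat X
  let V : ι ⊕ ℕ → Set X := Sum.elim W fun n => {x | n ≤ h x}
  have h1 : Cardinal.mk (range fun i => c '' V i) ∉ PS := by
    refine notMem_of_lt_csInf' (mk_range_le.trans_lt ?_)
    rw [mk_sum, lift_id, lift_id, mk_nat]
    exact add_lt_of_lt aleph0_lt_p.le hι aleph0_lt_p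
  have h2 : ∀ t ⊆ range fun i => c '' V i, t.Finite → (⋂₀ t).Infinite := by
    intro t ht hf
    obtain ⟨s, hs, rfl⟩ : ∃ s : Set (ι ⊕ ℕ), s.Finite ∧ (fun i => c '' V i) '' s = t := by
      rw [← image_univ] at ht
      obtain ⟨s, -, h1, h2⟩ := hf.exists_subset_finite_image_eq ht
      exact ⟨s, h1, h2⟩
    lift s to Finset (ι ⊕ ℕ) using hs
    have h3 : {x | ∀ i ∈ s, x ∈ V i}.Infinite := by
      refine Infinite.of_image h (infinite_of_not_bddAbove ?_)
      rintro ⟨N, hN⟩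
      obtain ⟨x, hx, hx'⟩ := hW s.toLeft (max (N + 1) (s.toRight.sup id))
      have : h x ≤ N := hN ⟨x, fun i hi => ?_, rfl⟩
      · omega
      rcases i with i | n
      · exact hx' i (Finset.mem_toLeft.2 hi)
      · exact (Finset.le_sup (f := id) (Finset.mem_toRight.2 hi)).trans (le_of_max_le_right hx)
    refine (h3.image hc.injOn).mono ?_
    rintro _ ⟨x, hx, rfl⟩ _ ⟨i, hi, rfl⟩
    exact ⟨x, hx i hi, rfl⟩
  obtain ⟨P, hP, h4⟩ : ∃ P : Set ℕ, P.Infinite ∧ ∀ A ∈ range fun i => c '' V i, (P \ A).Finite :=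
    by_contra fun h5 => h1 ⟨_, rfl, h2, h5⟩
  have h5 : (c ⁻¹' P).Infinite := by
    refine Infinite.of_image c ((hP.sdiff (h4 _ ⟨.inr 0, rfl⟩)).mono ?_)
    rintro n ⟨hn, hn'⟩
    obtain ⟨x, -, rfl⟩ : n ∈ c '' V (.inr 0) := by_contra fun h6 => hn' ⟨hn, h6⟩
    exact ⟨x, hn, rfl⟩
  set g := h5.natEmbedding _
  have h6 : ∀ i, ∀ᶠ j in atTop, (g j : X) ∈ V i := fun i => by
    rw [← Nat.cofinite_eq_atTop]
    refine ((h4 _ ⟨i, rfl⟩).preimage (f := fun j => c (g j))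
      (hc.comp (Subtype.val_injective.comp g.injective)).injOn).subset fun j hj => ⟨(g j).2, ?_⟩
    rintro ⟨x, hx, e⟩
    exact hj (show (g j : X) ∈ V i from hc e ▸ hx)
  exact ⟨fun j => g j, tendsto_atTop.2 fun n => h6 (.inr n), fun i => h6 (.inl i)⟩

/-- A power of the line with at most continuum many factors is separable. -/
theorem exists_dense {Γ : Type} (hΓ : Cardinal.mk Γ ≤ 𝔠) :
    ∃ (O : Type) (_ : Countable O) (ev : O → Γ → ℝ), ∀ (F : Finset Γ) (ε : ℝ), 0 < ε →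
      ∀ y : Γ → ℝ, ∃ o, ∀ i ∈ F, |ev o i - y i| < ε := by
  classical
  obtain ⟨c⟩ : Nonempty (Γ ↪ (ℕ → Bool)) := by
    rw [← Cardinal.le_def]
    simpa using hΓ
  refine ⟨Σ k : ℕ, (Fin k → Bool) → ℚ, inferInstance, fun o i => o.2 fun j => c i j,
    fun F ε hε y => ?_⟩
  have h1 : ∀ᶠ k : ℕ in atTop, ∀ i ∈ F, ∀ i' ∈ F, (∀ j < k, c i j = c i' j) → i = i' := by
    simp only [eventually_all_finset]
    intro i _ i' _
    by_cases h : i = i'
    · exact .of_forall fun _ _ => h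
    · obtain ⟨j, hj⟩ := Function.ne_iff.1 (c.injective.ne h)
      filter_upwards [eventually_gt_atTop j] with k hk h2
      exact absurd (h2 j hk) hj
  obtain ⟨k, hk⟩ := h1.exists
  choose q hq using fun i => exists_rat_near (y i) hε
  refine ⟨⟨k, fun s => if h : ∃ i ∈ F, (fun j : Fin k => c i j) = s then q h.choose else 0⟩,
    fun i hi => ?_⟩
  have h2 : ∃ i' ∈ F, (fun j : Fin k => c i' j) = fun j : Fin k => c i j := ⟨i, hi, rfl⟩
  have h3 : h2.choose = i :=
    hk _ h2.choose_spec.1 i hi fun j hj => congrFun h2.choose_spec.2 ⟨j, hj⟩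
  simp only [dif_pos h2, h3]
  rw [abs_sub_comm]
  exact hq i

end Pool.Agent.P.MP_b49e67_gt.Val
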